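import Pool.Agent.H37.S3.Stmts
import Pool.Agent.H45.KAL.FUL

/-!
# Regularity of leaves: statements of the board kbx

Section 2.4 of `K3_S2.md`. Everything is for one leaf (one value of the label). A block is the
passage from the unit cube to the cubes of side `2 ^ (-b)`.
-/

set_option autoImplicit false

namespace Pool.KBX

open Finset Real MeasureTheory
open Pool.Agent.H49.Ent Pool.Agent.H32.Dense Pool.STK Pool.KAF Pool.KAL Pool.KS3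

/-- The error of the theorems `full_thm` and `mix_thm`. -/
noncomputable def W0 (L κ γ : ℕ) (ε : ℝ) : ℝ := (L : ℝ) / κ + γ + κ + 1 + ε * L

/-- A nonconcentrated leaf with time deficit `e₁` and thickness `e₃`. -/
structure LF {n : ℕ} {Ω Λ Ξ : Type} [Fintype Ω] (L κ γ : ℕ) (C₀ δ ε e₁ e₃ : ℝ) (p : Ω → ℝ)
    (lam : Ω → Λ) (x : Ω → Ξ) (T : Ξ → ℕ) (pos : Ξ → Option (Fin n) → ℕ)
    (A B : Λ → Option (Fin n) → ℝ) : Prop where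
  leaf : Leaf n (2 ^ L) C₀ p lam x T pos A B
  δ_pos : 0 < δ
  ε_nonneg : 0 ≤ ε
  ncf : NCF p lam x B δ (fun _ => ε)
  det : n.factorial * C₀ ^ n ≤ δ ^ n * 2 ^ γ
  κ_pos : 1 ≤ κ
  e₁_nonneg : 0 ≤ e₁
  e₃_nonneg : 0 ≤ e₃
  time : L * Real.log 2 - CH p (fun ω => T (x ω)) lam ≤ e₁
  thin : H p x ≤ n * (L * Real.log 2) + e₃

/-- The time is the base coordinate `i₀`. -/
def TC {n : ℕ} {Ω Λ Ξ : Type} (i₀ : Fin n) (lam : Ω → Λ) (x : Ω → Ξ) (T : Ξ → ℕ)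
    (pos : Ξ → Option (Fin n) → ℕ) (A B : Λ → Option (Fin n) → ℝ) : Prop :=
  ∀ ω, pos (x ω) (some i₀) = T (x ω) ∧ A (lam ω) (some i₀) = 0 ∧ B (lam ω) (some i₀) = 1

/-- A bounded function of the point, which is along every line a polynomial of degree `d` up to
an error `C₀ / 2 ^ b`. -/
structure PL {Ω Λ Ξ : Type} (L d b : ℕ) (C₀ : ℝ) (p : Ω → ℝ) (lam : Ω → Λ) (x : Ω → Ξ)
    (T : Ξ → ℕ) (ψ : Ξ → ℝ) (P : Λ → Polynomial ℝ) : Prop where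
  bound : ∀ ω, 0 < p ω → |ψ (x ω)| ≤ 1
  deg : ∀ l, (P l).natDegree ≤ d
  line : ∀ ω, 0 < p ω → |ψ (x ω) - (P (lam ω)).eval ((T (x ω) : ℝ) / 2 ^ L)| ≤ C₀ / 2 ^ b

/-- The first `b` digits of a function. -/
noncomputable def dg {Ξ : Type} (b : ℕ) (ψ : Ξ → ℝ) (ξ : Ξ) : ℤ := ⌊(2 : ℝ) ^ b * ψ ξ⌋

/-- The base cell of side `2 ^ (-b)`. -/
def bc {n : ℕ} {Ξ : Type} (L b : ℕ) (pos : Ξ → Option (Fin n) → ℕ) (ξ : Ξ) : Fin n → ℕ :=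
  sce (2 ^ (L - b)) pos ξ

/-- Row CRO: the values of a polynomial on the windows of length `1 / N`. -/
def CROStmt : Prop :=
  ∀ (d : ℕ) (C₀ : ℝ), 0 ≤ C₀ → ∃ C : ℝ, 1 ≤ C ∧ ∀ (N R : ℕ) (P : Polynomial ℝ) (S : Finset ℕ)
    (v : ℕ → ℤ), 1 ≤ N → 1 ≤ R → P.natDegree ≤ d → (∀ t ∈ S, t < N * R) →
    (∀ t ∈ S, |(v t : ℝ) - N * P.eval ((t : ℝ) / (N * R))| ≤ C₀) →
    (∀ t ∈ S, |(v t : ℝ)| ≤ C₀ * N) →
    ∑ k ∈ range N, (((S.filter fun t => t / R = k).image v).card : ℝ) ≤ C * N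

/-- Row CON, (2.10): continuity. The digits of `ψ` are almost a function of the base cell; the
base cells are almost uniformly distributed. -/
def CONStmt : Prop :=
  ∀ (n d : ℕ) (C₀ : ℝ), 1 ≤ C₀ → ∃ C : ℝ, 1 ≤ C ∧
    ∀ (Ω Λ Ξ : Type) [Fintype Ω] (p : Ω → ℝ) (lam : Ω → Λ) (x : Ω → Ξ) (T : Ξ → ℕ)
      (pos : Ξ → Option (Fin n) → ℕ) (A B : Λ → Option (Fin n) → ℝ) (L κ γ b : ℕ)
      (δ ε e₁ e₃ : ℝ) (ψ : Ξ → ℝ) (P : Λ → Polynomial ℝ),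
      LF L κ γ C₀ δ ε e₁ e₃ p lam x T pos A B → b ≤ L → PL L d b C₀ p lam x T ψ P →
      CH p (fun ω => dg b ψ (x ω)) (fun ω => bc L b pos (x ω)) ≤
        C * (e₁ + e₃ + W0 L κ γ ε) ∧
      n * (b * Real.log 2) - H p (fun ω => bc L b pos (x ω)) ≤ C * (e₁ + W0 L κ γ ε)

/-- Row SUP: the coefficients of the line polynomials are mostly small. -/
def SUPStmt : Prop :=
  ∀ (d : ℕ) (C₀ : ℝ), 1 ≤ C₀ → ∃ C : ℝ, 1 ≤ C ∧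
    ∀ (Ω Λ : Type) [Fintype Ω] (p : Ω → ℝ) (lam : Ω → Λ) (T : Ω → ℕ) (L : ℕ) (e₁ β : ℝ)
      (ψ : Ω → ℝ) (P : Λ → Polynomial ℝ), IsLaw p → (∀ ω, T ω < 2 ^ L) → 0 ≤ e₁ →
      L * Real.log 2 - CH p T lam ≤ e₁ → (∀ l, (P l).natDegree ≤ d) →
      (∀ ω, 0 < p ω → |ψ ω| ≤ 1) →
      (∀ ω, 0 < p ω → |ψ ω - (P (lam ω)).eval ((T ω : ℝ) / 2 ^ L)| ≤ C₀) →
      0 < β → β ≤ 1 → C * (e₁ + 1) / β ≤ L →
      Pr p {ω | ∃ i, Real.exp (C * (e₁ + 1) / β) < |(P (lam ω)).coeff i|} ≤ β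

/-- The rounded coefficients of a polynomial with coefficients at most `K`. -/
noncomputable def rc (d b : ℕ) (K : ℝ) (P : Polynomial ℝ) : Fin (d + 1) → ℤ :=
  open Classical in
  if ∀ i, |P.coeff i| ≤ K then fun i => ⌊(2 : ℝ) ^ b * P.coeff i⌋ else 0

/-- Row LDA, (2.10): the polynomial along a line is almost a function of the nominal line `G`.
The incidence `o` has a law dominated by `2 p`. -/
def LDAStmt : Prop :=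
  ∀ (n d : ℕ) (C₀ : ℝ), 1 ≤ C₀ → ∃ C : ℝ, 1 ≤ C ∧
    ∀ (Ω Λ Ξ W S : Type) [Fintype Ω] [Fintype W] (p : Ω → ℝ) (lam : Ω → Λ) (x : Ω → Ξ)
      (T : Ξ → ℕ) (pos : Ξ → Option (Fin n) → ℕ) (A B : Λ → Option (Fin n) → ℝ)
      (L κ γ b : ℕ) (δ ε e₁ e₃ K : ℝ) (ψ : Ξ → ℝ) (P : Λ → Polynomial ℝ) (q : W → ℝ)
      (o : W → Ω) (G : W → S),
      LF L κ γ C₀ δ ε e₁ e₃ p lam x T pos A B → b ≤ L → 1 ≤ b →
      PL L d b C₀ p lam x T ψ P → IsLaw q → (∀ ω, law q o ω ≤ 2 * p ω) →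
      1 ≤ K → K ≤ 2 ^ b →
      (∀ w w', 0 < q w → 0 < q w' → G w = G w' → ∀ ω ω', 0 < p ω → 0 < p ω' →
        lam ω = lam (o w) → lam ω' = lam (o w') →
        T (x ω) / 2 ^ (L - b) = T (x ω') / 2 ^ (L - b) →
        ∀ i, |(bc L b pos (x ω) i : ℝ) - (bc L b pos (x ω') i : ℝ)| ≤ C₀) →
      CH q (fun w => rc d b K (P (lam (o w)))) G ≤ C * (e₁ + e₃ + W0 L κ γ ε)

/-- Row RNK: ranks. -/
def RNKStmt : Prop :=
  ∀ (Ω S T : Type) [Fintype Ω] (p : Ω → ℝ) (X : Ω → S) (Z : Ω → T), IsLaw p →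
    ∃ rk : T → S → ℕ,
      (∀ ω ω', 0 < p ω → 0 < p ω' → Z ω = Z ω' → rk (Z ω) (X ω) = rk (Z ω') (X ω') →
        X ω = X ω') ∧
      Ex p (fun ω => Real.log ((rk (Z ω) (X ω) : ℝ) + 1)) ≤ CH p X Z

/-- Row BXL, the box lemma for laws. For every value of the frame `E` the position `s` is almost
uniformly distributed on a grid; on a large set `𝒜` the function `v` is a function of `E`, `r`,
`s`, and it is near a polynomial on the lines of the grid, depending on `E`, `r` and the line.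
Then `v` is near a polynomial in `s` which depends on `E`, `r` and a class `i`, the number of
classes being small. -/
def BXLStmt : Prop :=
  ∀ n k : ℕ, ∃ C : ℝ, 1 ≤ C ∧
    ∀ (W 𝓔 𝓡 : Type) [Fintype W] [Fintype 𝓡] (q : W → ℝ) (N : ℕ) (s : W → Fin n → Fin N)
      (E : W → 𝓔) (r : W → 𝓡) (v : W → ℝ) (P : Fin n → W → Polynomial ℝ) (h β E₁ : ℝ)
      (𝒜 : Set W), IsLaw q → 1 ≤ N → 0 < β → β ≤ 1 → 0 ≤ E₁ → 0 ≤ h → Pr q 𝒜ᶜ ≤ β →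
      (∀ w ∈ 𝒜, |v w| ≤ 2) →
      (∀ w ∈ 𝒜, ∀ w' ∈ 𝒜, E w = E w' → r w = r w' → s w = s w' → v w = v w') →
      (∀ j, ∀ w ∈ 𝒜, ∀ w' ∈ 𝒜, E w = E w' → r w = r w' → (∀ i, i ≠ j → s w i = s w' i) →
        P j w = P j w') →
      (∀ j, ∀ w ∈ 𝒜, (P j w).natDegree ≤ k ∧
        |v w - (P j w).eval (((s w j : ℕ) : ℝ))| ≤ E₁) →
      n * Real.log N - CH q s E ≤ h →
      C * ((h + 1) / β ^ 2 + Real.log (Fintype.card 𝓡 + 1)) ≤ Real.log N →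
      ∃ (i : W → ℕ) (Q : 𝓔 → 𝓡 → ℕ → MvPolynomial (Fin n) ℝ) (𝒜' : Set W),
        𝒜' ⊆ 𝒜 ∧ Pr q 𝒜'ᶜ ≤ C * β ∧
        (∀ w, (i w : ℝ) ≤
          Real.exp (C * ((h + 1) / β ^ 2 + Real.log (Fintype.card 𝓡 + 1)))) ∧
        (∀ a r' i' j, (Q a r' i').degreeOf j ≤ k) ∧
        (∀ a r' i', ∀ y : Fin n → ℝ, (∀ j, |y j| ≤ 4 * N) →
          |MvPolynomial.eval y (Q a r' i')| ≤ (1 + E₁) *
            Real.exp (C * ((h + 1) / β ^ 2 + Real.log (Fintype.card 𝓡 + 1)))) ∧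
        ∀ w ∈ 𝒜', |v w - MvPolynomial.eval (fun j => ((s w j : ℕ) : ℝ)) (Q (E w) (r w) (i w))| ≤
          E₁ * Real.exp (C * ((h + 1) / β ^ 2 + Real.log (Fintype.card 𝓡 + 1)))

/-- The rounded frame. -/
noncomputable def fr {n : ℕ} (b : ℕ) (V : Fin n → Fin n → ℝ) : Fin n → Fin n → ℤ :=
  fun j i => ⌊(2 : ℝ) ^ b * V j i⌋

/-- Row FRA: inversion of the rounded frame. The vector `V j` is the velocity of the line `j`. -/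
def FRAStmt : Prop :=
  ∀ (n : ℕ) (C₀ δ : ℝ), 1 ≤ C₀ → 0 < δ → ∃ R b₀ : ℕ, 1 ≤ R ∧
    ∀ (b : ℕ), b₀ ≤ b → ∃ Iv : (Fin n → Fin n → ℤ) → Fin n → Fin n → ℝ,
      ∀ V : Fin n → Fin n → ℝ, (∀ j i, |V j i| ≤ C₀) → δ ^ n ≤ |Matrix.det (Matrix.of V)| →
        (∀ j i, |Iv (fr b V) j i| ≤ R) ∧
        (∀ j j', ∑ i, Iv (fr b V) j i * ((fr b V j' i : ℝ) / 2 ^ b) = if j = j' then 1 else 0) ∧
        (∀ i i', ∑ j, ((fr b V j i : ℝ) / 2 ^ b) * Iv (fr b V) j i' = if i = i' then 1 else 0)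

/-- Row FRB, (2.12): the skew grid. `s w` is the position of the point of `w` on the grid given by
the rounded frame of `w`; the time is the sum of the skew coordinates. -/
def FRBStmt : Prop :=
  ∀ (n : ℕ) (C₀ δ : ℝ), 1 ≤ C₀ → 0 < δ → ∃ (R b₀ : ℕ) (C : ℝ), 1 ≤ R ∧ 1 ≤ C ∧
    ∀ (b L : ℕ), b₀ ≤ b → b ≤ L → ∃ Iv : (Fin n → Fin n → ℤ) → Fin n → Fin n → ℝ,
      (∀ E j, ∑ i, |Iv E j i| ≤ R) ∧
      ∀ (Ω Λ Ξ W : Type) [Fintype Ω] (p : Ω → ℝ) (lam : Ω → Λ) (x : Ω → Ξ) (T : Ξ → ℕ)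
        (pos : Ξ → Option (Fin n) → ℕ) (A B : Λ → Option (Fin n) → ℝ) (i₀ : Fin n)
        (f : Fin n → W → Ω) (𝒲 : Set W) (E : W → Fin n → Fin n → ℤ),
        Leaf n (2 ^ L) C₀ p lam x T pos A B → TC i₀ lam x T pos A B →
        (∀ w, E w = fr b fun j i => B (lam (f j w)) (some i)) →
        (∀ w ∈ 𝒲, ∀ j, x (f j w) = x (f i₀ w)) →
        (∀ w ∈ 𝒲, δ ^ n ≤
          |Matrix.det (Matrix.of fun j i => B (lam (f j w)) (some i))|) →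
        ∃ s : W → Fin n → Fin (2 * R * 2 ^ b),
          (∀ w ∈ 𝒲, ∀ w' ∈ 𝒲, E w = E w' → s w = s w' → ∀ i,
            |(bc L b pos (x (f i₀ w)) i : ℝ) - (bc L b pos (x (f i₀ w')) i : ℝ)| ≤ C) ∧
          (∀ w ∈ 𝒲, ∀ ξ : Ξ, bc L b pos ξ = bc L b pos (x (f i₀ w)) → ∀ j,
            |((s w j : ℕ) : ℝ) - 2 ^ b * (∑ i, Iv (E w) j i * ((pos ξ (some i) : ℝ) / 2 ^ L) +
              R)| ≤ C) ∧
          (∀ w ∈ 𝒲, |2 ^ b * ((T (x (f i₀ w)) : ℝ) / 2 ^ L) -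
            (∑ j, ((s w j : ℕ) : ℝ) - n * R * 2 ^ b)| ≤ C) ∧
          (∀ j, ∀ w ∈ 𝒲, ∀ w' ∈ 𝒲, E w = E w' → (∀ i, i ≠ j → s w i = s w' i) →
            ∀ ω ω', lam ω = lam (f j w) → lam ω' = lam (f j w') →
            T (x ω) / 2 ^ (L - b) = T (x ω') / 2 ^ (L - b) → ∀ i,
            |(bc L b pos (x ω) i : ℝ) - (bc L b pos (x ω') i : ℝ)| ≤ C)

/-- Row CHR: Remez inequality along a chain, for a function depending on a label `b` which is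
independent of the chain given `σ`, the value of `ζ` at the first point. The function is small
at the first point; then for one value of the label it is small with a probability which is not
exponentially small. -/
def CHRStmt : Prop :=
  ∀ D : ℕ, ∃ C : ℝ, 1 ≤ C ∧
    ∀ (Ω Λ Ξ W 𝔅 S : Type) [Fintype Ω] [Fintype W] (p : Ω → ℝ) (lam : Ω → Λ) (x : Ω → Ξ)
      (T : Ξ → ℕ) (M N : ℕ) (q : W → ℝ) (ζ : Ξ → S) (σ : W → S) (b : W → 𝔅)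
      (F : 𝔅 → Ξ → ℝ) (PF : 𝔅 → Λ → Polynomial ℝ) (g : W → ℝ) (η e₁ e₄ : ℝ) (𝒢 : Set W),
      IsLaw p → IsLaw q → 2 ≤ M → (∀ ω, T (x ω) < M) →
      (∀ z, law q σ z = law p (fun ω => ζ (x ω)) z) → 0 < η → η ≤ 1 →
      (∀ w l, (PF (b w) l).natDegree ≤ D) →
      (∀ w, 0 < q w → ∀ ω, 0 < p ω →
        |F (b w) (x ω) - (PF (b w) (lam ω)).eval ((T (x ω) : ℝ) / M)| ≤ η) →
      (∀ w, 0 < q w → ∀ ω, 0 < p ω → |F (b w) (x ω)| ≤ (M : ℝ) ^ D * η) →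
      (∀ w, 0 < q w → ∀ ω, 0 < p ω → ζ (x ω) = σ w →
        Real.log (max |F (b w) (x ω)| η) ≤ g w) →
      0 ≤ e₁ → Real.log M - CH p (fun ω => T (x ω)) lam ≤ e₁ → 0 ≤ e₄ →
      (∀ (V : Type) [Fintype V] (r : V → ℝ) (o o' : ℕ → V → Ω) (l : ℕ → V → Λ)
        (y : ℕ → V → Ξ), IsChain p lam x N r o o' l y → H p x - CH r (y N) (y 0) ≤ e₄) →
      Pr q 𝒢ᶜ ≤ 1 / 8 →
      ∃ w ∈ 𝒢, 0 < q w ∧ Real.exp (-(2 * e₄ + C)) ≤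
        Pr p {ω | |F (b w) (x ω)| ≤ η * Real.exp (4 * (Ex q g - Real.log η) +
          C * ((H q b - CH q b σ) + N * (e₁ + 1)))}

/-- **Row BLK: the block lemma.** -/
def BLKStmt : Prop :=
  ∀ (n d : ℕ) (C₀ δ : ℝ), 1 ≤ C₀ → 0 < δ → ∃ (C c : ℝ) (b₀ : ℕ), 1 ≤ C ∧ 0 < c ∧
    ∀ (Ω Λ Ξ W : Type) [Fintype Ω] [Fintype W] (p : Ω → ℝ) (lam : Ω → Λ) (x : Ω → Ξ)
      (T : Ξ → ℕ) (pos : Ξ → Option (Fin n) → ℕ) (A B : Λ → Option (Fin n) → ℝ) (i₀ : Fin n)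
      (L κ γ b N : ℕ) (ε e₁ e₃ : ℝ) (ψ : Ξ → ℝ) (P : Λ → Polynomial ℝ) (q : W → ℝ)
      (f : Fin n → W → Ω),
      LF L κ γ C₀ δ ε e₁ e₃ p lam x T pos A B → TC i₀ lam x T pos A B → b₀ ≤ b → b ≤ L →
      PL L d b C₀ p lam x T ψ P → IsLaw q → (∀ j, Marg q p (f j)) →
      (∀ w, 0 < q w → ∀ j, x (f j w) = x (f i₀ w)) →
      Pr q {w | |Matrix.det (Matrix.of fun j i => B (lam (f j w)) (some i))| < δ ^ n} ≤ c →
      H q (fun w => fr b fun j i => B (lam (f j w)) (some i)) -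
        CH q (fun w => fr b fun j i => B (lam (f j w)) (some i))
          (fun w => bc L b pos (x (f i₀ w))) ≤ c * b →
      (N + 1) * (e₁ + 1) + e₃ + W0 L κ γ ε ≤ c * b →
      ∃ Q : MvPolynomial (Fin n) ℝ, Q.totalDegree ≤ n * d ∧
        (∀ y : Fin n → ℝ, (∀ i, |y i| ≤ 2) → |MvPolynomial.eval y Q| ≤ (2 : ℝ) ^ ((b : ℝ) / 8)) ∧
        Real.exp (-(C * ((1 - 1 / n) ^ N * L + e₁ + e₃ + W0 L κ γ ε))) ≤
          Pr p {ω | |ψ (x ω) - MvPolynomial.eval (fun i => rp (2 ^ L) pos (x ω) (some i)) Q| ≤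
            (2 : ℝ) ^ (-(3 * (b : ℝ) / 4))}

/-- Row TRM, (2.15): Taylor polynomials. -/
def TRMStmt : Prop :=
  ∀ n D d : ℕ, ∃ C : ℝ, 1 ≤ C ∧ ∀ (Q : MvPolynomial (Fin n) ℝ) (a : Fin n → ℝ) (r S : ℝ),
    Q.totalDegree ≤ D → (∀ i, 0 ≤ a i ∧ a i ≤ 1) → 0 < r → r ≤ 1 →
    (∀ y : Fin n → ℝ, (∀ i, |y i| ≤ 2) → |MvPolynomial.eval y Q| ≤ S) →
    ∃ Q' : MvPolynomial (Fin n) ℝ, Q'.totalDegree ≤ d ∧
      (∀ y : Fin n → ℝ, (∀ i, |y i - a i| ≤ r) →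
        |MvPolynomial.eval y Q - MvPolynomial.eval y Q'| ≤ C * r ^ (d + 1) * S) ∧
      ∀ y : Fin n → ℝ, (∀ i, |y i - a i| ≤ 1) →
        (∀ i, |MvPolynomial.eval y (MvPolynomial.pderiv i Q')| ≤ C * S) ∧
        ∀ i j, |MvPolynomial.eval y (MvPolynomial.pderiv i (MvPolynomial.pderiv j Q'))| ≤ C * S

/-- A leaf, in a form which is inherited by point events: the law of the pair (line, time) is
bounded, there are few points over a base point, the fans are nonconcentrated at every point. -/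
structure SL {n : ℕ} {Ω Λ Ξ : Type} [Fintype Ω] (L : ℕ) (C₀ δ ε e₁ e₃ : ℝ) (p : Ω → ℝ)
    (lam : Ω → Λ) (x : Ω → Ξ) (T : Ξ → ℕ) (pos : Ξ → Option (Fin n) → ℕ)
    (A B : Λ → Option (Fin n) → ℝ) (μ : Λ → ℝ) : Prop where
  leaf : Leaf n (2 ^ L) C₀ p lam x T pos A B
  δ_pos : 0 < δ
  ε_nonneg : 0 ≤ ε
  ncf : NCF p lam x B δ (fun _ => ε)
  e₁_nonneg : 0 ≤ e₁
  e₃_nonneg : 0 ≤ e₃
  μ_nonneg : ∀ l, 0 ≤ μ l
  μ_sum : ∀ F : Finset Λ, ∑ l ∈ F, μ l ≤ 1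
  time : ∀ ω, law p (fun ω => (lam ω, T (x ω))) (lam ω, T (x ω)) ≤
    Real.exp e₁ * μ (lam ω) / 2 ^ L
  thin : ∀ F : Finset Ω, (∀ ω ∈ F, 0 < p ω) → (∀ ω ∈ F, ∀ ω' ∈ F, bas pos (x ω) = bas pos (x ω')) →
    (∀ ω ∈ F, ∀ ω' ∈ F, x ω = x ω' → ω = ω') → (F.card : ℝ) ≤ Real.exp e₃

/-- The law conditioned on the cell `c` of side `2 ^ (-a)`. -/
noncomputable def pc {n : ℕ} {Ω Ξ : Type} [Fintype Ω] (L a : ℕ) (p : Ω → ℝ) (x : Ω → Ξ)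
    (pos : Ξ → Option (Fin n) → ℕ) (c : Option (Fin n) → ℕ) : Ω → ℝ :=
  Pool.Agent.H49.Ent.cond p (fun ω => cel (2 ^ (L - a)) pos (x ω)) c

/-- The support of the law conditioned on the cell `c`. -/
def Oc {n : ℕ} {Ω Ξ : Type} (L a : ℕ) (p : Ω → ℝ) (x : Ω → Ξ)
    (pos : Ξ → Option (Fin n) → ℕ) (c : Option (Fin n) → ℕ) : Type :=
  {ω : Ω // 0 < p ω ∧ cel (2 ^ (L - a)) pos (x ω) = c}

noncomputable instance {n : ℕ} {Ω Ξ : Type} [Fintype Ω] (L a : ℕ) (p : Ω → ℝ) (x : Ω → Ξ)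
    (pos : Ξ → Option (Fin n) → ℕ) (c : Option (Fin n) → ℕ) : Fintype (Oc L a p x pos c) := by
  classical
  exact inferInstanceAs (Fintype {ω : Ω // 0 < p ω ∧ cel (2 ^ (L - a)) pos (x ω) = c})

/-- The line segment in the cell. -/
def lamc {n : ℕ} {Ω Λ Ξ : Type} (L a : ℕ) (p : Ω → ℝ) (lam : Ω → Λ) (x : Ω → Ξ) (T : Ξ → ℕ)
    (pos : Ξ → Option (Fin n) → ℕ) (c : Option (Fin n) → ℕ) (ω : Oc L a p x pos c) : Λ × ℕ :=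
  (lam ω.1, T (x ω.1) / 2 ^ (L - a))

/-- The position of the segment in the coordinates of the cell. -/
noncomputable def Ac {n : ℕ} {Λ : Type} (a : ℕ) (A B : Λ → Option (Fin n) → ℝ)
    (c : Option (Fin n) → ℕ) (l : Λ × ℕ) : Option (Fin n) → ℝ :=
  fun i => 2 ^ a * (A l.1 i + (l.2 : ℝ) / 2 ^ a * B l.1 i) - c i

/-- The cell `c` of side `2 ^ (-a)` is, in its own coordinates, a nonconcentrated leaf. -/
def Cg {n : ℕ} {Ω Λ Ξ : Type} [Fintype Ω] (L a κ γ : ℕ) (C₀ δ ε e₁ e₃ : ℝ) (p : Ω → ℝ)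
    (lam : Ω → Λ) (x : Ω → Ξ) (T : Ξ → ℕ) (pos : Ξ → Option (Fin n) → ℕ)
    (A B : Λ → Option (Fin n) → ℝ) (c : Option (Fin n) → ℕ) : Prop :=
  LF (L - a) κ γ C₀ δ ε e₁ e₃ (fun ω : Oc L a p x pos c => pc L a p x pos c ω.1)
    (lamc L a p lam x T pos c) (fun ω => x ω.1) (fun ξ => T ξ % 2 ^ (L - a))
    (fun ξ i => pos ξ i % 2 ^ (L - a)) (Ac a A B c) (fun l => B l.1)

/-- Row CEL: most cells are nonconcentrated leaves. -/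
def CELStmt : Prop :=
  ∀ (n : ℕ) (C₀ : ℝ), 1 ≤ C₀ → ∃ C : ℝ, 1 ≤ C ∧
    ∀ (Ω Λ Ξ : Type) [Fintype Ω] (p : Ω → ℝ) (lam : Ω → Λ) (x : Ω → Ξ) (T : Ξ → ℕ)
      (pos : Ξ → Option (Fin n) → ℕ) (A B : Λ → Option (Fin n) → ℝ) (μ : Λ → ℝ) (i₀ : Fin n)
      (L κ γ a : ℕ) (δ ε e₁ e₃ : ℝ),
      SL L C₀ δ ε e₁ e₃ p lam x T pos A B μ → TC i₀ lam x T pos A B → a ≤ L → 1 ≤ κ →
      n.factorial * (3 * C₀) ^ n ≤ δ ^ n * 2 ^ γ →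
      Pr p {ω | ¬ Cg L a κ γ (3 * C₀) δ ε (e₁ + C) e₃ p lam x T pos A B
        (cel (2 ^ (L - a)) pos (x ω))} ≤ 1 / 4 ∧
      ∀ c, TC i₀ (lamc L a p lam x T pos c) (fun ω => x ω.1) (fun ξ => T ξ % 2 ^ (L - a))
        (fun ξ i => pos ξ i % 2 ^ (L - a)) (Ac a A B c) (fun l => B l.1)

/-- The information of the frame about the digits `a + 1, ..., a + b` of the point. -/
noncomputable def JJ {n : ℕ} {Ω Λ Ξ W : Type} [Fintype W] (L a b : ℕ) (lam : Ω → Λ) (x : Ω → Ξ)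
    (pos : Ξ → Option (Fin n) → ℕ) (B : Λ → Option (Fin n) → ℝ) (i₀ : Fin n) (q : W → ℝ)
    (f : Fin n → W → Ω) : ℝ :=
  CH q (fun w => fr b fun j i => B (lam (f j w)) (some i))
      (fun w => cel (2 ^ (L - a)) pos (x (f i₀ w))) -
    CH q (fun w => fr b fun j i => B (lam (f j w)) (some i))
      (fun w => cel (2 ^ (L - (a + b))) pos (x (f i₀ w)))

/-- Row GSC, (2.11): frames and good scales. -/
def GSCStmt : Prop :=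
  ∀ (n : ℕ) (C₀ : ℝ), 1 ≤ C₀ → ∃ C : ℝ, 1 ≤ C ∧
    ∀ (Ω Λ Ξ : Type) [Fintype Ω] (p : Ω → ℝ) (lam : Ω → Λ) (x : Ω → Ξ) (T : Ξ → ℕ)
      (pos : Ξ → Option (Fin n) → ℕ) (A B : Λ → Option (Fin n) → ℝ) (i₀ : Fin n) (L : ℕ)
      (δ ε : ℝ),
      Leaf n (2 ^ L) C₀ p lam x T pos A B → 0 < δ → 0 ≤ ε → NCF p lam x B δ (fun _ => ε) →
      ∃ (W : Type) (_ : Fintype W) (q : W → ℝ) (f : Fin n → W → Ω), IsLaw q ∧
        (∀ j, Marg q p (f j)) ∧ (∀ w, 0 < q w → ∀ j, x (f j w) = x (f i₀ w)) ∧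
        Pr q {w | |Matrix.det (Matrix.of fun j i => B (lam (f j w)) (some i))| < δ ^ n} ≤
          n * ε ∧
        ∀ (m K I b : ℕ) (θ : ℝ), 1 ≤ m → 1 ≤ K → b = K * m → (∀ i < I, m * i + b ≤ L) → 0 < θ →
          (((range I).filter fun i => θ * b < JJ L (m * i) b lam x pos B i₀ q f).card : ℝ) * θ ≤
            C * K

end Pool.KBX
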