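import Pool.Agent.H84.KBOX.Stmts
import Pool.Agent.H20.KAL.TAY
import Pool.Agent.H32.Dense.Split

/-!
# The block lemma: auxiliary lemmas
-/

set_option autoImplicit false

namespace Pool.KBX

open Finset Real MeasureTheory
open Pool.Agent.H49.Ent Pool.Agent.H32.Dense Pool.STK Pool.KAF Pool.KAL Pool.KS3

section Prob

variable {Ω S T : Type} [Fintype Ω] {p : Ω → ℝ}

theorem Pr_eq (p : Ω → ℝ) (E : Set Ω) [DecidablePred fun ω => ω ∈ E] :
    Pr p E = ∑ ω, if ω ∈ E then p ω else 0 := by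
  unfold Pr law
  refine Finset.sum_congr rfl fun ω _ => ?_
  by_cases h : ω ∈ E <;> simp [h]

theorem Pr_nonneg (hp : IsLaw p) (E : Set Ω) : 0 ≤ Pr p E := law_nonneg hp.nonneg _ _

theorem Pr_mono (hp : IsLaw p) {E F : Set Ω} (h : ∀ ω, 0 < p ω → ω ∈ E → ω ∈ F) :
    Pr p E ≤ Pr p F := by
  classical
  rw [Pr_eq, Pr_eq]
  refine Finset.sum_le_sum fun ω _ => ?_
  rcases (hp.nonneg ω).eq_or_lt with h0 | h0
  · simp [← h0]
  · by_cases hE : ω ∈ E
    · simp [hE, h ω h0 hE]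
    · simp only [hE, if_false]
      split_ifs
      · exact h0.le
      · exact le_rfl

theorem Pr_le_one (hp : IsLaw p) (E : Set Ω) : Pr p E ≤ 1 := by
  have := law_le_total hp.nonneg (fun ω => ω ∈ E) True
  rwa [hp.sum_one] at this

theorem Pr_union (hp : IsLaw p) (E F : Set Ω) : Pr p (E ∪ F) ≤ Pr p E + Pr p F := by
  classical
  rw [Pr_eq, Pr_eq, Pr_eq, ← Finset.sum_add_distrib]
  refine Finset.sum_le_sum fun ω _ => ?_
  have := hp.nonneg ω
  by_cases hE : ω ∈ E <;> by_cases hF : ω ∈ F <;> simp [hE, hF, this]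

theorem Pr_compl (hp : IsLaw p) (E : Set Ω) : Pr p Eᶜ = 1 - Pr p E := by
  classical
  rw [Pr_eq, Pr_eq, eq_sub_iff_add_eq, ← hp.sum_one, ← Finset.sum_add_distrib]
  refine Finset.sum_congr rfl fun ω _ => ?_
  by_cases hE : ω ∈ E <;> simp [hE]

theorem Pr_iUnion_le (hp : IsLaw p) {n : ℕ} (E : Fin n → Set Ω) (b : ℝ)
    (h : ∀ j, Pr p (E j) ≤ b) : Pr p {ω | ∃ j, ω ∈ E j} ≤ n * b := by
  classical
  have h1 : Pr p {ω | ∃ j, ω ∈ E j} ≤ ∑ j, Pr p (E j) := by
    simp only [Pr_eq]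
    rw [Finset.sum_comm]
    refine Finset.sum_le_sum fun ω _ => ?_
    have h0 := hp.nonneg ω
    by_cases hE : ∃ j, ω ∈ E j
    · obtain ⟨j, hj⟩ := hE
      rw [if_pos (show ω ∈ {ω | ∃ j, ω ∈ E j} from ⟨j, hj⟩)]
      have := Finset.single_le_sum (f := fun j => if ω ∈ E j then p ω else 0)
        (fun j _ => by split_ifs; exacts [h0, le_rfl]) (Finset.mem_univ j)
      simpa [hj] using this
    · rw [if_neg (show ω ∉ {ω | ∃ j, ω ∈ E j} from hE)]
      exact Finset.sum_nonneg fun j _ => by split_ifs; exacts [h0, le_rfl]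
  refine h1.trans ((Finset.sum_le_sum fun j _ => h j).trans (le_of_eq ?_))
  rw [Finset.sum_const, Finset.card_univ, Fintype.card_fin, nsmul_eq_mul]

theorem Pr_eq_Ex (p : Ω → ℝ) (E : Set Ω) [DecidablePred fun ω => ω ∈ E] :
    Pr p E = Ex p (fun ω => if ω ∈ E then (1 : ℝ) else 0) := by
  rw [Pr_eq]
  unfold Ex
  refine Finset.sum_congr rfl fun ω _ => ?_
  by_cases h : ω ∈ E <;> simp [h]

/-- Markov. -/
theorem markov (hp : IsLaw p) (f : Ω → ℝ) (hf : ∀ ω, 0 < p ω → 0 ≤ f ω) (t : ℝ) :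
    t * Pr p {ω | t ≤ f ω} ≤ Ex p f := by
  classical
  rw [Pr_eq]
  unfold Ex
  rw [Finset.mul_sum]
  refine Finset.sum_le_sum fun ω _ => ?_
  rcases (hp.nonneg ω).eq_or_lt with h0 | h0
  · simp [← h0]
  · by_cases h : t ≤ f ω
    · rw [if_pos (show ω ∈ {ω | t ≤ f ω} from h), mul_comm]
      exact mul_le_mul_of_nonneg_left h h0.le
    · rw [if_neg (show ω ∉ {ω | t ≤ f ω} from h), mul_zero]
      exact mul_nonneg h0.le (hf ω h0)

theorem Pr_marg {Ω' : Type} [Fintype Ω'] {q : Ω' → ℝ} {o : Ω' → Ω} (h : Marg q p o)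
    (E : Set Ω) : Pr q {w | o w ∈ E} = Pr p E := by
  classical
  rw [Pr_eq_Ex, Pr_eq_Ex]
  exact h.ex (fun ω => if ω ∈ E then (1 : ℝ) else 0)

theorem rs_eq (p : Ω → ℝ) (E : Set Ω) (ω : Ω) :
    rs p E ω = open Classical in if ω ∈ E then p ω / Pr p E else 0 := by
  classical
  unfold rs Pr Pool.Agent.H49.Ent.cond
  by_cases h : ω ∈ E <;> simp [h]

theorem rs_isLaw (hp : IsLaw p) {E : Set Ω} (h : 0 < Pr p E) : IsLaw (rs p E) :=
  ⟨cond_nonneg hp.nonneg _ _, sum_cond p _ h.ne'⟩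

theorem rs_pos (hp : IsLaw p) {E : Set Ω} {ω : Ω} : 0 < rs p E ω ↔ 0 < p ω ∧ ω ∈ E := by
  unfold rs
  rw [cond_pos_iff hp.nonneg]
  simp

theorem rs_le_two (hp : IsLaw p) {E : Set Ω} (h : 1 / 2 ≤ Pr p E) (ω : Ω) :
    rs p E ω ≤ 2 * p ω := by
  classical
  rw [rs_eq]
  have h0 := hp.nonneg ω
  split_ifs
  · rw [div_le_iff₀ (by linarith)]
    nlinarith
  · linarith

/-- Conditional entropies under a restriction. -/
theorem CH_rs_le (hp : IsLaw p) {E : Set Ω} (h : 1 / 2 ≤ Pr p E) (X : Ω → S) (Z : Ω → T) :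
    CH (rs p E) X Z ≤ 2 * CH p X Z := by
  classical
  have hp0 := hp.nonneg
  have h1 := CH_split hp0 X Z (fun ω => ω ∈ E)
  have h2 : CH p X (fun ω => (Z ω, ω ∈ E)) ≤ CH p X Z :=
    CH_mono_cond hp0 fun _ _ _ _ h => (Prod.ext_iff.mp h).1
  have h3 : Pr p E * CH (rs p E) X Z ≤ CH p X (fun ω => (Z ω, ω ∈ E)) := by
    rw [h1]
    have hnn : ∀ j ∈ univ.image (fun ω => ω ∈ E), 0 ≤ law p (fun ω => ω ∈ E) j *
        CH (cond p (fun ω => ω ∈ E) j) X Z := fun j _ =>
      mul_nonneg (law_nonneg hp0 _ _) (CH_nonneg (cond_nonneg hp0 _ _) _ _)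
    by_cases hm : True ∈ univ.image (fun ω => ω ∈ E)
    · exact Finset.single_le_sum (f := fun j => law p (fun ω => ω ∈ E) j *
        CH (cond p (fun ω => ω ∈ E) j) X Z) hnn hm
    · have : Pr p E = 0 := law_eq_zero_of_notMem p _ hm
      linarith
  have h4 := CH_nonneg (p := rs p E) (cond_nonneg hp0 _ _) X Z
  nlinarith

theorem law_rs_le (hp : IsLaw p) {E : Set Ω} (h : 1 / 2 ≤ Pr p E) (X : Ω → S) (s : S) :
    law (rs p E) X s ≤ 2 * law p X s := by
  classical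
  unfold law
  rw [Finset.mul_sum]
  refine Finset.sum_le_sum fun ω _ => ?_
  split_ifs
  · exact rs_le_two hp h ω
  · simp

theorem Pr_inter_le (hp : IsLaw p) {E F : Set Ω} (h : 0 < Pr p E) :
    Pr p (E ∩ F) ≤ Pr (rs p E) F := by
  classical
  rw [Pr_eq, Pr_eq (rs p E)]
  refine Finset.sum_le_sum fun ω _ => ?_
  have h0 := hp.nonneg ω
  rw [rs_eq]
  have h1 := Pr_le_one hp E
  by_cases hE : ω ∈ E <;> by_cases hF : ω ∈ F
  · simp only [Set.mem_inter_iff, hE, hF, and_self, if_true]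
    rw [le_div_iff₀ h]
    nlinarith
  all_goals simp [hE, hF]

end Prob

section Poly

/-- Restriction of a polynomial to a curve with coordinates of degree one. -/
theorem natDegree_aeval_le {σ : Type} (Q : MvPolynomial σ ℝ) (g : σ → Polynomial ℝ)
    (hg : ∀ i, (g i).natDegree ≤ 1) {D : ℕ} (h : Q.totalDegree ≤ D) :
    (MvPolynomial.aeval g Q).natDegree ≤ D := by
  rw [MvPolynomial.aeval_def, MvPolynomial.eval₂_eq]
  refine Polynomial.natDegree_sum_le_of_forall_le _ _ fun α hα => ?_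
  refine (Polynomial.natDegree_mul_le).trans ?_
  have h1 : (algebraMap ℝ (Polynomial ℝ) (MvPolynomial.coeff α Q)).natDegree = 0 :=
    Polynomial.natDegree_C _
  have h2 : (∏ i ∈ α.support, g i ^ α i).natDegree ≤ α.degree := by
    refine (Polynomial.natDegree_prod_le _ _).trans ?_
    rw [Finsupp.degree_apply]
    refine Finset.sum_le_sum fun i _ => ?_
    refine Polynomial.natDegree_pow_le.trans ?_
    have := Nat.mul_le_mul_left (α i) (hg i)
    simpa using this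
  rw [h1, zero_add]
  exact h2.trans ((MvPolynomial.le_totalDegree hα).trans h)

theorem eval_aeval_poly {σ : Type} (Q : MvPolynomial σ ℝ) (g : σ → Polynomial ℝ) (t : ℝ) :
    (MvPolynomial.aeval g Q).eval t = MvPolynomial.eval (fun i => (g i).eval t) Q := by
  have h := MvPolynomial.map_aeval g (Polynomial.evalRingHom t) Q
  rw [Polynomial.coe_evalRingHom] at h
  rw [h, MvPolynomial.coe_eval₂Hom, MvPolynomial.eval, MvPolynomial.coe_eval₂Hom]
  congr 1
  ext a
  simp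

/-- One variable: the increment near the origin. -/
theorem incr_le (D : ℕ) : ∃ C : ℝ, 0 ≤ C ∧ ∀ (P : Polynomial ℝ) (M ρ : ℝ), P.natDegree ≤ D →
    (∀ t : ℝ, 0 ≤ t → t ≤ 1 → |P.eval t| ≤ M) → 0 ≤ ρ → ρ ≤ 1 →
    |P.eval ρ - P.eval 0| ≤ C * (ρ * M) := by
  obtain ⟨C, hC, h⟩ := TAY.coef_bound D
  refine ⟨(D + 1) * C, by positivity, ?_⟩
  intro P M ρ hP hM hρ hρ1
  have hM0 : 0 ≤ M := le_trans (abs_nonneg _) (hM 0 le_rfl zero_le_one)
  have h0 := h P M hP hM
  have e1 : P.eval ρ - P.eval 0 = ∑ m ∈ Finset.range (D + 1), P.coeff m * (ρ ^ m - 0 ^ m) := by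
    rw [Polynomial.eval_eq_sum_range' (Nat.lt_succ_of_le hP),
      Polynomial.eval_eq_sum_range' (Nat.lt_succ_of_le hP), ← Finset.sum_sub_distrib]
    exact Finset.sum_congr rfl fun m _ => by ring
  rw [e1]
  refine (Finset.abs_sum_le_sum_abs _ _).trans ?_
  have : ∀ m ∈ Finset.range (D + 1), |P.coeff m * (ρ ^ m - 0 ^ m)| ≤ C * (ρ * M) := by
    intro m hm
    rw [abs_mul]
    have hm' : m ≤ D := Nat.lt_succ_iff.1 (Finset.mem_range.1 hm)
    have g1 : |ρ ^ m - 0 ^ m| ≤ ρ := by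
      rcases Nat.eq_zero_or_pos m with h | h
      · subst h
        simp [hρ]
      · rw [zero_pow h.ne', sub_zero, abs_of_nonneg (pow_nonneg hρ m)]
        exact pow_le_of_le_one hρ hρ1 h.ne'
    calc |P.coeff m| * |ρ ^ m - 0 ^ m| ≤ (C * M) * ρ :=
          mul_le_mul (h0 m hm') g1 (abs_nonneg _) (mul_nonneg hC hM0)
      _ = _ := by ring
  refine (Finset.sum_le_sum this).trans (le_of_eq ?_)
  rw [Finset.sum_const, Finset.card_range, nsmul_eq_mul]
  push_cast
  ring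

/-- Lipschitz bound on the cube. -/
theorem lip_le (n D : ℕ) : ∃ C : ℝ, 0 ≤ C ∧ ∀ (Q : MvPolynomial (Fin n) ℝ) (S ρ s : ℝ)
    (y y' : Fin n → ℝ), Q.totalDegree ≤ D → 0 < s →
    (∀ z : Fin n → ℝ, (∀ i, |z i| ≤ 2 * s) → |MvPolynomial.eval z Q| ≤ S) → 0 ≤ ρ → ρ ≤ 1 →
    (∀ i, |y i| ≤ s) → (∀ i, |y' i - y i| ≤ ρ * s) →
    |MvPolynomial.eval y' Q - MvPolynomial.eval y Q| ≤ C * (ρ * S) := by
  obtain ⟨C, hC, h⟩ := incr_le D
  refine ⟨C, hC, ?_⟩
  intro Q S ρ s y y' hQ hs hS hρ hρ1 hy hy'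
  rcases hρ.eq_or_lt with h0 | h0
  · have : y' = y := by
      funext i
      have := hy' i
      rw [← h0, zero_mul] at this
      have := abs_nonpos_iff.1 this
      linarith
    rw [this, sub_self, abs_zero, ← h0]
    simp
  · set g : Fin n → Polynomial ℝ := fun i =>
      Polynomial.C (y i) + Polynomial.C ((y' i - y i) / ρ) * Polynomial.X with hg
    have hg1 : ∀ i, (g i).natDegree ≤ 1 := by
      intro i
      rw [hg]
      refine (Polynomial.natDegree_add_le _ _).trans (max_le (by simp) ?_)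
      exact (Polynomial.natDegree_C_mul_le _ _).trans Polynomial.natDegree_X_le
    have hev : ∀ t, (MvPolynomial.aeval g Q).eval t =
        MvPolynomial.eval (fun i => y i + (y' i - y i) / ρ * t) Q := by
      intro t
      rw [eval_aeval_poly]
      congr 2
      funext i
      rw [hg]
      simp
    have h1 := h (MvPolynomial.aeval g Q) S ρ (natDegree_aeval_le Q g hg1 hQ) (by
      intro t ht ht1
      rw [hev]
      refine hS _ fun i => ?_
      have e1 : |(y' i - y i) / ρ * t| ≤ s := by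
        rw [abs_mul, abs_div, abs_of_pos h0, abs_of_nonneg ht]
        have : |y' i - y i| / ρ ≤ s := by
          rw [div_le_iff₀ h0]
          linarith [hy' i, mul_comm ρ s]
        calc |y' i - y i| / ρ * t ≤ s * 1 :=
              mul_le_mul this ht1 ht hs.le
          _ = s := mul_one s
      calc |y i + (y' i - y i) / ρ * t| ≤ |y i| + |(y' i - y i) / ρ * t| := abs_add_le _ _
        _ ≤ s + s := add_le_add (hy i) e1
        _ = 2 * s := by ring) hρ hρ1
    rw [hev, hev] at h1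
    have e2 : (fun i => y i + (y' i - y i) / ρ * ρ) = y' := by
      funext i
      rw [div_mul_cancel₀ _ h0.ne']
      ring
    have e3 : (fun i => y i + (y' i - y i) / ρ * 0) = y := by
      funext i
      ring
    rwa [e2, e3] at h1

end Poly

end Pool.KBX
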