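import Pool.Agent.H37.KBX.Stmts
import Pool.Agent.H84.KBOX.BlkA

/-!
# Regularity of leaves: statements with constants which do not depend on `δ`, and the rows of REG

The spread constant `δ` of the leaf may be exponentially small: it enters through `γ` only, with
`n! C₀ ^ n ≤ δ ^ n * 2 ^ γ`.
-/

set_option autoImplicit false

namespace Pool.KBX

open Finset Real MeasureTheory
open Pool.Agent.H49.Ent Pool.Agent.H32.Dense Pool.STK Pool.KAF Pool.KAL Pool.KS3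

/-- Row FRBU, (2.12): the skew grid, the constants are at most `exp (K (γ + 1))`. -/
def FRBUStmt : Prop :=
  ∀ (n : ℕ) (C₀ : ℝ), 1 ≤ C₀ → ∃ K : ℝ, 1 ≤ K ∧
    ∀ (γ : ℕ) (δ : ℝ), 0 < δ → 1 ≤ δ ^ n * 2 ^ γ → ∀ (b L : ℕ), K * (γ + 1) ≤ b → b ≤ L →
      ∃ (R : ℕ) (C : ℝ) (Iv : (Fin n → Fin n → ℤ) → Fin n → Fin n → ℝ), 1 ≤ R ∧ 1 ≤ C ∧
      (R : ℝ) ≤ Real.exp (K * (γ + 1)) ∧ C ≤ Real.exp (K * (γ + 1)) ∧
      (∀ E j, ∑ i, |Iv E j i| ≤ R) ∧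
      ∀ (Ω Λ Ξ W : Type) [Fintype Ω] (p : Ω → ℝ) (lam : Ω → Λ) (x : Ω → Ξ) (T : Ξ → ℕ)
        (pos : Ξ → Option (Fin n) → ℕ) (A B : Λ → Option (Fin n) → ℝ) (i₀ : Fin n)
        (f : Fin n → W → Ω) (𝒲 : Set W) (E : W → Fin n → Fin n → ℤ),
        Leaf n (2 ^ L) C₀ p lam x T pos A B → TC i₀ lam x T pos A B →
        (∀ w, E w = fr b fun j i => B (lam (f j w)) (some i)) →
        (∀ w ∈ 𝒲, ∀ j, x (f j w) = x (f i₀ w)) →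
        (∀ w ∈ 𝒲, δ ^ n ≤
          |Matrix.det (Matrix.of fun j i => B (lam (f j w)) (some i))|) →
        ∃ s : W → Fin n → Fin (2 * R * 2 ^ b),
          (∀ w ∈ 𝒲, ∀ w' ∈ 𝒲, E w = E w' → s w = s w' → ∀ i,
            |(bc L b pos (x (f i₀ w)) i : ℝ) - (bc L b pos (x (f i₀ w')) i : ℝ)| ≤ C) ∧
          (∀ w ∈ 𝒲, ∀ ξ : Ξ, bc L b pos ξ = bc L b pos (x (f i₀ w)) → ∀ j,
            |((s w j : ℕ) : ℝ) - 2 ^ b * (∑ i, Iv (E w) j i * ((pos ξ (some i) : ℝ) / 2 ^ L) +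
              R)| ≤ C) ∧
          (∀ w ∈ 𝒲, |2 ^ b * ((T (x (f i₀ w)) : ℝ) / 2 ^ L) -
            (∑ j, ((s w j : ℕ) : ℝ) - n * R * 2 ^ b)| ≤ C) ∧
          (∀ j, ∀ w ∈ 𝒲, ∀ w' ∈ 𝒲, E w = E w' → (∀ i, i ≠ j → s w i = s w' i) →
            ∀ ω ω', lam ω = lam (f j w) → lam ω' = lam (f j w') →
            T (x ω) / 2 ^ (L - b) = T (x ω') / 2 ^ (L - b) → ∀ i,
            |(bc L b pos (x ω) i : ℝ) - (bc L b pos (x ω') i : ℝ)| ≤ C)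

/-- Row LDAU: row LDA with the closeness constant `M` of the nominal line. -/
def LDAUStmt : Prop :=
  ∀ (n d : ℕ) (C₀ : ℝ), 1 ≤ C₀ → ∃ C : ℝ, 1 ≤ C ∧
    ∀ (Ω Λ Ξ W S : Type) [Fintype Ω] [Fintype W] (p : Ω → ℝ) (lam : Ω → Λ) (x : Ω → Ξ)
      (T : Ξ → ℕ) (pos : Ξ → Option (Fin n) → ℕ) (A B : Λ → Option (Fin n) → ℝ)
      (L κ γ b : ℕ) (δ ε e₁ e₃ K M : ℝ) (ψ : Ξ → ℝ) (P : Λ → Polynomial ℝ) (q : W → ℝ)
      (o : W → Ω) (G : W → S),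
      LF L κ γ C₀ δ ε e₁ e₃ p lam x T pos A B → b ≤ L → 1 ≤ b →
      PL L d b C₀ p lam x T ψ P → IsLaw q → (∀ ω, law q o ω ≤ 2 * p ω) →
      1 ≤ K → K ≤ 2 ^ b → 1 ≤ M →
      (∀ w w', 0 < q w → 0 < q w' → G w = G w' → ∀ ω ω', 0 < p ω → 0 < p ω' →
        lam ω = lam (o w) → lam ω' = lam (o w') →
        T (x ω) / 2 ^ (L - b) = T (x ω') / 2 ^ (L - b) →
        ∀ i, |(bc L b pos (x ω) i : ℝ) - (bc L b pos (x ω') i : ℝ)| ≤ M) →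
      CH q (fun w => rc d b K (P (lam (o w)))) G ≤ C * (e₁ + e₃ + W0 L κ γ ε + Real.log M)

/-- **Row BLKU: the block lemma**, the constants do not depend on `δ`. -/
def BLKUStmt : Prop :=
  ∀ (n d : ℕ) (C₀ : ℝ), 1 ≤ C₀ → ∃ (C c : ℝ), 1 ≤ C ∧ 0 < c ∧
    ∀ (Ω Λ Ξ W : Type) [Fintype Ω] [Fintype W] (p : Ω → ℝ) (lam : Ω → Λ) (x : Ω → Ξ)
      (T : Ξ → ℕ) (pos : Ξ → Option (Fin n) → ℕ) (A B : Λ → Option (Fin n) → ℝ) (i₀ : Fin n)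
      (L κ γ b N : ℕ) (δ ε e₁ e₃ : ℝ) (ψ : Ξ → ℝ) (P : Λ → Polynomial ℝ) (q : W → ℝ)
      (f : Fin n → W → Ω),
      LF L κ γ C₀ δ ε e₁ e₃ p lam x T pos A B → TC i₀ lam x T pos A B → b ≤ L →
      PL L d b C₀ p lam x T ψ P → IsLaw q → (∀ j, Marg q p (f j)) →
      (∀ w, 0 < q w → ∀ j, x (f j w) = x (f i₀ w)) →
      Pr q {w | |Matrix.det (Matrix.of fun j i => B (lam (f j w)) (some i))| < δ ^ n} ≤ c →
      H q (fun w => fr b fun j i => B (lam (f j w)) (some i)) -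
        CH q (fun w => fr b fun j i => B (lam (f j w)) (some i))
          (fun w => bc L b pos (x (f i₀ w))) ≤ c * b →
      (N + 1) * (e₁ + 1) + e₃ + W0 L κ γ ε ≤ c * b →
      ∃ Q : MvPolynomial (Fin n) ℝ, Q.totalDegree ≤ n * d ∧
        (∀ y : Fin n → ℝ, (∀ i, |y i| ≤ 2) → |MvPolynomial.eval y Q| ≤ (2 : ℝ) ^ ((b : ℝ) / 8)) ∧
        Real.exp (-(C * ((1 - 1 / n) ^ N * L + e₁ + e₃ + W0 L κ γ ε))) ≤
          Pr p {ω | |ψ (x ω) - MvPolynomial.eval (fun i => rp (2 ^ L) pos (x ω) (some i)) Q| ≤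
            (2 : ℝ) ^ (-(3 * (b : ℝ) / 4))}

/-! ### The rows of REG -/

/-- Row STBP: stabilisation with events which are sets of points. -/
def STBPStmt : Prop :=
  ∀ (Ω Ξ : Type) [Fintype Ω] (p : Ω → ℝ) (x : Ω → Ξ) (M : ℕ) (Q : Fin M → Set Ξ → Prop)
    (κ : ℕ → ℝ), IsLaw p → (∀ i S S', S' ⊆ S → Q i S → Q i S') →
    ∃ m ≤ M, ∃ S : Set Ξ, Real.exp (-(∑ i ∈ range m, κ i)) ≤ Pr p {ω | x ω ∈ S} ∧
      ∀ i, Q i S ∨ ∀ S' ⊆ S,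
        Real.exp (-κ m) * Pr p {ω | x ω ∈ S} ≤ Pr p {ω | x ω ∈ S'} → ¬ Q i S'

/-- Row SLI: leaves are inherited by sets of points. -/
def SLIStmt : Prop :=
  ∀ (n : ℕ) (Ω Λ Ξ : Type) [Fintype Ω] (p : Ω → ℝ) (lam : Ω → Λ) (x : Ω → Ξ) (T : Ξ → ℕ)
    (pos : Ξ → Option (Fin n) → ℕ) (A B : Λ → Option (Fin n) → ℝ) (μ : Λ → ℝ) (L : ℕ)
    (C₀ δ ε e₁ e₃ a : ℝ) (S : Set Ξ), SL L C₀ δ ε e₁ e₃ p lam x T pos A B μ → 0 ≤ a →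
    Real.exp (-a) ≤ Pr p {ω | x ω ∈ S} →
    SL L C₀ δ ε (e₁ + a) e₃ (rs p {ω | x ω ∈ S}) lam x T pos A B μ

/-- The tuples of lines in the cell `c`: what row BLKU needs. -/
def Tc {n : ℕ} {Ω Λ Ξ : Type} [Fintype Ω] (L a b : ℕ) (δ η θ : ℝ) (p : Ω → ℝ) (lam : Ω → Λ)
    (x : Ω → Ξ) (pos : Ξ → Option (Fin n) → ℕ) (B : Λ → Option (Fin n) → ℝ) (i₀ : Fin n)
    (c : Option (Fin n) → ℕ) : Prop :=
  ∃ (W : Type) (_ : Fintype W) (q : W → ℝ) (f : Fin n → W → Oc L a p x pos c), IsLaw q ∧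
    (∀ j, Marg q (fun ω : Oc L a p x pos c => pc L a p x pos c ω.1) (f j)) ∧
    (∀ w, 0 < q w → ∀ j, x (f j w).1 = x (f i₀ w).1) ∧
    Pr q {w | |Matrix.det (Matrix.of fun j i => B (lam (f j w).1) (some i))| < δ ^ n} ≤ η ∧
    H q (fun w => fr b fun j i => B (lam (f j w).1) (some i)) -
      CH q (fun w => fr b fun j i => B (lam (f j w).1) (some i))
        (fun w => bc (L - a) b (fun ξ i => pos ξ i % 2 ^ (L - a)) (x (f i₀ w).1)) ≤ θ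

/-- Row TUP: the tuples of lines in most cells. The law in the cell `c` is the law `q` conditioned
on the cell of the point; Markov, the averages are `Pr q {det < δ ^ n}` and at most `JJ`. -/
def TUPStmt : Prop :=
  ∀ (n : ℕ) (Ω Λ Ξ W : Type) [Fintype Ω] [Fintype W] (p : Ω → ℝ) (lam : Ω → Λ) (x : Ω → Ξ)
    (pos : Ξ → Option (Fin n) → ℕ) (B : Λ → Option (Fin n) → ℝ) (i₀ : Fin n) (q : W → ℝ)
    (f : Fin n → W → Ω) (L a b : ℕ) (δ η θ : ℝ), IsLaw p → IsLaw q → (∀ j, Marg q p (f j)) →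
    (∀ w, 0 < q w → ∀ j, x (f j w) = x (f i₀ w)) → a + b ≤ L → 0 < η → 0 < θ →
    8 * Pr q {w | |Matrix.det (Matrix.of fun j i => B (lam (f j w)) (some i))| < δ ^ n} ≤ η →
    8 * JJ L a b lam x pos B i₀ q f ≤ θ →
    Pr p {ω | ¬ Tc L a b δ η θ p lam x pos B i₀ (cel (2 ^ (L - a)) pos (x ω))} ≤ 1 / 4

/-- The first derivatives of `G` are at most `S` on `|y_i - a_i| ≤ 2 r`. -/
def D1 {n : ℕ} (G : MvPolynomial (Fin n) ℝ) (a : Fin n → ℝ) (r S : ℝ) : Prop :=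
  ∀ y : Fin n → ℝ, (∀ i, |y i - a i| ≤ 2 * r) → ∀ i,
    |MvPolynomial.eval y (MvPolynomial.pderiv i G)| ≤ S

/-- Row LPC: in a cell, the rescaled difference of the leaf and the graph of `G` is along every
line a polynomial. -/
def LPCStmt : Prop :=
  ∀ (n : ℕ) (C₀ : ℝ), 1 ≤ C₀ → ∃ c₁ : ℕ,
    ∀ (Ω Λ Ξ : Type) [Fintype Ω] (p : Ω → ℝ) (lam : Ω → Λ) (x : Ω → Ξ) (T : Ξ → ℕ)
      (pos : Ξ → Option (Fin n) → ℕ) (A B : Λ → Option (Fin n) → ℝ) (L a b d k s : ℕ)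
      (G : MvPolynomial (Fin n) ℝ) (c : Option (Fin n) → ℕ),
      Leaf n (2 ^ L) C₀ p lam x T pos A B → 1 ≤ d → G.totalDegree ≤ d →
      D1 G (crn (2 ^ L) (2 ^ (L - a)) c) (1 / 2 ^ a) (2 ^ s) → k + b + s + c₁ ≤ L →
      a + c₁ ≤ L →
      (∀ ω, 0 < p ω → cel (2 ^ (L - a)) pos (x ω) = c → |rp (2 ^ L) pos (x ω) none -
        MvPolynomial.eval (fun i => rp (2 ^ L) pos (x ω) (some i)) G| ≤ 1 / 2 ^ k) →
      ∃ P : Λ × ℕ → Polynomial ℝ,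
        PL (L - a) d b (3 * C₀) (fun ω : Oc L a p x pos c => pc L a p x pos c ω.1)
          (lamc L a p lam x T pos c) (fun ω => x ω.1) (fun ξ => T ξ % 2 ^ (L - a))
          (fun ξ => 2 ^ k * (rp (2 ^ L) pos ξ none -
            MvPolynomial.eval (fun i => rp (2 ^ L) pos ξ (some i)) G)) P

/-- Row TSC: the Taylor step. The block has `8 e` digits with `e = (d + 1) h`, the polynomial `G` of
the cell `c` of side `2 ^ (-a)` is corrected with the Taylor polynomial of `Q` at the corner of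
the cell `c'` of side `2 ^ (-(a + 4 h))`, and `2 e` digits are gained. -/
def TSCStmt : Prop :=
  ∀ n d : ℕ, 3 ≤ d → ∃ c₂ : ℕ, ∀ (L a k h e : ℕ) (c c' : Option (Fin n) → ℕ)
    (G Q : MvPolynomial (Fin n) ℝ) (S₁ S₂ : ℝ), c₂ ≤ h → e = (d + 1) * h →
    G.totalDegree ≤ d → Q.totalDegree ≤ n * d →
    (∀ y : Fin n → ℝ, (∀ i, |y i| ≤ 2) → |MvPolynomial.eval y Q| ≤ 2 ^ e) →
    a + 4 * h ≤ L → (∀ i, c' i / 2 ^ (4 * h) = c i) →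
    D1 G (crn (2 ^ L) (2 ^ (L - a)) c) (1 / 2 ^ a) S₁ →
    D2 G (crn (2 ^ L) (2 ^ (L - a)) c) (1 / 2 ^ a) S₂ →
    ∃ G' : MvPolynomial (Fin n) ℝ, G'.totalDegree ≤ d ∧
      D1 G' (crn (2 ^ L) (2 ^ (L - (a + 4 * h))) c') (1 / 2 ^ (a + 4 * h))
        (S₁ + 2 ^ (a + e + c₂) / 2 ^ k) ∧
      D2 G' (crn (2 ^ L) (2 ^ (L - (a + 4 * h))) c') (1 / 2 ^ (a + 4 * h))
        (S₂ + 2 ^ (2 * a + e + c₂) / 2 ^ k) ∧
      ∀ (y : Fin n → ℝ) (N : ℝ),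
        (∀ i, |y i - crn (2 ^ L) (2 ^ (L - (a + 4 * h))) c' i| ≤ 1 / 2 ^ (a + 4 * h)) →
        |2 ^ k * (N - MvPolynomial.eval y G) - MvPolynomial.eval
          (fun i => 2 ^ a * (y i - crn (2 ^ L) (2 ^ (L - a)) c i)) Q| ≤ 1 / 2 ^ (6 * e) →
        |N - MvPolynomial.eval y G'| ≤ 1 / 2 ^ (k + 2 * e)

/-- **Row REG: regularity of a leaf.** After removing points, the leaf is up to `1 / 2 ^ L'` the
graph of polynomials of degree `d` on the cells of side `2 ^ (-u)`. -/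
def REGStmt : Prop :=
  ∀ (n d : ℕ) (C₀ υ σ : ℝ), 3 ≤ d → 1 ≤ C₀ → 0 < υ → 4 ≤ (d + 1) * υ → 0 < σ → σ ≤ 1 / 2 →
    ∃ (c : ℝ) (L₀ : ℕ), 0 < c ∧
    ∀ (Ω Λ Ξ : Type) [Fintype Ω] (p : Ω → ℝ) (lam : Ω → Λ) (x : Ω → Ξ) (T : Ξ → ℕ)
      (pos : Ξ → Option (Fin n) → ℕ) (A B : Λ → Option (Fin n) → ℝ) (μ : Λ → ℝ) (i₀ : Fin n)
      (L κ γ u : ℕ) (δ ε e₁ e₃ : ℝ),
      SL L C₀ δ ε e₁ e₃ p lam x T pos A B μ → TC i₀ lam x T pos A B → 1 ≤ κ → L₀ ≤ L →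
      n.factorial * (3 * C₀) ^ n ≤ δ ^ n * 2 ^ γ → e₁ + e₃ + W0 L κ γ ε ≤ c * L →
      υ * L ≤ u → 2 * u ≤ L →
      ∃ (S : Set Ξ) (L' s : ℕ) (G : (Option (Fin n) → ℕ) → MvPolynomial (Fin n) ℝ),
        Real.exp (-(σ * L)) ≤ Pr p {ω | x ω ∈ S} ∧ L' ≤ L ∧ (1 - σ) * L ≤ L' ∧ (s : ℝ) ≤ σ * L ∧
        GG L L' u d C₀ (2 ^ s) (rs p {ω | x ω ∈ S}) x pos G ∧
        ∀ ω, 0 < rs p {ω | x ω ∈ S} ω →
          D1 (Gc L u pos G (x ω)) (cc L u pos (x ω)) (1 / 2 ^ u) (2 ^ s)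

end Pool.KBX
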