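import Pool.Agent.H84.KBOX.BlkC

/-!
# The block lemma: assembly
-/

set_option autoImplicit false

namespace Pool.KBX

open Finset Real MeasureTheory
open Pool.Agent.H49.Ent Pool.Agent.H32.Dense Pool.STK Pool.KAF Pool.KAL Pool.KS3

/-- Restriction of a polynomial to a line. -/
noncomputable def rl {n : ℕ} (Q : MvPolynomial (Fin n) ℝ) (a v : Fin n → ℝ) : Polynomial ℝ :=
  MvPolynomial.aeval (fun i => Polynomial.C (a i) + Polynomial.C (v i) * Polynomial.X) Q

theorem rl_deg {n : ℕ} (Q : MvPolynomial (Fin n) ℝ) (a v : Fin n → ℝ) {D : ℕ}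
    (h : Q.totalDegree ≤ D) : (rl Q a v).natDegree ≤ D := by
  refine natDegree_aeval_le Q _ (fun i => ?_) h
  refine (Polynomial.natDegree_add_le _ _).trans (max_le (by simp) ?_)
  exact (Polynomial.natDegree_C_mul_le _ _).trans Polynomial.natDegree_X_le

theorem rl_eval {n : ℕ} (Q : MvPolynomial (Fin n) ℝ) (a v : Fin n → ℝ) (t : ℝ) :
    (rl Q a v).eval t = MvPolynomial.eval (fun i => a i + t * v i) Q := by
  unfold rl
  rw [eval_aeval_poly]
  congr 2
  funext i
  simp
  ring

/-- The information of the label about the base cell and the digits of `ψ`. -/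
theorem info_le {W 𝓔 𝓡 U V : Type} [Fintype W] [Fintype 𝓡] {q : W → ℝ} (hq : IsLaw q)
    (E : W → 𝓔) (r : W → 𝓡) (i : W → ℕ) (u : W → U) (v : W → V) (Z : ℝ)
    (hr : Real.log (Fintype.card 𝓡 + 1) ≤ Z) (hi : ∀ w, (i w : ℝ) ≤ Real.exp Z) (hZ : 0 ≤ Z) :
    H q (fun w => (E w, (r w, i w))) - CH q (fun w => (E w, (r w, i w))) (fun w => (u w, v w)) ≤
      (H q E - CH q E u) + CH q v u + (2 * Z + 1) := by
  classical
  have hq0 := hq.nonneg
  have h1 : H q (fun w => (E w, (r w, i w))) ≤ H q E + (2 * Z + 1) := by
    have g1 : H q (fun w => (E w, (r w, i w))) = H q E + CH q (fun w => (r w, i w)) E := by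
      have : H q (fun w => (E w, (r w, i w))) = H q (fun w => ((r w, i w), E w)) := by
        refine H_congr hq0 ?_ ?_ <;>
        · intro w w' _ _ e
          simp only [Prod.mk.injEq] at e ⊢
          tauto
      unfold CH
      rw [this]
      ring
    set M : ℕ := ⌊Real.exp Z⌋₊ with hM
    have g2 := CH_le_card hq0 hq.sum_one (fun w => (r w, i w)) E
      (fun _ => (Finset.univ : Finset 𝓡) ×ˢ Finset.range (M + 1)) (by
        intro w _
        rw [Finset.mem_product]
        refine ⟨Finset.mem_univ _, Finset.mem_range.2 ?_⟩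
        have := Nat.le_floor (hi w)
        omega)
    rw [Ex_const hq.sum_one, Finset.card_product, Finset.card_univ, Finset.card_range] at g2
    have g3 : Real.log ((Fintype.card 𝓡 * (M + 1) : ℕ) : ℝ) ≤ 2 * Z + 1 := by
      rcases Nat.eq_zero_or_pos (Fintype.card 𝓡) with h0 | h0
      · rw [h0]
        simp
        linarith only [hZ]
      · have h0' : (0 : ℝ) < Fintype.card 𝓡 := by exact_mod_cast h0
        push_cast
        rw [Real.log_mul h0'.ne' (by positivity)]
        have k1 : Real.log (Fintype.card 𝓡) ≤ Z :=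
          (Real.log_le_log h0' (by linarith only)).trans hr
        have k2 : (M : ℝ) + 1 ≤ 2 * Real.exp Z := by
          have := Nat.floor_le (Real.exp_pos Z).le
          have := Real.one_le_exp hZ
          linarith
        have k3 := Real.log_le_log (show (0 : ℝ) < (M : ℝ) + 1 by positivity) k2
        rw [Real.log_mul (by norm_num) (Real.exp_pos _).ne', Real.log_exp] at k3
        have k4 := Real.log_two_lt_d9
        linarith only [k1, k3, k4]
    linarith
  have h2 : CH q E (fun w => (u w, v w)) ≤
      CH q (fun w => (E w, (r w, i w))) (fun w => (u w, v w)) :=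
    CH_mono_left hq0 fun _ _ _ _ h => (Prod.ext_iff.mp (Prod.ext_iff.mp h).1).1
  have h3 : CH q E u ≤ CH q v u + CH q E (fun w => (v w, u w)) := CH_le_add hq0 E v u
  have h4 : CH q E (fun w => (v w, u w)) = CH q E (fun w => (u w, v w)) := by
    refine CH_congr hq0 (fun _ _ _ _ h => (Prod.ext_iff.mp h).1)
      (fun _ _ _ _ h => (Prod.ext_iff.mp h).1) ?_ ?_ <;>
    · intro w w' _ _ e
      simp only [Prod.mk.injEq] at e ⊢
      tauto
  linarith

theorem blk_of (hLAB : LABStmt) (hCHR : CHRStmt) (hCON : CONStmt) : BLKStmt := by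
  classical
  intro n d C₀ δ hC₀ hδ
  obtain ⟨κ', c₁, b₁, hκ', hc₁, hlab⟩ := hLAB n d C₀ δ (1 / 1000) hC₀ hδ (by norm_num)
    (by norm_num)
  obtain ⟨CR, hCR, hchr⟩ := hCHR (n * d + 2)
  obtain ⟨CN, hCN, hcon⟩ := hCON n d C₀ hC₀
  obtain ⟨CM, hCM, hmix⟩ := mix_thm n C₀ hC₀
  obtain ⟨CP, hCP, hlip⟩ := lip_le n (n * d)
  have hn0 : (0 : ℝ) ≤ n := Nat.cast_nonneg n
  set Kη : ℝ := 1 + C₀ + CP * C₀ with hKη
  have hKη1 : 1 ≤ Kη := by
    have : 0 ≤ CP * C₀ := by positivity
    linarith
  set κI : ℝ := 2 + 2 * κ' + 3 * CN with hκI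
  have hκI0 : 0 ≤ κI := by positivity
  set D : ℝ := 1 / c₁ + 20 * (Kη + κ' + CR * (κI + 1)) with hD
  have hD0 : 0 < D := by positivity
  refine ⟨2 * n + 4 + 2 * CM + CR, 1 / D, b₁, by linarith only [hCR, hCM], by positivity, ?_⟩
  intro Ω Λ Ξ W _ _ p lam x T pos A B i₀ L κ γ b N ε e₁ e₃ ψ P q f hLF hTC hb hbL hPL hq hmarg
    hx hdet hinf hsm
  have hp := hLF.leaf.isLaw
  have hp0 := hp.nonneg
  have hq0 := hq.nonneg
  have he₁0 := hLF.e₁_nonneg
  have he₃0 := hLF.e₃_nonneg
  have hb0 : (0 : ℝ) ≤ b := Nat.cast_nonneg b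
  have hN0 : (0 : ℝ) ≤ N := Nat.cast_nonneg N
  have hL0 : (0 : ℝ) ≤ L := Nat.cast_nonneg L
  have hn1 : 1 ≤ n := by
    have := i₀.2
    omega
  exact by
   have hn1r : (1 : ℝ) ≤ n := by exact_mod_cast hn1
   set S : ℝ := 1 / D * b with hS
   have hW1 : 1 ≤ W0 L κ γ ε := by
     unfold W0
     have h1 : 0 ≤ (L : ℝ) / κ := by positivity
     have h2 : 0 ≤ ε * L := mul_nonneg hLF.ε_nonneg hL0
     have h3 : (0 : ℝ) ≤ γ := Nat.cast_nonneg γ
     have h4 : (0 : ℝ) ≤ κ := Nat.cast_nonneg κ
     linarith only [h1, h2]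
   have hNe : 0 ≤ (N : ℝ) * (e₁ + 1) := by positivity
   have hsm' : (N : ℝ) * (e₁ + 1) + (e₁ + 1) + e₃ + W0 L κ γ ε ≤ S := by
     have : ((N : ℝ) + 1) * (e₁ + 1) = N * (e₁ + 1) + (e₁ + 1) := by ring
     linarith only [hsm]
   have hS1 : 1 ≤ S := by linarith only [he₁0, he₃0, hsm, hW1, hNe]
   have hS0 : 0 < S := by linarith only [he₁0, he₃0, hsm, hW1, hNe]
   have hDS : D * S = b := by
     rw [hS]
     field_simp
   have hDS1 : 1 / c₁ * S + 20 * ((Kη + κ' + CR * (κI + 1)) * S) = b := by
     rw [← hDS, hD]
     ring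
   have hc₁S : 0 ≤ 1 / c₁ * S := by positivity
   have hKS : (Kη + κ' + CR * (κI + 1)) * S ≤ b / 20 := by linarith only [hDS, hc₁S]
   have hScb : S ≤ c₁ * b := by
     have h1 : 1 / c₁ * S ≤ b := by
       have : 0 ≤ (Kη + κ' + CR * (κI + 1)) * S := by positivity
       linarith only [hDS, this]
     have h2 : S = c₁ * (1 / c₁ * S) := by field_simp
     rw [h2]
     exact mul_le_mul_of_nonneg_left h1 hc₁.le
   exact by
    have hp1 : 0 ≤ Kη * S := by positivity
    have hp2 : 0 ≤ κ' * S := by positivity
    have hp3 : 0 ≤ CR * (κI + 1) * S := by positivity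
    have hsplit : (Kη + κ' + CR * (κI + 1)) * S = Kη * S + κ' * S + CR * (κI + 1) * S := by ring
    have hb20 : (20 : ℝ) ≤ b := by
      have : 1 ≤ Kη * S := one_le_mul_of_one_le_of_one_le hKη1 hS1
      linarith only [hDS, hc₁S, hp2, hp3, this]
    have h2b : (0 : ℝ) < 2 ^ b := by positivity
    have hl2 : (0.69 : ℝ) ≤ Real.log 2 := by
      have := Real.log_two_gt_d9
      linarith only [this]
    have hl2' : Real.log 2 ≤ 0.7 := by
      have := Real.log_two_lt_d9
      linarith only [this]
    have hlogb : Real.log ((2 : ℝ) ^ b) = b * Real.log 2 := by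
      rw [Real.log_pow]
    have hbl : 0.69 * (b : ℝ) ≤ b * Real.log 2 := by
      have := mul_le_mul_of_nonneg_left hl2 hb0
      linarith only [this]
    have hbl' : (b : ℝ) * Real.log 2 ≤ 0.7 * b := by
      have := mul_le_mul_of_nonneg_left hl2' hb0
      linarith only [this]
    set E : W → Fin n → Fin n → ℤ := fun w => fr b fun j i => B (lam (f j w)) (some i) with hE
    obtain ⟨𝓡, _, r, i, Q, 𝒜, hcard, hi, h𝒜, hQd, hQb, hQ𝒜⟩ := hlab Ω Λ Ξ W p lam x T pos A B i₀ L κ
      γ b ε e₁ e₃ S ψ P q f hLF hTC hb hbL hPL hq hmarg hx (by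
        have := mul_le_mul_of_nonneg_right hdet hb0
        exact this) (by exact hinf) hS1 hScb (by linarith only [he₃0, hsm, hW1, hNe]) (by linarith only [he₁0, hsm, hW1, hNe]) (by linarith only [he₁0, he₃0, hsm, hNe])
    have hZ : 0 ≤ κ' * S := hp2
    set e : ℝ := Real.exp (κ' * S) with he
    have he1 : 1 ≤ e := Real.one_le_exp hZ
    exact by
     set η : ℝ := Kη * e / 2 ^ b with hη
     have hη0 : 0 < η := by positivity
     have hKe : Kη * e ≤ Real.exp (b / 20) := by
       have h1 : Kη ≤ Real.exp (Kη * S) := by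
         have g1 : Kη ≤ Kη * S := le_mul_of_one_le_right (by linarith only [hKη1]) hS1
         linarith only [g1, Real.add_one_le_exp (Kη * S)]
       calc Kη * e ≤ Real.exp (Kη * S) * Real.exp (κ' * S) :=
             mul_le_mul_of_nonneg_right h1 (Real.exp_pos _).le
         _ = Real.exp (Kη * S + κ' * S) := (Real.exp_add _ _).symm
         _ ≤ _ := Real.exp_le_exp.2 (by linarith only [hDS, hc₁S, hp3])
     have hexpb : Real.exp (b / 20) ≤ 2 ^ b := by
       rw [← Real.exp_log h2b, hlogb]
       exact Real.exp_le_exp.2 (by linarith only [hb20, hbl])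
     have hη1 : η ≤ 1 := by
       rw [hη, div_le_one h2b]
       exact hKe.trans hexpb
     have hlogη : Real.log η = Real.log Kη + κ' * S - b * Real.log 2 := by
       rw [hη, Real.log_div (by positivity) h2b.ne', Real.log_mul (by linarith only [hKη1]) (by linarith only [he1]), he,
         Real.log_exp, hlogb]
     have hlogK : 0 ≤ Real.log Kη := Real.log_nonneg hKη1
     have hlogK' : Real.log Kη ≤ Kη * S := by
       have h1 := Real.log_le_sub_one_of_pos (show 0 < Kη by linarith only [hKη1])
       have g1 : Kη ≤ Kη * S := le_mul_of_one_le_right (by linarith only [hKη1]) hS1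
       linarith only [h1, g1]
     have hcast : (((2 ^ L : ℕ) : ℕ) : ℝ) = (2 : ℝ) ^ L := by push_cast; rfl
     -- the functions
     set F : (Fin n → Fin n → ℤ) × (𝓡 × ℕ) → Ξ → ℝ := fun a ξ => ψ ξ -
       MvPolynomial.eval (fun j => (pos ξ (some j) : ℝ) / 2 ^ L) (Q a.1 a.2.1 a.2.2) with hF
     set PF : (Fin n → Fin n → ℤ) × (𝓡 × ℕ) → Λ → Polynomial ℝ := fun a l => P l -
       rl (Q a.1 a.2.1 a.2.2) (fun j => A l (some j)) (fun j => B l (some j)) with hPF
     exact by
      set lb : W → (Fin n → Fin n → ℤ) × (𝓡 × ℕ) := fun w => (E w, (r w, i w)) with hlb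
      set g : W → ℝ := fun w => if w ∈ 𝒜 then Real.log η else Real.log (1 + e) with hg
      set e₄ : ℝ := (1 - 1 / n) ^ N * (n * (L * Real.log 2) + e₃) +
        (n * e₁ + e₃ + CM * W0 L κ γ ε) with he₄
      have hr0 : 0 ≤ (1 - 1 / (n : ℝ)) ^ N ∧ (1 - 1 / (n : ℝ)) ^ N ≤ 1 := by
        have h1 : 0 ≤ 1 - 1 / (n : ℝ) := by
          rw [sub_nonneg, div_le_one (by linarith only [hn1r])]
          exact hn1r
        have h2 : 1 - 1 / (n : ℝ) ≤ 1 := by
          have : 0 ≤ 1 / (n : ℝ) := by positivity
          linarith only [this]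
        exact ⟨pow_nonneg h1 N, pow_le_one₀ h1 h2⟩
      have hlog20 : 0 < Real.log 2 := by linarith only [hl2]
      have he₄0 : 0 ≤ e₄ := by
        have h1 := hr0.1
        have h2 : 0 ≤ CM * W0 L κ γ ε := mul_nonneg hCM (by linarith only [hW1])
        have h3 : 0 ≤ (1 - 1 / (n : ℝ)) ^ N * (n * (L * Real.log 2) + e₃) :=
          mul_nonneg h1 (by positivity)
        have h4 : 0 ≤ (n : ℝ) * e₁ := by positivity
        linarith only [he₃0, h2, h3, h4]
      have hFb : ∀ a : (Fin n → Fin n → ℤ) × (𝓡 × ℕ), ∀ ω, 0 < p ω → |F a (x ω)| ≤ 1 + e := by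
        intro a ω hω
        have h1 := hPL.bound ω hω
        have h2 := hQb a.1 a.2.1 a.2.2 (fun j => (pos (x ω) (some j) : ℝ) / 2 ^ L) (by
          intro j
          have g1 := hLF.leaf.pos_lt ω (some j)
          have g2 : (pos (x ω) (some j) : ℝ) ≤ 2 ^ L := by exact_mod_cast g1.le
          rw [abs_of_nonneg (by positivity)]
          have : (pos (x ω) (some j) : ℝ) / 2 ^ L ≤ 1 := by
            rw [div_le_one (by positivity)]
            exact g2
          linarith only [this])
        simp only [hF]
        exact (abs_sub _ _).trans (add_le_add h1 h2)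
      exact by
       have hbL2 : (2 : ℝ) ^ b ≤ 2 ^ L := pow_le_pow_right₀ (by norm_num) hbL
       have h2L : (0 : ℝ) < 2 ^ L := by positivity
       have hPFd : ∀ w l, (PF (lb w) l).natDegree ≤ n * d + 2 := by
         intro w l
         simp only [hPF]
         refine (Polynomial.natDegree_sub_le _ _).trans (max_le ((hPL.deg l).trans ?_)
           ((rl_deg _ _ _ (hQd _ _ _)).trans (by omega)))
         have := Nat.le_mul_of_pos_left d hn1
         omega
       have hlog1e : Real.log (1 + e) ≤ 1 + κ' * S := by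
         have h1 : 1 + e ≤ 2 * e := by linarith only [he1]
         have h2 := Real.log_le_log (show 0 < 1 + e by linarith only [he1]) h1
         rw [Real.log_mul (by norm_num) (by linarith only [he1]), he, Real.log_exp] at h2
         linarith only [hl2', h2]
       obtain ⟨w, -, hqw, hpr⟩ := hchr Ω Λ Ξ W ((Fin n → Fin n → ℤ) × (𝓡 × ℕ)) ((Fin n → ℕ) × ℤ) p lam x
         T (2 ^ L) N q (fun ξ => (bc L b pos ξ, dg b ψ ξ))
         (fun w => (bc L b pos (x (f i₀ w)), dg b ψ (x (f i₀ w)))) lb F PF g η e₁ e₄ Set.univ hp hq (by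
           have : 1 ≤ L := by
             have : 1 ≤ b := by
               have : (1 : ℝ) ≤ b := by linarith only [hb20]
               exact_mod_cast this
             omega
           calc 2 = 2 ^ 1 := by norm_num
             _ ≤ 2 ^ L := Nat.pow_le_pow_right (by norm_num) this) hLF.leaf.T_lt
         (fun z => (hmarg i₀).law (fun ω => (bc L b pos (x ω), dg b ψ (x ω))) z) hη0 hη1 hPFd (by
           -- the line polynomials
           intro w hw ω hω
           rw [hcast]
           simp only [hPF, hF]
           rw [Polynomial.eval_sub, rl_eval]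
           set Q₀ := Q (lb w).1 (lb w).2.1 (lb w).2.2 with hQ₀
           set y : Fin n → ℝ := fun j => (pos (x ω) (some j) : ℝ) / 2 ^ L with hy
           set y' : Fin n → ℝ := fun j => A (lam ω) (some j) +
             (T (x ω) : ℝ) / 2 ^ L * B (lam ω) (some j) with hy'
           have h1 := hPL.line ω hω
           have h3 := hlip Q₀ e (C₀ / 2 ^ L) 1 y y' (hQd _ _ _) one_pos (by
             intro z hz
             exact hQb _ _ _ z fun j => (hz j).trans (by norm_num)) (by positivity) (by
             rw [div_le_one h2L]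
             have g1 : C₀ ≤ Kη := by
               have : 0 ≤ CP * C₀ := by positivity
               linarith only [this]
             have g2 : Kη ≤ 2 ^ b := by
               have k1 : Kη ≤ Kη * e := le_mul_of_one_le_right (by linarith only [hKη1]) he1
               exact k1.trans (hKe.trans hexpb)
             linarith only [hbL2, g1, g2]) (by
             intro j
             have g1 := hLF.leaf.pos_lt ω (some j)
             have g2 : (pos (x ω) (some j) : ℝ) ≤ 2 ^ L := by exact_mod_cast g1.le
             simp only [hy]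
             rw [abs_of_nonneg (by positivity), div_le_one h2L]
             exact g2) (by
             intro j
             have g1 := hLF.leaf.near ω (some j)
             rw [hcast] at g1
             rw [mul_one, abs_sub_comm]
             exact g1)
           have h4 : ψ (x ω) - MvPolynomial.eval y Q₀ - ((P (lam ω)).eval ((T (x ω) : ℝ) / 2 ^ L) -
               MvPolynomial.eval y' Q₀) = (ψ (x ω) - (P (lam ω)).eval ((T (x ω) : ℝ) / 2 ^ L)) +
               (MvPolynomial.eval y' Q₀ - MvPolynomial.eval y Q₀) := by ring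
           rw [h4]
           refine (abs_add_le _ _).trans ((add_le_add h1 h3).trans ?_)
           have h5 : CP * (C₀ / 2 ^ L * e) ≤ CP * C₀ * e / 2 ^ b := by
             have k1 : C₀ / 2 ^ L ≤ C₀ / 2 ^ b := div_le_div_of_nonneg_left (by linarith only [hC₀]) h2b hbL2
             have k2 := mul_le_mul_of_nonneg_left (mul_le_mul_of_nonneg_right k1 (by linarith only [he1] : 0 ≤ e))
               hCP
             refine k2.trans (le_of_eq ?_)
             ring
           have h6 : C₀ / 2 ^ b ≤ C₀ * e / 2 ^ b :=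
             div_le_div_of_nonneg_right (le_mul_of_one_le_right (by linarith only [hC₀]) he1) h2b.le
           have h7 : η = e / 2 ^ b + C₀ * e / 2 ^ b + CP * C₀ * e / 2 ^ b := by
             rw [hη, hKη]
             ring
           have h8 : 0 ≤ e / 2 ^ b := by positivity
           linarith only [h5, h6, h7, h8]) (by
           intro w hw ω hω
           refine (hFb (lb w) ω hω).trans ?_
           rw [hcast]
           have h1 : ((2 : ℝ) ^ L) ^ 2 ≤ ((2 : ℝ) ^ L) ^ (n * d + 2) :=
             pow_le_pow_right₀ (one_le_pow₀ (by norm_num)) (by omega)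
           have h2 : (2 : ℝ) ^ b * 2 ^ b ≤ ((2 : ℝ) ^ L) ^ 2 := by
             rw [sq]
             exact mul_le_mul hbL2 hbL2 h2b.le h2L.le
           have h3 : (2 : ℝ) ^ b * (Kη * e) ≤ ((2 : ℝ) ^ L) ^ (n * d + 2) * η := by
             have k1 : (2 : ℝ) ^ b * (Kη * e) = (2 ^ b * 2 ^ b) * η := by
               rw [hη]
               field_simp
             rw [k1]
             exact mul_le_mul_of_nonneg_right (h2.trans h1) hη0.le
           refine le_trans ?_ h3
           have h4 : (2 : ℝ) ≤ 2 ^ b := by linarith only [hb20, hexpb, hexpb, Real.add_one_le_exp ((b : ℝ) / 20)]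
           have h5 : e ≤ Kη * e := le_mul_of_one_le_left (by linarith only [he1]) hKη1
           have h6 : 2 * (Kη * e) ≤ 2 ^ b * (Kη * e) := mul_le_mul_of_nonneg_right h4 (by linarith only [hl2', he1, hlog20, h5])
           linarith only [he1, h5, h6]) (by
           intro w hw ω hω hζ
           have hz1 : bc L b pos (x ω) = bc L b pos (x (f i₀ w)) := (Prod.ext_iff.mp hζ).1
           have hz2 : dg b ψ (x ω) = dg b ψ (x (f i₀ w)) := (Prod.ext_iff.mp hζ).2
           by_cases hA : w ∈ 𝒜
           · have h1 := hQ𝒜 w hA hw (x ω) hz1 hz2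
             simp only [hg]
             rw [if_pos hA]
             have h2 : |F (lb w) (x ω)| ≤ η := by
               refine le_trans h1 ?_
               rw [hη]
               exact div_le_div_of_nonneg_right (le_mul_of_one_le_left (by linarith only [he1]) hKη1) h2b.le
             rw [max_eq_right h2]
           · simp only [hg]
             rw [if_neg hA]
             refine Real.log_le_log (lt_max_of_lt_right hη0) (max_le (hFb _ ω hω) ?_)
             linarith only [hl2', he1, hη1, hlog20]) he₁0 (by
           rw [hcast, Real.log_pow]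
           exact hLF.time) he₄0 (by
           intro V _ ρ o o' l y hch
           have h1 := hmix Ω Λ Ξ V p lam x T pos A B L κ γ N ρ o o' l y δ ε e₁ e₃ (fun _ => ε) hLF.leaf
             hch hLF.δ_pos (fun _ => hLF.ε_nonneg) (by
               rw [Ex_const hp.sum_one]) hLF.ncf hLF.det hLF.κ_pos hLF.time he₁0 he₃0 hLF.thin
           exact h1) (by
           rw [Set.compl_univ, Pr_eq]
           simp)
       -- the conclusion
       exact by
        have hEx : Ex q g - Real.log η ≤ b / 500 := by
          have h1 : Ex q g - Real.log η = Ex q (fun w => g w - Real.log η) := by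
            rw [Ex_sub, Ex_const hq.sum_one]
          have h2 : Ex q (fun w => g w - Real.log η) ≤
              Ex q (fun w => 2 * b * (if w ∈ 𝒜ᶜ then (1 : ℝ) else 0)) := by
            refine Ex_mono hq0 fun w _ => ?_
            simp only [hg]
            by_cases hA : w ∈ 𝒜
            · simp [hA]
            · rw [if_neg hA, if_pos (show w ∈ 𝒜ᶜ from hA), mul_one, hlogη]
              linarith only [hb20, hl2', hbl', hlogK, hlog20, hlog1e]
          rw [Ex_smul, ← Pr_eq_Ex] at h2
          have h3 : 2 * (b : ℝ) * Pr q 𝒜ᶜ ≤ 2 * b * (1 / 1000) :=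
            mul_le_mul_of_nonneg_left h𝒜 (by linarith only [hb20])
          rw [h1]
          linarith only [h2, h3]
        have hI : H q lb - CH q lb (fun w => (bc L b pos (x (f i₀ w)), dg b ψ (x (f i₀ w)))) ≤
            κI * S := by
          have h1 := info_le hq E r i (fun w => bc L b pos (x (f i₀ w)))
            (fun w => dg b ψ (x (f i₀ w))) (κ' * S) hcard hi hZ
          have h2 : CH q (fun w => dg b ψ (x (f i₀ w))) (fun w => bc L b pos (x (f i₀ w))) =
              CH p (fun ω => dg b ψ (x ω)) (fun ω => bc L b pos (x ω)) :=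
            (hmarg i₀).CH (fun ω => dg b ψ (x ω)) (fun ω => bc L b pos (x ω))
          have h3 := (hcon Ω Λ Ξ p lam x T pos A B L κ γ b δ ε e₁ e₃ ψ P hLF hbL hPL).1
          have h4 : CN * (e₁ + e₃ + W0 L κ γ ε) ≤ CN * (3 * S) :=
            mul_le_mul_of_nonneg_left (by linarith only [he₁0, he₃0, hsm, hW1, hNe]) (by linarith only [hCN])
          have h5 : H q E - CH q E (fun w => bc L b pos (x (f i₀ w))) ≤ S := hinf
          have h6 : κI * S = 2 * S + 2 * (κ' * S) + CN * (3 * S) := by
            rw [hκI]
            ring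
          have h7 : H q lb - CH q lb (fun w => (bc L b pos (x (f i₀ w)), dg b ψ (x (f i₀ w)))) ≤
              (H q E - CH q E (fun w => bc L b pos (x (f i₀ w)))) +
              CH q (fun w => dg b ψ (x (f i₀ w))) (fun w => bc L b pos (x (f i₀ w))) +
              (2 * (κ' * S) + 1) := h1
          linarith only [he₁0, he₃0, hsm, hW1, hNe, hl2', hinf, hlog20, h1, h2, h3, h4]
        exact by
         refine ⟨Q (E w) (r w) (i w), hQd _ _ _, ?_, ?_⟩
         · intro y hy
           refine (hQb _ _ _ y hy).trans ?_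
           rw [he, Real.rpow_def_of_pos (by norm_num)]
           refine Real.exp_le_exp.2 ?_
           have : Real.log 2 * ((b : ℝ) / 8) = b * Real.log 2 / 8 := by ring
           rw [this]
           linarith only [hDS, hc₁S, hp1, hp3, hb20, hbl]
         · have hexp : Real.exp (-((2 * n + 4 + 2 * CM + CR) * ((1 - 1 / n) ^ N * L + e₁ + e₃ +
               W0 L κ γ ε))) ≤ Real.exp (-(2 * e₄ + CR)) := by
             refine Real.exp_le_exp.2 (neg_le_neg ?_)
             set ρ : ℝ := (1 - 1 / (n : ℝ)) ^ N with hρ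
             have h1 : ρ * (n * (L * Real.log 2) + e₃) ≤ n * (ρ * L) + e₃ := by
               have k1 : ρ * (n * (L * Real.log 2)) ≤ n * (ρ * L) := by
                 have : L * Real.log 2 ≤ (L : ℝ) * 1 := mul_le_mul_of_nonneg_left (by linarith only [hl2']) hL0
                 have k2 := mul_le_mul_of_nonneg_left (mul_le_mul_of_nonneg_left this hn0) hr0.1
                 refine k2.trans (le_of_eq ?_)
                 ring
               have k3 : ρ * e₃ ≤ 1 * e₃ := mul_le_mul_of_nonneg_right hr0.2 he₃0
               rw [mul_add]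
               linarith only [k1, k3]
             have hρL : 0 ≤ ρ * L := mul_nonneg hr0.1 hL0
             have hW : 0 ≤ W0 L κ γ ε := by linarith only [hW1]
             have h2 : CR ≤ CR * W0 L κ γ ε := le_mul_of_one_le_right (by linarith only [hCR]) hW1
             have m1 : 0 ≤ (n : ℝ) * e₁ := by positivity
             have m2 : 0 ≤ (n : ℝ) * e₃ := by positivity
             have m3 : 0 ≤ (n : ℝ) * W0 L κ γ ε := by positivity
             have m4 : 0 ≤ CM * (ρ * L) := by positivity
             have m5 : 0 ≤ CM * e₁ := by positivity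
             have m6 : 0 ≤ CM * e₃ := by positivity
             have m7 : 0 ≤ CR * (ρ * L) := by positivity
             have m8 : 0 ≤ CR * e₁ := by positivity
             have m9 : 0 ≤ CR * e₃ := by positivity
             have e1 : (2 * n + 4 + 2 * CM + CR) * (ρ * L + e₁ + e₃ + W0 L κ γ ε) =
                 2 * (n * (ρ * L)) + 2 * (n * e₁) + 2 * (n * e₃) + 2 * (n * W0 L κ γ ε) +
                 4 * (ρ * L) + 4 * e₁ + 4 * e₃ + 4 * W0 L κ γ ε + 2 * (CM * (ρ * L)) + 2 * (CM * e₁) +
                 2 * (CM * e₃) + 2 * (CM * W0 L κ γ ε) + CR * (ρ * L) + CR * e₁ + CR * e₃ +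
                 CR * W0 L κ γ ε := by ring
             rw [he₄, e1]
             linarith only [he₁0, hW1, h1, hρL, h2, m2, m3, m4, m5, m6, m7, m8, m9]
           refine hexp.trans (hpr.trans (Pr_mono hp fun ω _ hω => ?_))
           have hω' : |F (lb w) (x ω)| ≤ η * Real.exp (4 * (Ex q g - Real.log η) +
             CR * ((H q lb - CH q lb (fun w => (bc L b pos (x (f i₀ w)), dg b ψ (x (f i₀ w))))) +
               N * (e₁ + 1))) := hω
           have h1 : η * Real.exp (4 * (Ex q g - Real.log η) +
               CR * ((H q lb - CH q lb (fun w => (bc L b pos (x (f i₀ w)), dg b ψ (x (f i₀ w))))) +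
               N * (e₁ + 1))) ≤ (2 : ℝ) ^ (-(3 * (b : ℝ) / 4)) := by
             rw [Real.rpow_def_of_pos (by norm_num)]
             rw [← Real.exp_log hη0, ← Real.exp_add]
             refine Real.exp_le_exp.2 ?_
             rw [Real.exp_log hη0, hlogη]
             have k1 : CR * ((H q lb - CH q lb (fun w => (bc L b pos (x (f i₀ w)),
                 dg b ψ (x (f i₀ w))))) + N * (e₁ + 1)) ≤ CR * (κI + 1) * S := by
               rw [mul_assoc]
               refine mul_le_mul_of_nonneg_left ?_ (by linarith only [hCR])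
               linarith only [he₁0, he₃0, hsm, hW1, hI, add_mul κI 1 S]
             have k2 : Real.log 2 * -(3 * (b : ℝ) / 4) = -(3 / 4) * (b * Real.log 2) := by ring
             rw [k2]
             rw [hlogη] at hEx
             linarith only [hDS, hc₁S, hb20, hl2', hbl, hlogK', hlog20, hEx, k1]
           show |ψ (x ω) - MvPolynomial.eval (fun i => rp (2 ^ L) pos (x ω) (some i))
             (Q (E w) (r w) (i w))| ≤ _
           have h2 : (fun j => rp (2 ^ L) pos (x ω) (some j)) =
               fun j => (pos (x ω) (some j) : ℝ) / 2 ^ L := by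
             funext j
             unfold rp
             rw [hcast]
           rw [h2]
           exact hω'.trans h1

end Pool.KBX
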