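import Pool.Agent.H84.KBOX.BlkD
import Pool.Agent.H84.KBOX.StmtsU
import Pool.Agent.H37.KBX.FRU

/-!
# The block lemma: labels, with constants which do not depend on `δ`
-/

set_option autoImplicit false

namespace Pool.KBX

open Finset Real MeasureTheory
open Pool.Agent.H49.Ent Pool.Agent.H32.Dense Pool.STK Pool.KAF Pool.KAL Pool.KS3

/-- The labels: `E w` is the rounded frame, `r w` and `i w` the class. -/
def LABUStmt : Prop :=
  ∀ (n d : ℕ) (C₀ β : ℝ), 1 ≤ C₀ → 0 < β → β ≤ 1 →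
    ∃ (κ' c : ℝ), 1 ≤ κ' ∧ 0 < c ∧
    ∀ (Ω Λ Ξ W : Type) [Fintype Ω] [Fintype W] (p : Ω → ℝ) (lam : Ω → Λ) (x : Ω → Ξ)
      (T : Ξ → ℕ) (pos : Ξ → Option (Fin n) → ℕ) (A B : Λ → Option (Fin n) → ℝ) (i₀ : Fin n)
      (L κ γ b : ℕ) (δ ε e₁ e₃ S : ℝ) (ψ : Ξ → ℝ) (P : Λ → Polynomial ℝ) (q : W → ℝ)
      (f : Fin n → W → Ω),
      LF L κ γ C₀ δ ε e₁ e₃ p lam x T pos A B → TC i₀ lam x T pos A B → b ≤ L →
      PL L d b C₀ p lam x T ψ P → IsLaw q → (∀ j, Marg q p (f j)) →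
      (∀ w, 0 < q w → ∀ j, x (f j w) = x (f i₀ w)) →
      Pr q {w | |Matrix.det (Matrix.of fun j i => B (lam (f j w)) (some i))| < δ ^ n} * b ≤ S →
      H q (fun w => fr b fun j i => B (lam (f j w)) (some i)) -
        CH q (fun w => fr b fun j i => B (lam (f j w)) (some i))
          (fun w => bc L b pos (x (f i₀ w))) ≤ S →
      1 ≤ S → S ≤ c * b → e₁ + 1 ≤ S → e₃ ≤ S → W0 L κ γ ε ≤ S →
      ∃ (𝓡 : Type) (_ : Fintype 𝓡) (r : W → 𝓡) (i : W → ℕ)
        (Q : (Fin n → Fin n → ℤ) → 𝓡 → ℕ → MvPolynomial (Fin n) ℝ)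
        (𝒜 : Set W), Real.log (Fintype.card 𝓡 + 1) ≤ κ' * S ∧
        (∀ w, (i w : ℝ) ≤ Real.exp (κ' * S)) ∧ Pr q 𝒜ᶜ ≤ β ∧
        (∀ a r' i', (Q a r' i').totalDegree ≤ n * d) ∧
        (∀ a r' i', ∀ y : Fin n → ℝ, (∀ j, |y j| ≤ 2) →
          |MvPolynomial.eval y (Q a r' i')| ≤ Real.exp (κ' * S)) ∧
        ∀ w ∈ 𝒜, 0 < q w → ∀ ξ : Ξ, bc L b pos ξ = bc L b pos (x (f i₀ w)) →
          dg b ψ ξ = dg b ψ (x (f i₀ w)) →
          |ψ ξ - MvPolynomial.eval (fun j => (pos ξ (some j) : ℝ) / 2 ^ L)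
            (Q (fr b fun j i => B (lam (f j w)) (some i)) (r w) (i w))| ≤
            Real.exp (κ' * S) / 2 ^ b

theorem labu_of (hCON : CONStmt) (hSUP : SUPStmt) (hLDA : LDAStmt) (hRNK : RNKStmt)
    (hBXL : BXLStmt) : LABUStmt := by
  classical
  intro n d C₀ β hC₀ hβ hβ1
  obtain ⟨aF, CF, haF, hCF, hfrb⟩ := FRU.frb_u n C₀ hC₀
  have hC₀0 : 0 < C₀ := by linarith
  set C₁ : ℝ := C₀ + CF with hC₁
  have hC₁1 : 1 ≤ C₁ := by linarith
  have hC₀₁ : C₀ ≤ C₁ := by linarith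
  have hCF₁ : CF ≤ C₁ := by linarith
  obtain ⟨CL, hCL, hlda⟩ := hLDA n d C₁ hC₁1
  obtain ⟨CN, hCN, hcon⟩ := hCON n d C₀ hC₀
  obtain ⟨CS, hCS, hsup⟩ := hSUP d C₀ hC₀
  obtain ⟨CB, hCB, hbxl⟩ := hBXL n d
  obtain ⟨CP, hCP, hlip⟩ := lip_le n (n * d)
  obtain ⟨k₀, hk₀'⟩ := pow_unbounded_of_one_lt ((C₁ / C₀) ^ n) (one_lt_two (α := ℝ))
  have hk₀ : (C₁ / C₀) ^ n ≤ 2 ^ k₀ := hk₀'.le
  have hn0 : (0 : ℝ) ≤ n := Nat.cast_nonneg n
  have hd0 : (0 : ℝ) ≤ d := Nat.cast_nonneg d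
  have hk₀0 : (0 : ℝ) ≤ k₀ := Nat.cast_nonneg k₀
  set βB : ℝ := β / CB with hβB
  have hβB0 : 0 < βB := by positivity
  have hβB1 : βB ≤ 1 := by
    rw [hβB, div_le_one (by linarith)]
    linarith
  set β₁ : ℝ := βB / (8 * (n + 1)) with hβ₁
  have hβ₁0 : 0 < β₁ := by positivity
  have hβ₁1 : β₁ ≤ 1 := by
    rw [hβ₁, div_le_one (by positivity)]
    linarith only [hβB1]
  -- constants
  set κ1 : ℝ := CS / β₁ with hκ1
  set κL : ℝ := CL * (3 + k₀) with hκL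
  set κv : ℝ := 6 * CN + (n * (2 * CF + 1) + 1) with hκv
  set κr : ℝ := κv + κL with hκr
  set κc : ℝ := 1 + (n + 1) * ((κr + 1) / β₁ + 1) with hκc
  set κh : ℝ := n * (6 * aF + 1) + (2 * CN + 1) + n * (2 * CF + 1) + 3 * n + 1 with hκh
  set κB : ℝ := CB * ((κh + 1) / βB ^ 2 + κc) with hκB
  set κE : ℝ := 1 + C₀ + (d + 1) * 2 ^ d * (d * CF + 1) with hκE
  set κη : ℝ := 1 + κE + CP * CF * (1 + κE) with hκη
  have hκ1_0 : 0 < κ1 := by positivity
  have hκL_0 : 0 ≤ κL := by positivity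
  have hκv_0 : 0 ≤ κv := by positivity
  have hκr_0 : 0 ≤ κr := by positivity
  have hκc_0 : 0 ≤ κc := by positivity
  have hκh_0 : 0 ≤ κh := by positivity
  have hκB_0 : 0 ≤ κB := by positivity
  have hκE_1 : 1 ≤ κE := by
    have : 0 ≤ ((d : ℝ) + 1) * 2 ^ d * (d * CF + 1) := by positivity
    linarith only [hC₀, this]
  have hκη_1 : 1 ≤ κη := by
    have : 0 ≤ CP * CF * (1 + κE) := by positivity
    linarith only [hκE_1, this]
  set D : ℝ := 2 * (κ1 + κB + CF + C₀ + 1 / β₁ + 2 + aF) with hD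
  have hβi : 0 < 1 / β₁ := by positivity
  have hD0 : 0 < D := by positivity
  clear_value D κη κE κB κh κc κr κv κL κ1 β₁ βB C₁
  refine ⟨κη + κ1 + κB + κc, 1 / D, by linarith only [hκ1_0, hκc_0, hκB_0, hκη_1], by positivity, ?_⟩
  intro Ω Λ Ξ W _ _ p lam x T pos A B i₀ L κ γ b δ ε e₁ e₃ S ψ P q f hLF hTC hbL hPL hq hmarg
    hx hdet hinf hS1 hSb he₁ he₃ hW0
  have hδ := hLF.δ_pos
  have haF0 : 0 < aF := by linarith only [haF]
  have hγS : (γ : ℝ) + 1 ≤ S := by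
    refine le_trans ?_ hW0
    unfold W0
    have h1 : 0 ≤ (L : ℝ) / κ := by positivity
    have h2 : 0 ≤ ε * L := mul_nonneg hLF.ε_nonneg (Nat.cast_nonneg L)
    have h4 : (0 : ℝ) ≤ κ := Nat.cast_nonneg κ
    linarith only [h1, h2]
  have hδγ : 1 ≤ δ ^ n * 2 ^ γ := by
    refine le_trans ?_ hLF.det
    have h1 : (1 : ℝ) ≤ n.factorial := by exact_mod_cast Nat.one_le_iff_ne_zero.2 n.factorial_ne_zero
    have h2 : 1 ≤ C₀ ^ n := one_le_pow₀ hC₀
    exact one_le_mul_of_one_le_of_one_le h1 h2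
  have hδn : 0 < δ ^ n := by positivity
  set R : ℕ := ⌈aF * 2 ^ γ⌉₊ + 1 with hRdef
  have hR : 1 ≤ R := by omega
  have hR1 : (1 : ℝ) ≤ R := by exact_mod_cast hR
  have hRa : aF / δ ^ n + 1 ≤ R := by
    rw [hRdef]
    push_cast
    have h1 : aF / δ ^ n ≤ aF * 2 ^ γ := by
      rw [div_le_iff₀ hδn]
      have := mul_le_mul_of_nonneg_left hδγ haF0.le
      linarith only [this, mul_comm (δ ^ n) ((2 : ℝ) ^ γ)]
    have h2 := Nat.le_ceil (aF * 2 ^ γ)
    linarith only [h1, h2]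
  have hl2'' : Real.log 2 ≤ 1 := by
    have := Real.log_two_lt_d9
    linarith only [this]
  have hlogR2 : Real.log (2 * (R : ℝ)) ≤ (6 * aF + 1) * S := by
    have h1 : (1 : ℝ) ≤ 2 ^ γ := one_le_pow₀ (by norm_num)
    have h2 : (R : ℝ) ≤ 3 * aF * 2 ^ γ := by
      rw [hRdef]
      push_cast
      have h3 := (Nat.ceil_lt_add_one (show 0 ≤ aF * 2 ^ γ by positivity)).le
      have h4 : 1 ≤ aF * 2 ^ γ := one_le_mul_of_one_le_of_one_le haF h1
      linarith only [h3, h4]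
    have h3 : Real.log (2 * (R : ℝ)) ≤ Real.log (6 * aF * 2 ^ γ) :=
      Real.log_le_log (by linarith only [hR1]) (by linarith only [h2])
    have h3' : Real.log (6 * aF * 2 ^ γ) = Real.log (6 * aF) + γ * Real.log 2 := by
      rw [Real.log_mul (by positivity) (by positivity), Real.log_pow]
    rw [h3'] at h3
    have h4 : Real.log (6 * aF) ≤ 6 * aF := log_le_self' (by positivity)
    have h5 : (γ : ℝ) * Real.log 2 ≤ γ * 1 := mul_le_mul_of_nonneg_left hl2'' (Nat.cast_nonneg γ)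
    have h6 : 6 * aF * 1 ≤ 6 * aF * S := mul_le_mul_of_nonneg_left hS1 (by positivity)
    linarith only [hγS, h3, h4, h5, h6]
  clear_value R
  have hp := hLF.leaf.isLaw
  have hp0 := hp.nonneg
  have hq0 := hq.nonneg
  have he₁0 := hLF.e₁_nonneg
  have he₃0 := hLF.e₃_nonneg
  have hS0 : 0 < S := by linarith only [hS1]
  have hb0 : (0 : ℝ) ≤ b := Nat.cast_nonneg b
  have hDb : D * S ≤ b := by
    have h1 : D * S ≤ D * (1 / D * b) := mul_le_mul_of_nonneg_left hSb hD0.le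
    have h2 : D * (1 / D * b) = b := by field_simp
    linarith only [h1, h2]
  have hDle : D ≤ b := le_trans (le_mul_of_one_le_right hD0.le hS1) hDb
  have hb1r : (1 : ℝ) ≤ b := by
    have : (4 : ℝ) ≤ D := by
      have : 0 < CF + C₀ := by positivity
      linarith only [hD, hC₀, haF, hCF, hκ1_0, hκB_0, hβi]
    linarith only [hD, hC₀, haF, hCF, hκ1_0, hκB_0, hβi, hDle]
  have hb1 : 1 ≤ b := by exact_mod_cast hb1r
  have hab : aF ≤ δ ^ n * 2 ^ b := by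
    have h1 : 2 * S + 2 * aF ≤ b := by
      have g1 : (2 + 2 * aF) * S ≤ D * S := by
        refine mul_le_mul_of_nonneg_right ?_ hS0.le
        have : 0 < CF + C₀ + 1 / β₁ + κ1 + κB := by positivity
        linarith only [hD, hC₀, hCF, hκ1_0, hκB_0, hβi]
      have g2 : 2 * aF * 1 ≤ 2 * aF * S := mul_le_mul_of_nonneg_left hS1 (by positivity)
      have g3 : (2 + 2 * aF) * S = 2 * S + 2 * aF * S := by ring
      linarith only [hDb, g1, g2]
    have h2 : γ + ⌈aF⌉₊ ≤ b := by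
      have g1 := (Nat.ceil_lt_add_one haF0.le).le
      have g2 : (γ : ℝ) + ⌈aF⌉₊ ≤ b := by linarith only [hC₀, haF, hCF, hκ1_0, hκB_0, hβi, hγS, hDle, h1, g1]
      exact_mod_cast g2
    have h3 : aF ≤ 2 ^ ⌈aF⌉₊ := by
      have g1 : ⌈aF⌉₊ < 2 ^ ⌈aF⌉₊ := Nat.lt_two_pow_self
      have g2 : ((⌈aF⌉₊ : ℕ) : ℝ) ≤ 2 ^ ⌈aF⌉₊ := by exact_mod_cast g1.le
      exact (Nat.le_ceil aF).trans g2
    have h4 : (2 : ℝ) ^ γ * 2 ^ ⌈aF⌉₊ ≤ 2 ^ b := by
      rw [← pow_add]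
      exact pow_le_pow_right₀ (by norm_num) h2
    have h5 := mul_le_mul hδγ h3 haF0.le (by positivity)
    have h6 := mul_le_mul_of_nonneg_left h4 hδn.le
    rw [one_mul] at h5
    linarith only [h5, h6, mul_assoc (δ ^ n) ((2 : ℝ) ^ γ) (2 ^ ⌈aF⌉₊)]
  have hκS : κ1 * S ≤ b / 2 ∧ κB * S ≤ b / 2 := by
    have h1 : (2 * (κ1 + κB)) * S ≤ D * S := by
      refine mul_le_mul_of_nonneg_right ?_ hS0.le
      have : 0 < CF + C₀ := by positivity
      linarith only [hD, hC₀, haF, hCF, hβi]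
    have h2 : (2 * (κ1 + κB)) * S = 2 * (κ1 * S) + 2 * (κB * S) := by ring
    have h3 : 0 ≤ κ1 * S := mul_nonneg hκ1_0.le hS0.le
    have h4 : 0 ≤ κB * S := mul_nonneg hκB_0 hS0.le
    constructor <;> linarith
  have hl2 : (1 / 2 : ℝ) ≤ Real.log 2 := by
    have := Real.log_two_gt_d9
    linarith only [this]
  have hl2' : Real.log 2 ≤ 1 := by
    have := Real.log_two_lt_d9
    linarith only [this]
  have h2b : (0 : ℝ) < 2 ^ b := by positivity
  have hexpb : Real.exp (b / 2) ≤ 2 ^ b := by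
    rw [← Real.exp_log h2b, Real.log_pow]
    refine Real.exp_le_exp.2 ?_
    have := mul_le_mul_of_nonneg_left hl2 hb0
    linarith only [this]
  have hb2 : (b : ℝ) ≤ 2 ^ b := by
    have : b < 2 ^ b := Nat.lt_two_pow_self
    exact_mod_cast this.le
  have hCF2 : CF ≤ 2 ^ b := by
    have : 0 < 1 / β₁ + C₀ + κ1 + κB := by positivity
    linarith only [hD, hC₀, haF, hCF, hκ1_0, hκB_0, hβi, hDle, hb2]
  have hLb : (b : ℝ) ≤ L := by exact_mod_cast hbL
  -- the set of nondegenerate frames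
  set E : W → Fin n → Fin n → ℤ := fun w => fr b fun j i => B (lam (f j w)) (some i) with hE
  set 𝒲 : Set W := {w | 0 < q w ∧
    δ ^ n ≤ |Matrix.det (Matrix.of fun j i => B (lam (f j w)) (some i))|} with h𝒲
  have h𝒲c : Pr q 𝒲ᶜ ≤
      Pr q {w | |Matrix.det (Matrix.of fun j i => B (lam (f j w)) (some i))| < δ ^ n} := by
    refine Pr_mono hq fun w hw hwc => ?_
    by_contra hcon'
    exact hwc ⟨hw, not_lt.1 hcon'⟩
  have h𝒲b : Pr q 𝒲ᶜ * b ≤ S := le_trans (mul_le_mul_of_nonneg_right h𝒲c hb0) hdet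
  have h𝒲β : Pr q 𝒲ᶜ ≤ β₁ / 2 := by
    have h1 : Pr q 𝒲ᶜ * (D * S) ≤ S :=
      le_trans (mul_le_mul_of_nonneg_left hDb (Pr_nonneg hq _)) h𝒲b
    have h2 : Pr q 𝒲ᶜ * D ≤ 1 := by
      have h3 : (Pr q 𝒲ᶜ * D) * S ≤ 1 * S := by linarith only [h1]
      exact le_of_mul_le_mul_right h3 hS0
    have h3 : Pr q 𝒲ᶜ * (2 * (1 / β₁)) ≤ 1 := by
      refine le_trans (mul_le_mul_of_nonneg_left ?_ (Pr_nonneg hq _)) h2
      have : 0 < CF + C₀ + κ1 := by positivity
      linarith only [hD, hC₀, haF, hCF, hκ1_0, hκB_0]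
    have h4 : Pr q 𝒲ᶜ = (Pr q 𝒲ᶜ * (2 * (1 / β₁))) * (β₁ / 2) := by
      field_simp
    rw [h4]
    have h5 : 0 < β₁ / 2 := by positivity
    exact mul_le_of_le_one_left h5.le h3
  have h𝒲h : 1 / 2 ≤ Pr q 𝒲 := by
    have := Pr_compl hq 𝒲
    linarith only [hβ₁1, h𝒲β, this]
  have h𝒲0 : 0 < Pr q 𝒲 := by linarith only [h𝒲h]
  have hξ : ∀ w, 0 < q w → ∀ j, 0 < p (f j w) := fun w hw j => (hmarg j).pos hq0 hw
  -- the skew grid
  obtain ⟨Iv, hIv, hfrb2⟩ := hfrb δ R b L hδ hRa hab hbL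
  obtain ⟨s, hs1, hs2, hs3, hs4⟩ := hfrb2 Ω Λ Ξ W p lam x T pos A B i₀ f 𝒲 E hLF.leaf hTC
    (fun w => rfl) (fun w hw j => hx w hw.1 j) (fun w hw => hw.2)
  set v : W → ℤ := fun w => dg b ψ (x (f i₀ w)) with hv
  set K : ℝ := Real.exp (CS * (e₁ + 1) / β₁) with hK
  have hK1 : 1 ≤ K := by
    rw [hK]
    exact Real.one_le_exp (by positivity)
  have hKe : CS * (e₁ + 1) / β₁ ≤ κ1 * S := by
    rw [hκ1, div_mul_eq_mul_div]
    refine div_le_div_of_nonneg_right ?_ hβ₁0.le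
    exact mul_le_mul_of_nonneg_left he₁ (by linarith only [hCS])
  have hKS : K ≤ Real.exp (κ1 * S) := Real.exp_le_exp.2 hKe
  have hK2 : K ≤ 2 ^ b := hKS.trans ((Real.exp_le_exp.2 hκS.1).trans hexpb)
  -- the restricted law
  set q' : W → ℝ := rs q 𝒲 with hq'
  have hq'l : IsLaw q' := rs_isLaw hq h𝒲0
  have hq'0 := hq'l.nonneg
  have hq'pos : ∀ w, 0 < q' w → w ∈ 𝒲 := fun w hw => ((rs_pos hq).1 hw).2
  set G : Fin n → W → (Fin n → Fin n → ℤ) × (Fin n → ℕ) := fun j w =>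
    (E w, fun i => if i = j then 0 else (s w i : ℕ)) with hG
  have hGE : ∀ j w w', G j w = G j w' → E w = E w' := fun j w w' h => (Prod.ext_iff.mp h).1
  have hGs : ∀ j w w', G j w = G j w' → ∀ i, i ≠ j → s w i = s w' i := by
    intro j w w' h i hij
    have h1 := congrFun (Prod.ext_iff.mp h).2 i
    simp only [hG] at h1
    rw [if_neg hij, if_neg hij] at h1
    exact Fin.ext h1
  -- entropy of the line data
  have hline : ∀ j, CH q' (fun w => rc d b K (P (lam (f j w)))) (G j) ≤ κL * S := by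
    intro j
    have h1 := hlda Ω Λ Ξ W ((Fin n → Fin n → ℤ) × (Fin n → ℕ)) p lam x T pos A B L κ (γ + k₀) b δ
      ε e₁ e₃ K ψ P q' (f j) (G j) (hLF.mono hC₀0 hC₀₁ hk₀) hbL hb1 (hPL.mono hC₀₁) hq'l (by
        intro ω
        have h2 := law_rs_le hq h𝒲h (f j) ω
        have h3 : law q (f j) ω = p ω := by
          unfold law
          exact hmarg j ω
        rw [h3] at h2
        exact h2) hK1 hK2 (by
        intro w w' hw hw' hg ω ω' hω hω' hl hl' ht i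
        exact (hs4 j w (hq'pos w hw) w' (hq'pos w' hw') (hGE j w w' hg) (hGs j w w' hg) ω ω' hl hl'
          ht i).trans hCF₁)
    refine h1.trans ?_
    have h2 : W0 L κ (γ + k₀) ε = W0 L κ γ ε + k₀ := by
      unfold W0
      push_cast
      ring
    rw [h2, hκL, mul_assoc]
    refine mul_le_mul_of_nonneg_left ?_ (by linarith only [hCL])
    have h3 : (k₀ : ℝ) * 1 ≤ k₀ * S := mul_le_mul_of_nonneg_left hS1 hk₀0
    have h4 : (3 + (k₀ : ℝ)) * S = 3 * S + k₀ * S := by ring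
    linarith only [he₁, he₃, hW0, h3]
  -- entropy of the digits
  obtain ⟨hcon1, hcon2⟩ := hcon Ω Λ Ξ p lam x T pos A B L κ γ b δ ε e₁ e₃ ψ P hLF hbL hPL
  have hvbc : CH q v (fun w => bc L b pos (x (f i₀ w))) ≤ CN * (3 * S) := by
    have h1 := (hmarg i₀).CH (fun ω => dg b ψ (x ω)) (fun ω => bc L b pos (x ω))
    have h2 : CH q v (fun w => bc L b pos (x (f i₀ w))) =
        CH p (fun ω => dg b ψ (x ω)) (fun ω => bc L b pos (x ω)) := h1
    rw [h2]
    refine hcon1.trans (mul_le_mul_of_nonneg_left (by linarith only [he₁, he₃, hW0]) (by linarith only [hCN]))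
  have hbcM : ∀ w i, (bc L b pos (x (f i₀ w)) i : ℝ) ≤ 2 ^ b := by
    intro w i
    have := bc_lt hLF.leaf hbL (f i₀ w) i
    exact_mod_cast this.le
  set J : W → Bool := fun w => decide (w ∈ 𝒲) with hJ
  have hJt : ∀ w, J w = true → w ∈ 𝒲 := fun w h => by simpa [hJ] using h
  have hJf : ∀ w, J w = false → w ∈ 𝒲ᶜ := fun w h => by simpa [hJ] using h
  have hbcJ : ∀ w w', J w = true → J w' = true → (E w, s w) = (E w', s w') → ∀ i,
      |(bc L b pos (x (f i₀ w)) i : ℝ) - (bc L b pos (x (f i₀ w')) i : ℝ)| ≤ CF :=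
    fun w w' h h' e i => hs1 w (hJt w h) w' (hJt w' h') (Prod.ext_iff.mp e).1
      (Prod.ext_iff.mp e).2 i
  have hCF0 : 0 ≤ CF := by linarith only [hCF]
  have hlogCF : Real.log (2 * CF + 1) ≤ 2 * CF + 1 := log_le_self' (by linarith only [hCF])
  have hvq' : CH q' v (fun w => (E w, s w)) ≤ κv * S := by
    have h1 : CH q' v (fun w => (E w, s w)) ≤ CH q' (fun w => bc L b pos (x (f i₀ w)))
        (fun w => (E w, s w)) + CH q' v (fun w => (bc L b pos (x (f i₀ w)), (E w, s w))) :=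
      CH_le_add hq'0 v (fun w => bc L b pos (x (f i₀ w))) (fun w => (E w, s w))
    have h2 : CH q' v (fun w => (bc L b pos (x (f i₀ w)), (E w, s w))) ≤
        CH q' v (fun w => bc L b pos (x (f i₀ w))) :=
      CH_mono_cond hq'0 fun _ _ _ _ h => (Prod.ext_iff.mp h).1
    have h3 := CH_rs_le hq h𝒲h v (fun w => bc L b pos (x (f i₀ w)))
    have h4 := CH_bc_le hq'l (fun w => bc L b pos (x (f i₀ w))) (fun w => (E w, s w)) J CF
      (2 ^ b) hCF0 h2b.le hbcM hbcJ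
    have h5 : Pr q' {w | J w = false} = 0 := by
      refine le_antisymm ?_ (Pr_nonneg hq'l _)
      have : Pr q' {w | J w = false} ≤ Pr q' (∅ : Set W) :=
        Pr_mono hq'l fun w hw hJw => (hJf w hJw) (hq'pos w hw)
      refine this.trans (le_of_eq ?_)
      rw [Pr_eq]
      simp
    rw [h5, zero_mul, add_zero] at h4
    have h6 : (n : ℝ) * Real.log (2 * CF + 1) ≤ n * (2 * CF + 1) :=
      mul_le_mul_of_nonneg_left hlogCF hn0
    have h7 : (n : ℝ) * (2 * CF + 1) + 1 ≤ (n * (2 * CF + 1) + 1) * S := by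
      have : 0 ≤ (n : ℝ) * (2 * CF + 1) + 1 := by positivity
      exact le_mul_of_one_le_right this hS1
    rw [hκv, add_mul]
    linarith only [hl2'', hvbc, h1, h2, h3, h4, h6, h7]
  -- ranks
  set R₁ : ℕ := ⌈Real.exp ((κr * S + 1) / β₁)⌉₊ with hR₁
  have hR₁e : Real.exp ((κr * S + 1) / β₁) ≤ R₁ := Nat.le_ceil _
  have hR₁0 : 0 < R₁ := Nat.ceil_pos.2 (Real.exp_pos _)
  have hR₁r : (0 : ℝ) < R₁ := by exact_mod_cast hR₁0
  have hR₁1 : (1 : ℝ) ≤ R₁ := by exact_mod_cast hR₁0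
  have hlogR : (κr * S + 1) / β₁ ≤ Real.log R₁ := by
    rw [Real.le_log_iff_exp_le hR₁r]
    exact hR₁e
  have hκrS : 0 ≤ κr * S := mul_nonneg hκr_0 hS0.le
  have hlogR' : Real.log R₁ ≤ (κr * S + 1) / β₁ + 1 := by
    have h1 : (R₁ : ℝ) ≤ Real.exp ((κr * S + 1) / β₁) + 1 := (Nat.ceil_lt_add_one (Real.exp_pos _).le).le
    have h2 : (1 : ℝ) ≤ Real.exp ((κr * S + 1) / β₁) := Real.one_le_exp (by positivity)
    have h3 : (R₁ : ℝ) ≤ 2 * Real.exp ((κr * S + 1) / β₁) := by linarith only [h1, h2]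
    have h4 := Real.log_le_log hR₁r h3
    rw [Real.log_mul (by norm_num) (Real.exp_pos _).ne', Real.log_exp] at h4
    linarith only [hl2'', h4]
  have hκLr : κL * S ≤ κr * S := mul_le_mul_of_nonneg_right (by rw [hκr]; linarith only [hκv_0]) hS0.le
  have hκvr : κv * S ≤ κr * S := mul_le_mul_of_nonneg_right (by rw [hκr]; linarith only [hκL_0]) hS0.le
  obtain ⟨rk, hrk1, hrk2⟩ := rank_event hRNK hq'l v (fun w => (E w, s w)) hκrS hβ₁0
    (hvq'.trans hκvr) R₁ hlogR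
  have hrl : ∀ j, ∃ rl : ((Fin n → Fin n → ℤ) × (Fin n → ℕ)) → (Fin (d + 1) → ℤ) → ℕ,
      (∀ ω ω', 0 < q' ω → 0 < q' ω' → G j ω = G j ω' →
        rl (G j ω) (rc d b K (P (lam (f j ω)))) = rl (G j ω') (rc d b K (P (lam (f j ω')))) →
        rc d b K (P (lam (f j ω))) = rc d b K (P (lam (f j ω')))) ∧
      Pr q' {w | R₁ ≤ rl (G j w) (rc d b K (P (lam (f j w))))} ≤ β₁ := fun j =>
    rank_event hRNK hq'l (fun w => rc d b K (P (lam (f j w)))) (G j) hκrS hβ₁0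
      ((hline j).trans hκLr) R₁ hlogR
  choose rl hrl1 hrl2 using hrl
  -- the good set
  set 𝒜 : Set W := {w | w ∈ 𝒲 ∧ rk (E w, s w) (v w) < R₁ ∧
    (∀ j, rl j (G j w) (rc d b K (P (lam (f j w)))) < R₁) ∧
    ∀ j, ∀ i, |(P (lam (f j w))).coeff i| ≤ K} with h𝒜
  have hsupP : ∀ j, Pr q {w | ∃ i, K < |(P (lam (f j w))).coeff i|} ≤ β₁ := by
    intro j
    have h1 := hsup Ω Λ p lam (fun ω => T (x ω)) L e₁ β₁ (fun ω => ψ (x ω)) P hp hLF.leaf.T_lt
      he₁0 hLF.time hPL.deg hPL.bound (by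
        intro ω hω
        refine (hPL.line ω hω).trans ?_
        exact div_le_self hC₀0.le (one_le_pow₀ (by norm_num))) hβ₁0 hβ₁1 (by linarith only [hC₀, haF, hCF, hκ1_0, hκB_0, hβi, hDle, hκS, hLb, hKe, hκS.1])
    have h2 := Pr_marg (hmarg j) {ω | ∃ i, Real.exp (CS * (e₁ + 1) / β₁) <
      |(P (lam ω)).coeff i|}
    rw [← h2] at h1
    exact h1
  have h𝒜c : Pr q 𝒜ᶜ ≤ βB := by
    have h1 : Pr q 𝒜ᶜ ≤ Pr q (𝒲ᶜ ∪ ((𝒲 ∩ {w | R₁ ≤ rk (E w, s w) (v w)}) ∪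
        ({w | ∃ j, w ∈ 𝒲 ∩ {w | R₁ ≤ rl j (G j w) (rc d b K (P (lam (f j w))))}} ∪
        {w | ∃ j, w ∈ {w | ∃ i, K < |(P (lam (f j w))).coeff i|}}))) := by
      refine Pr_mono hq fun w hw hwA => ?_
      by_cases hW : w ∈ 𝒲
      · right
        by_cases g1 : rk (E w, s w) (v w) < R₁
        · right
          by_cases g2 : ∀ j, rl j (G j w) (rc d b K (P (lam (f j w)))) < R₁
          · right
            by_contra g3
            refine hwA ⟨hW, g1, g2, fun j i => ?_⟩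
            by_contra g4
            exact g3 ⟨j, ⟨i, not_le.1 g4⟩⟩
          · left
            push Not at g2
            obtain ⟨j, hj⟩ := g2
            exact ⟨j, hW, hj⟩
        · left
          exact ⟨hW, not_lt.1 g1⟩
      · left
        exact hW
    have h2 := Pr_union hq 𝒲ᶜ ((𝒲 ∩ {w | R₁ ≤ rk (E w, s w) (v w)}) ∪
        ({w | ∃ j, w ∈ 𝒲 ∩ {w | R₁ ≤ rl j (G j w) (rc d b K (P (lam (f j w))))}} ∪
        {w | ∃ j, w ∈ {w | ∃ i, K < |(P (lam (f j w))).coeff i|}}))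
    have h3 := Pr_union hq (𝒲 ∩ {w | R₁ ≤ rk (E w, s w) (v w)})
        ({w | ∃ j, w ∈ 𝒲 ∩ {w | R₁ ≤ rl j (G j w) (rc d b K (P (lam (f j w))))}} ∪
        {w | ∃ j, w ∈ {w | ∃ i, K < |(P (lam (f j w))).coeff i|}})
    have h4 := Pr_union hq
        {w | ∃ j, w ∈ 𝒲 ∩ {w | R₁ ≤ rl j (G j w) (rc d b K (P (lam (f j w))))}}
        {w | ∃ j, w ∈ {w | ∃ i, K < |(P (lam (f j w))).coeff i|}}
    have h5 : Pr q (𝒲 ∩ {w | R₁ ≤ rk (E w, s w) (v w)}) ≤ β₁ :=
      (Pr_inter_le hq h𝒲0).trans hrk2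
    have h6 := Pr_iUnion_le hq
      (fun j => 𝒲 ∩ {w | R₁ ≤ rl j (G j w) (rc d b K (P (lam (f j w))))}) β₁
      (fun j => (Pr_inter_le hq h𝒲0).trans (hrl2 j))
    have h7 := Pr_iUnion_le hq
      (fun j => {w | ∃ i, K < |(P (lam (f j w))).coeff i|}) β₁ hsupP
    have h8 : β₁ / 2 + (β₁ + (n * β₁ + n * β₁)) ≤ βB := by
      have e1 : βB = 8 * (n + 1) * β₁ := by
        rw [hβ₁]
        field_simp
      rw [e1]
      have : 0 ≤ (n : ℝ) * β₁ := mul_nonneg hn0 hβ₁0.le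
      linarith only [hβ₁0, this]
    linarith only [h𝒲β, h1, h2, h3, h4, h5, h6, h7, h8]
  set 𝒜₀ : Set W := 𝒜 with h𝒜₀
  -- the data for the box lemma
  set r : W → Fin R₁ × (Fin n → Fin R₁) := fun w => (cr R₁ hR₁0 (rk (E w, s w) (v w)),
    fun j => cr R₁ hR₁0 (rl j (G j w) (rc d b K (P (lam (f j w)))))) with hr
  set al : Fin n → W → ℝ := fun j w =>
    ((∑ i, if i = j then (0 : ℝ) else ((s w i : ℕ) : ℝ)) - n * R * 2 ^ b) / 2 ^ b with hal
  set Pg : Fin n → W → Polynomial ℝ := fun j w =>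
    gp d b (rc d b K (P (lam (f j w)))) (al j w) with hPg
  set E₁ : ℝ := κE * K / 2 ^ b with hE₁
  have hE₁0 : 0 ≤ E₁ := by positivity
  have h𝒜q : ∀ w ∈ 𝒜, 0 < q' w := fun w hw => (rs_pos hq).2 ⟨hw.1.1, hw.1⟩
  have hψv : ∀ ξ : Ξ, |ψ ξ - (dg b ψ ξ : ℝ) / 2 ^ b| ≤ 1 / 2 ^ b := fun ξ => dg_close b ψ ξ
  have hinvb : (1 : ℝ) / 2 ^ b ≤ 1 := by
    rw [div_le_one h2b]
    exact one_le_pow₀ (by norm_num)
  have hA1 : ∀ w ∈ 𝒜, |(v w : ℝ) / 2 ^ b| ≤ 2 := by
    intro w hw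
    have h1 := hPL.bound (f i₀ w) (hξ w hw.1.1 i₀)
    have h2 := hψv (x (f i₀ w))
    have h3 : |(v w : ℝ) / 2 ^ b| ≤ |ψ (x (f i₀ w))| + |ψ (x (f i₀ w)) - (v w : ℝ) / 2 ^ b| := by
      have := abs_sub_abs_le_abs_sub ((v w : ℝ) / 2 ^ b) (ψ (x (f i₀ w)))
      rw [abs_sub_comm] at this
      linarith only [this]
    linarith only [hinvb, h1, h2, h3]
  have hA2 : ∀ w ∈ 𝒜, ∀ w' ∈ 𝒜, E w = E w' → r w = r w' → s w = s w' →
      (v w : ℝ) / 2 ^ b = (v w' : ℝ) / 2 ^ b := by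
    intro w hw w' hw' hEE hrr hss
    have h1 := cr_inj hR₁0 hw.2.1 hw'.2.1 (Prod.ext_iff.mp hrr).1
    have h2 := hrk1 w w' (h𝒜q w hw) (h𝒜q w' hw') (Prod.ext hEE hss) h1
    rw [h2]
  have hA3 : ∀ j, ∀ w ∈ 𝒜, ∀ w' ∈ 𝒜, E w = E w' → r w = r w' → (∀ i, i ≠ j → s w i = s w' i) →
      Pg j w = Pg j w' := by
    intro j w hw w' hw' hEE hrr hss
    have h1 := cr_inj hR₁0 (hw.2.2.1 j) (hw'.2.2.1 j) (congrFun (Prod.ext_iff.mp hrr).2 j)
    have hGG : G j w = G j w' := by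
      refine Prod.ext hEE ?_
      funext i
      show (if i = j then 0 else (s w i : ℕ)) = if i = j then 0 else (s w' i : ℕ)
      by_cases hij : i = j
      · rw [if_pos hij, if_pos hij]
      · rw [if_neg hij, if_neg hij, hss i hij]
    have h2 := hrl1 j w w' (h𝒜q w hw) (h𝒜q w' hw') hGG h1
    have h3 : al j w = al j w' := by
      simp only [hal]
      congr 2
      refine Finset.sum_congr rfl fun i _ => ?_
      by_cases hij : i = j
      · rw [if_pos hij, if_pos hij]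
      · rw [if_neg hij, if_neg hij, hss i hij]
    simp only [hPg]
    rw [h2, h3]
  have hA4 : ∀ j, ∀ w ∈ 𝒜, (Pg j w).natDegree ≤ d ∧
      |(v w : ℝ) / 2 ^ b - (Pg j w).eval (((s w j : ℕ) : ℝ))| ≤ E₁ := by
    intro j w hw
    refine ⟨gp_deg _ _ _ _, ?_⟩
    simp only [hPg]
    rw [gp_eval]
    set t : ℝ := (T (x (f i₀ w)) : ℝ) / 2 ^ L with ht
    have hL2 : (0 : ℝ) < 2 ^ L := by positivity
    have ht0 : 0 ≤ t := by positivity
    have ht1 : t ≤ 1 := by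
      rw [ht, div_le_one hL2]
      have := hLF.leaf.T_lt (f i₀ w)
      exact_mod_cast this.le
    have e1 : al j w + ((s w j : ℕ) : ℝ) / 2 ^ b =
        ((∑ i, ((s w i : ℕ) : ℝ)) - n * R * 2 ^ b) / 2 ^ b := by
      simp only [hal]
      rw [← add_div]
      congr 1
      have : (∑ i, ((s w i : ℕ) : ℝ)) = (∑ i, if i = j then (0 : ℝ) else ((s w i : ℕ) : ℝ)) +
          ((s w j : ℕ) : ℝ) := by
        have g1 : (∑ i, ((s w i : ℕ) : ℝ)) = ∑ i, ((if i = j then (0 : ℝ) else ((s w i : ℕ) : ℝ)) +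
            if i = j then ((s w j : ℕ) : ℝ) else 0) := by
          refine Finset.sum_congr rfl fun i _ => ?_
          by_cases hij : i = j
          · rw [if_pos hij, if_pos hij, hij, zero_add]
          · rw [if_neg hij, if_neg hij, add_zero]
        rw [g1, Finset.sum_add_distrib, Finset.sum_ite_eq' Finset.univ j]
        simp
      rw [this]
      ring
    rw [e1]
    set t' : ℝ := ((∑ i, ((s w i : ℕ) : ℝ)) - n * R * 2 ^ b) / 2 ^ b with ht'
    have htt : |t - t'| ≤ CF / 2 ^ b := by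
      have h1 := hs3 w hw.1
      have e2 : t - t' = (2 ^ b * t - ((∑ i, ((s w i : ℕ) : ℝ)) - n * R * 2 ^ b)) / 2 ^ b := by
        rw [ht']
        field_simp
      rw [e2, abs_div, abs_of_pos h2b]
      exact div_le_div_of_nonneg_right h1 h2b.le
    have htt1 : |t - t'| ≤ 1 := htt.trans (by rw [div_le_one h2b]; exact hCF2)
    have htabs : |t| ≤ 1 := by rw [abs_of_nonneg ht0]; exact ht1
    have ht'2 : |t'| ≤ 2 := by
      have := abs_sub_abs_le_abs_sub t' t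
      rw [abs_sub_comm] at this
      linarith only [htt1, htabs, this]
    have h1 := PR_close d b K (P (lam (f j w))) (hPL.deg _) (hw.2.2.2 j) t t' (by linarith only [htabs]) ht'2
    have h2 := hPL.line (f j w) (hξ w hw.1.1 j)
    rw [hx w hw.1.1 j] at h2
    have h3 := hψv (x (f i₀ w))
    have h4 : (v w : ℝ) / 2 ^ b - (PR d b (rc d b K (P (lam (f j w))))).eval t' =
        -(ψ (x (f i₀ w)) - (v w : ℝ) / 2 ^ b) + (ψ (x (f i₀ w)) - (P (lam (f j w))).eval t) +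
        ((P (lam (f j w))).eval t - (PR d b (rc d b K (P (lam (f j w))))).eval t') := by ring
    have h5 : ((d : ℝ) + 1) * 2 ^ d * (d * K * |t - t'| + 1 / 2 ^ b) ≤
        (d + 1) * 2 ^ d * (d * CF + 1) * K / 2 ^ b := by
      have g1 : (d : ℝ) * K * |t - t'| ≤ d * K * (CF / 2 ^ b) :=
        mul_le_mul_of_nonneg_left htt (by positivity)
      have g2 : (1 : ℝ) / 2 ^ b ≤ K / 2 ^ b := div_le_div_of_nonneg_right hK1 h2b.le
      have g3 : (d : ℝ) * K * |t - t'| + 1 / 2 ^ b ≤ (d * CF + 1) * K / 2 ^ b := by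
        have : (d : ℝ) * K * (CF / 2 ^ b) + K / 2 ^ b = (d * CF + 1) * K / 2 ^ b := by ring
        linarith only [g1, g2, this]
      have g4 := mul_le_mul_of_nonneg_left g3 (show 0 ≤ ((d : ℝ) + 1) * 2 ^ d by positivity)
      refine g4.trans (le_of_eq ?_)
      ring
    have h6 : 1 / 2 ^ b + C₀ / 2 ^ b + (d + 1) * 2 ^ d * (d * CF + 1) * K / 2 ^ b ≤ E₁ := by
      have g2 : (1 : ℝ) / 2 ^ b ≤ K / 2 ^ b := div_le_div_of_nonneg_right hK1 h2b.le
      have g3 : C₀ / 2 ^ b ≤ C₀ * K / 2 ^ b :=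
        div_le_div_of_nonneg_right (le_mul_of_one_le_right hC₀0.le hK1) h2b.le
      have g4 : K / 2 ^ b + C₀ * K / 2 ^ b + (d + 1) * 2 ^ d * (d * CF + 1) * K / 2 ^ b = E₁ := by
        rw [hE₁, hκE]
        ring
      linarith only [g2, g3, g4]
    rw [h4]
    have h7 := abs_add_three (-(ψ (x (f i₀ w)) - (v w : ℝ) / 2 ^ b))
      (ψ (x (f i₀ w)) - (P (lam (f j w))).eval t)
      ((P (lam (f j w))).eval t - (PR d b (rc d b K (P (lam (f j w))))).eval t')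
    rw [abs_neg] at h7
    linarith only [h1, h2, h3, h5, h6, h7]
  -- the entropy of the skew position
  have hNg : (0 : ℝ) < ((2 * R * 2 ^ b : ℕ) : ℝ) := by positivity
  have hNgb : (2 : ℝ) ^ b ≤ ((2 * R * 2 ^ b : ℕ) : ℝ) := by
    push_cast
    exact le_mul_of_one_le_left h2b.le (by linarith only [hR1])
  have hlogNg : Real.log ((2 * R * 2 ^ b : ℕ) : ℝ) = Real.log (2 * R) + b * Real.log 2 := by
    push_cast
    rw [Real.log_mul (by positivity) h2b.ne', Real.log_pow]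
  have hEs : n * Real.log ((2 * R * 2 ^ b : ℕ) : ℝ) - CH q s E ≤ κh * S := by
    have h1 : CH q (fun w => bc L b pos (x (f i₀ w))) E ≤ CH q s E +
        CH q (fun w => bc L b pos (x (f i₀ w))) (fun w => (s w, E w)) :=
      CH_le_add hq0 (fun w => bc L b pos (x (f i₀ w))) s E
    have h2 := CH_bc_le hq (fun w => bc L b pos (x (f i₀ w))) (fun w => (s w, E w)) J CF
      (2 ^ b) hCF0 h2b.le hbcM (fun w w' h h' e i => hs1 w (hJt w h) w' (hJt w' h')
        (Prod.ext_iff.mp e).2 (Prod.ext_iff.mp e).1 i)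
    have h3 : Pr q {w | J w = false} ≤ Pr q 𝒲ᶜ := Pr_mono hq fun w _ hw => hJf w hw
    have h4 : Real.log (2 * 2 ^ b + 1) ≤ b + 2 := by
      have g1 : (2 : ℝ) * 2 ^ b + 1 ≤ 2 ^ (b + 2) := by
        rw [pow_add]
        have : (1 : ℝ) ≤ 2 ^ b := one_le_pow₀ (by norm_num)
        linarith only [hD, hC₀, haF, hCF, hκ1_0, hκB_0, hβi, hDle, hb2]
      have g2 := Real.log_le_log (by positivity) g1
      rw [Real.log_pow] at g2
      push_cast at g2
      have g3 : ((b : ℝ) + 2) * Real.log 2 ≤ (b + 2) * 1 :=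
        mul_le_mul_of_nonneg_left hl2' (by positivity)
      linarith only [g2, g3]
    have h5 : Pr q {w | J w = false} * Real.log (2 * 2 ^ b + 1) ≤ S + 2 := by
      have g0 : 0 ≤ Real.log (2 * 2 ^ b + 1) := Real.log_nonneg (by linarith only [hC₀, haF, hCF, hκ1_0, hκB_0, hβi, hDle, hb2])
      have g1 : Pr q {w | J w = false} * Real.log (2 * 2 ^ b + 1) ≤ Pr q 𝒲ᶜ * (b + 2) :=
        mul_le_mul h3 h4 g0 (Pr_nonneg hq _)
      have g2 : Pr q 𝒲ᶜ * (b + 2) = Pr q 𝒲ᶜ * b + Pr q 𝒲ᶜ * 2 := by ring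
      have g3 : Pr q 𝒲ᶜ ≤ 1 := Pr_le_one hq _
      linarith only [hβ₁1, h𝒲b, h𝒲β, g1]
    have h6 : (n : ℝ) * (Real.log (2 * CF + 1) + Pr q {w | J w = false} *
        Real.log (2 * 2 ^ b + 1)) ≤ n * ((2 * CF + 1) + (S + 2)) :=
      mul_le_mul_of_nonneg_left (add_le_add hlogCF h5) hn0
    have h7 : H q (fun w => bc L b pos (x (f i₀ w))) = H p (fun ω => bc L b pos (x ω)) :=
      (hmarg i₀).H (fun ω => bc L b pos (x ω))
    have h8 : CH q (fun w => bc L b pos (x (f i₀ w))) E =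
        H q (fun w => bc L b pos (x (f i₀ w))) - (H q E -
          CH q E (fun w => bc L b pos (x (f i₀ w)))) := by
      have g1 : H q (fun w => (bc L b pos (x (f i₀ w)), E w)) =
          H q (fun w => (E w, bc L b pos (x (f i₀ w)))) := by
        refine H_congr hq0 ?_ ?_ <;>
        · intro w w' _ _ e
          simp only [Prod.mk.injEq] at e ⊢
          tauto
      unfold CH
      rw [g1]
      ring
    have h9 : CN * (e₁ + W0 L κ γ ε) ≤ CN * (2 * S) :=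
      mul_le_mul_of_nonneg_left (by linarith only [he₁, hW0]) (by linarith only [hCN])
    have h10 : (n : ℝ) * Real.log (2 * R) ≤ n * ((6 * aF + 1) * S) :=
      mul_le_mul_of_nonneg_left hlogR2 hn0
    have h11 : κh * S = n * ((6 * aF + 1) * S) + (2 * CN + 1) * S + (n * (2 * CF + 1)) * S +
        3 * n * S + S := by
      rw [hκh]
      ring
    have h13 : (n : ℝ) * (2 * CF + 1) ≤ (n * (2 * CF + 1)) * S :=
      le_mul_of_one_le_right (by positivity) hS1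
    have h14 : (n : ℝ) * 1 ≤ n * S := mul_le_mul_of_nonneg_left hS1 hn0
    rw [hlogNg]
    have h15 : (n : ℝ) * (Real.log (2 * R) + b * Real.log 2) = n * Real.log (2 * R) +
        n * (b * Real.log 2) := by ring
    have h16 : (n : ℝ) * ((2 * CF + 1) + (S + 2)) = n * (2 * CF + 1) + n * S + 2 * (n * 1) := by
      ring
    have h17 : 3 * (n : ℝ) * S = 3 * (n * S) := by ring
    have h18 : (2 * CN + 1) * S = CN * (2 * S) + S := by ring
    have hinf' : H q E - CH q E (fun w => bc L b pos (x (f i₀ w))) ≤ S := hinf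
    linarith only [h11, h15, h16, h17, h18, hS1, hl2'', hinf, hcon2, h1, h2, h6, h7, h8, h9, h10, h13, h14]
  -- the number of ranks
  have hcard : Real.log ((Fintype.card (Fin R₁ × (Fin n → Fin R₁)) : ℝ) + 1) ≤ κc * S := by
    have h1 : (Fintype.card (Fin R₁ × (Fin n → Fin R₁)) : ℝ) = (R₁ : ℝ) ^ (n + 1) := by
      rw [Fintype.card_prod, Fintype.card_fun, Fintype.card_fin, Fintype.card_fin]
      push_cast
      ring
    have h2 : (1 : ℝ) ≤ (R₁ : ℝ) ^ (n + 1) := one_le_pow₀ hR₁1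
    have h3 : Real.log ((R₁ : ℝ) ^ (n + 1) + 1) ≤ Real.log (2 * (R₁ : ℝ) ^ (n + 1)) :=
      Real.log_le_log (by positivity) (by linarith only [h2])
    rw [Real.log_mul (by norm_num) (by positivity), Real.log_pow] at h3
    rw [h1]
    have h4 : ((n + 1 : ℕ) : ℝ) * Real.log R₁ ≤ (n + 1) * ((κr * S + 1) / β₁ + 1) := by
      push_cast
      exact mul_le_mul_of_nonneg_left hlogR' (by positivity)
    have h5 : (κr * S + 1) / β₁ + 1 ≤ ((κr + 1) / β₁ + 1) * S := by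
      have g1 : (κr * S + 1) / β₁ ≤ (κr + 1) / β₁ * S := by
        rw [div_mul_eq_mul_div]
        refine div_le_div_of_nonneg_right ?_ hβ₁0.le
        linarith only [hS1, add_mul κr 1 S]
      linarith only [hS1, g1, add_mul ((κr + 1) / β₁) 1 S]
    have h6 := mul_le_mul_of_nonneg_left h5 (show (0 : ℝ) ≤ (n : ℝ) + 1 by positivity)
    have h7 : κc * S = S + (n + 1) * (((κr + 1) / β₁ + 1) * S) := by
      rw [hκc]
      ring
    linarith only [h7, hS1, hl2'', h3, h4, h6]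
  set Z : ℝ := CB * ((κh * S + 1) / βB ^ 2 +
    Real.log ((Fintype.card (Fin R₁ × (Fin n → Fin R₁)) : ℝ) + 1)) with hZ
  have hZB : Z ≤ κB * S := by
    rw [hZ, hκB, mul_assoc]
    refine mul_le_mul_of_nonneg_left ?_ (by linarith only [hCB])
    have h1 : (κh * S + 1) / βB ^ 2 ≤ (κh + 1) / βB ^ 2 * S := by
      rw [div_mul_eq_mul_div]
      refine div_le_div_of_nonneg_right ?_ (by positivity)
      linarith only [hS1, add_mul κh 1 S]
    linarith only [hcard, h1, add_mul ((κh + 1) / βB ^ 2) κc S]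
  have hZ0 : 0 ≤ Z := by
    have h1 : 0 ≤ Real.log ((Fintype.card (Fin R₁ × (Fin n → Fin R₁)) : ℝ) + 1) :=
      Real.log_nonneg (by
        have : (0 : ℝ) ≤ (Fintype.card (Fin R₁ × (Fin n → Fin R₁)) : ℝ) := Nat.cast_nonneg _
        linarith only)
    have h2 : 0 ≤ κh * S := mul_nonneg hκh_0 hS0.le
    rw [hZ]
    positivity
  have hZlog : Z ≤ Real.log ((2 * R * 2 ^ b : ℕ) : ℝ) := by
    rw [hlogNg]
    have h1 : 0 ≤ Real.log (2 * (R : ℝ)) := Real.log_nonneg (by linarith only [hR1])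
    have h2 := mul_le_mul_of_nonneg_left hl2 hb0
    linarith only [hκS, hZB, h1, h2, hκS.2]
  obtain ⟨i', Q, 𝒜', hA'sub, hA'pr, hi', hQdeg, hQbd, hQA⟩ := hbxl W (Fin n → Fin n → ℤ)
    (Fin R₁ × (Fin n → Fin R₁)) q (2 * R * 2 ^ b) s E r (fun w => (v w : ℝ) / 2 ^ b) Pg (κh * S)
    βB E₁ 𝒜 hq (by
      have : 0 < 2 * R * 2 ^ b := by positivity
      omega) hβB0 hβB1 hE₁0 (mul_nonneg hκh_0 hS0.le) h𝒜c hA1 hA2 hA3 hA4 hEs hZlog
  simp only [← hZ] at hi' hQbd hQA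
  clear_value Z R₁
  have hE₁K : 1 + E₁ ≤ (1 + κE) * K := by
    have h1 : E₁ ≤ κE * K := div_le_self (by positivity) (one_le_pow₀ (by norm_num))
    linarith only [hK1, h1, add_mul 1 κE K]
  have hKZ : K * Real.exp Z ≤ Real.exp ((κ1 + κB) * S) := by
    rw [add_mul, Real.exp_add]
    exact mul_le_mul hKS (Real.exp_le_exp.2 hZB) (Real.exp_pos _).le (Real.exp_pos _).le
  have hκηe : κη * Real.exp ((κ1 + κB) * S) ≤ Real.exp ((κη + κ1 + κB + κc) * S) := by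
    have h1 : κη ≤ Real.exp (κη * S) := by
      have g1 : κη ≤ κη * S := le_mul_of_one_le_right (by linarith only [hκη_1]) hS1
      linarith only [g1, Real.add_one_le_exp (κη * S)]
    have h2 : (κη + κ1 + κB + κc) * S = κη * S + (κ1 + κB) * S + κc * S := by ring
    rw [h2, Real.exp_add, Real.exp_add]
    have h3 : 1 ≤ Real.exp (κc * S) := Real.one_le_exp (mul_nonneg hκc_0 hS0.le)
    have h4 : κη * Real.exp ((κ1 + κB) * S) ≤ Real.exp (κη * S) * Real.exp ((κ1 + κB) * S) :=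
      mul_le_mul_of_nonneg_right h1 (Real.exp_pos _).le
    exact h4.trans (le_mul_of_one_le_right (by positivity) h3)
  have hCPF : 0 ≤ CP * CF * (1 + κE) := by positivity
  refine ⟨Fin R₁ × (Fin n → Fin R₁), inferInstance, r, i',
    fun a r' k => qt b R (Iv a) (Q a r' k), 𝒜', ?_, ?_, ?_, ?_, ?_, ?_⟩
  · refine hcard.trans (mul_le_mul_of_nonneg_right ?_ hS0.le)
    linarith only [hκη, hκ1_0, hκB_0, hκE_1, hCPF]
  · intro w
    refine (hi' w).trans (Real.exp_le_exp.2 ?_)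
    refine hZB.trans (mul_le_mul_of_nonneg_right ?_ hS0.le)
    linarith only [hκη, hκ1_0, hκc_0, hκE_1, hCPF]
  · refine hA'pr.trans (le_of_eq ?_)
    rw [hβB]
    field_simp
  · intro a r' k
    exact qt_deg b R (Iv a) (Q a r' k) d (hQdeg a r' k)
  · intro a r' k y hy
    rw [qt_eval]
    have hbd : ∀ j, |(2 : ℝ) ^ b * (∑ i, Iv a j i * y i + R)| ≤
        4 * ((2 * R * 2 ^ b : ℕ) : ℝ) := by
      intro j
      have g1 : |∑ i, Iv a j i * y i| ≤ R * 2 := by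
        refine (Finset.abs_sum_le_sum_abs _ _).trans ?_
        have g2 : ∀ i ∈ Finset.univ, |Iv a j i * y i| ≤ |Iv a j i| * 2 := by
          intro i _
          rw [abs_mul]
          exact mul_le_mul_of_nonneg_left (hy i) (abs_nonneg _)
        refine (Finset.sum_le_sum g2).trans ?_
        rw [← Finset.sum_mul]
        exact mul_le_mul_of_nonneg_right (hIv a j) (by norm_num)
      rw [abs_mul, abs_of_pos h2b]
      have g3 : |∑ i, Iv a j i * y i + (R : ℝ)| ≤ 3 * R := by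
        refine (abs_add_le _ _).trans ?_
        rw [abs_of_nonneg (show (0 : ℝ) ≤ R by linarith only [hR1])]
        linarith only [g1]
      have g4 := mul_le_mul_of_nonneg_left g3 h2b.le
      refine g4.trans ?_
      have g5 : 0 ≤ (2 : ℝ) ^ b * R := by positivity
      have g6 : ((2 * R * 2 ^ b : ℕ) : ℝ) = 2 * (2 ^ b * R) := by
        push_cast
        ring
      rw [g6]
      linarith only [hC₀, haF, hCF, hκ1_0, hκB_0, hβi, hDle, hb2, hNgb, g6, mul_comm ((2 : ℝ) ^ b) (3 * (R : ℝ)), mul_comm ((2 : ℝ) ^ b) (R : ℝ)]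
    have h1 := hQbd a r' k (fun j => 2 ^ b * (∑ i, Iv a j i * y i + R)) hbd
    refine h1.trans ?_
    have h2 : (1 + E₁) * Real.exp Z ≤ (1 + κE) * (K * Real.exp Z) := by
      rw [← mul_assoc]
      exact mul_le_mul_of_nonneg_right hE₁K (Real.exp_pos _).le
    refine h2.trans (le_trans ?_ hκηe)
    refine mul_le_mul ?_ hKZ (by positivity) (by linarith only [hκη, hκE_1, hCPF])
    linarith only [hκη, hCPF]
  · intro w hw hqw ξ hbcξ hdgξ
    rw [qt_eval]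
    have hwA := hA'sub hw
    have h1 := hQA w hw
    have h2 := hs2 w hwA.1 ξ hbcξ
    have h3 := hψv ξ
    rw [hdgξ] at h3
    set Q₀ := Q (E w) (r w) (i' w) with hQ₀
    set y' : Fin n → ℝ := fun j => 2 ^ b * (∑ i, Iv (E w) j i * ((pos ξ (some i) : ℝ) / 2 ^ L) + R)
      with hy'
    set y₀ : Fin n → ℝ := fun j => ((s w j : ℕ) : ℝ) with hy₀
    have hQ₀d : Q₀.totalDegree ≤ n * d := totalDegree_le_of_degreeOf _ _ (hQdeg _ _ _)
    have h4 := hlip Q₀ ((1 + E₁) * Real.exp Z) (CF * R / ((2 * R * 2 ^ b : ℕ) : ℝ))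
      ((2 * R * 2 ^ b : ℕ) : ℝ) y₀ y' hQ₀d hNg (by
        intro z hz
        refine hQbd _ _ _ z fun j => (hz j).trans ?_
        linarith only [hC₀, haF, hCF, hκ1_0, hκB_0, hβi, hDle, hb2, hNgb]) (by positivity) (by
        rw [div_le_one hNg]
        have g1 : CF * R ≤ 2 ^ b * R := mul_le_mul_of_nonneg_right hCF2 (by linarith only [hR1])
        have g2 : ((2 * R * 2 ^ b : ℕ) : ℝ) = 2 * (2 ^ b * R) := by
          push_cast
          ring
        have g3 : 0 ≤ (2 : ℝ) ^ b * R := by positivity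
        linarith only [hC₀, haF, hCF, hκ1_0, hκB_0, hβi, hDle, hb2, hNgb, g1, g2]) (by
        intro j
        have g1 : ((s w j : ℕ) : ℝ) ≤ ((2 * R * 2 ^ b : ℕ) : ℝ) :=
          Nat.cast_le.2 (s w j).2.le
        show |((s w j : ℕ) : ℝ)| ≤ _
        rw [abs_of_nonneg (Nat.cast_nonneg _)]
        exact g1) (by
        intro j
        rw [div_mul_cancel₀ _ hNg.ne', abs_sub_comm]
        exact h2 j)
    have h5 : CF * R / ((2 * R * 2 ^ b : ℕ) : ℝ) ≤ CF / 2 ^ b := by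
      rw [div_le_div_iff₀ hNg h2b]
      have g2 : ((2 * R * 2 ^ b : ℕ) : ℝ) = 2 * (2 ^ b * R) := by
        push_cast
        ring
      rw [g2]
      have g3 : 0 ≤ CF * ((2 : ℝ) ^ b * R) := by positivity
      linarith only [g3, mul_comm (R : ℝ) (2 ^ b), mul_assoc CF (R : ℝ) (2 ^ b)]
    have h6 : CP * (CF * R / ((2 * R * 2 ^ b : ℕ) : ℝ) * ((1 + E₁) * Real.exp Z)) ≤
        CP * CF * (1 + κE) * (K * Real.exp Z) / 2 ^ b := by
      have g1 : (1 + E₁) * Real.exp Z ≤ (1 + κE) * (K * Real.exp Z) := by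
        rw [← mul_assoc]
        exact mul_le_mul_of_nonneg_right hE₁K (Real.exp_pos _).le
      have g2 := mul_le_mul h5 g1 (by positivity) (by positivity)
      have g3 := mul_le_mul_of_nonneg_left g2 hCP
      refine g3.trans (le_of_eq ?_)
      ring
    have h7 : E₁ * Real.exp Z = κE * (K * Real.exp Z) / 2 ^ b := by
      rw [hE₁]
      ring
    have h8 : (1 : ℝ) / 2 ^ b ≤ (K * Real.exp Z) / 2 ^ b := by
      refine div_le_div_of_nonneg_right ?_ h2b.le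
      have := Real.one_le_exp hZ0
      exact one_le_mul_of_one_le_of_one_le hK1 this
    have h9 : ψ ξ - MvPolynomial.eval y' Q₀ = (ψ ξ - (v w : ℝ) / 2 ^ b) +
        ((v w : ℝ) / 2 ^ b - MvPolynomial.eval y₀ Q₀) -
        (MvPolynomial.eval y' Q₀ - MvPolynomial.eval y₀ Q₀) := by ring
    have h10 : |ψ ξ - MvPolynomial.eval y' Q₀| ≤ 1 / 2 ^ b + E₁ * Real.exp Z +
        CP * (CF * R / ((2 * R * 2 ^ b : ℕ) : ℝ) * ((1 + E₁) * Real.exp Z)) := by
      rw [h9]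
      refine (abs_sub _ _).trans (add_le_add ((abs_add_le _ _).trans (add_le_add h3 h1)) h4)
    have h11 : (K * Real.exp Z) / 2 ^ b + κE * (K * Real.exp Z) / 2 ^ b +
        CP * CF * (1 + κE) * (K * Real.exp Z) / 2 ^ b = κη * (K * Real.exp Z) / 2 ^ b := by
      rw [hκη]
      ring
    have h12 : κη * (K * Real.exp Z) / 2 ^ b ≤
        Real.exp ((κη + κ1 + κB + κc) * S) / 2 ^ b := by
      refine div_le_div_of_nonneg_right ?_ h2b.le
      exact (mul_le_mul_of_nonneg_left hKZ (by linarith only [hκη, hκE_1, hCPF])).trans hκηe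
    linarith only [h6, h7, h8, h10, h11, h12]

end Pool.KBX
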