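import Pool.Agent.H84.KBOX.BlkE
import Pool.Agent.H84.KBOX.LabU

/-!
# The block lemma: assembly, with constants which do not depend on `δ`
-/

set_option autoImplicit false

namespace Pool.KBX

open Finset Real MeasureTheory
open Pool.Agent.H49.Ent Pool.Agent.H32.Dense Pool.STK Pool.KAF Pool.KAL Pool.KS3

theorem blku_of (hLAB : LABUStmt) (hCHR : CHRStmt) (hCON : CONStmt) : BLKUStmt := by
  classical
  intro n d C₀ hC₀
  obtain ⟨κ', c₁, hκ', hc₁, hlab⟩ := hLAB n d C₀ (1 / 1000) hC₀ (by norm_num)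
    (by norm_num)
  obtain ⟨CR, hCR, hchr⟩ := hCHR (n * d + 2)
  obtain ⟨CN, hCN, hcon⟩ := hCON n d C₀ hC₀
  obtain ⟨CM, hCM, hmix⟩ := mix_thm n C₀ hC₀
  obtain ⟨CP, hCP, hlip⟩ := lip_le n (n * d)
  have hn0 : (0 : ℝ) ≤ n := Nat.cast_nonneg n
  set Kη : ℝ := 1 + C₀ + CP * C₀ with hKη
  have hKη1 : 1 ≤ Kη := by
    have : 0 ≤ CP * C₀ := by positivity
    linarith
  set κI : ℝ := 2 + 2 * κ' + 3 * CN with hκI
  have hκI0 : 0 ≤ κI := by positivity
  set D : ℝ := 1 / c₁ + 20 * (Kη + κ' + CR * (κI + 1)) with hD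
  have hD0 : 0 < D := by positivity
  refine ⟨2 * n + 4 + 2 * CM + CR, 1 / D, by linarith only [hCR, hCM], by positivity, ?_⟩
  intro Ω Λ Ξ W _ _ p lam x T pos A B i₀ L κ γ b N δ ε e₁ e₃ ψ P q f hLF hTC hbL hPL hq hmarg
    hx hdet hinf hsm
  have hp := hLF.leaf.isLaw
  have hp0 := hp.nonneg
  have hq0 := hq.nonneg
  have he₁0 := hLF.e₁_nonneg
  have he₃0 := hLF.e₃_nonneg
  have hb0 : (0 : ℝ) ≤ b := Nat.cast_nonneg b
  have hN0 : (0 : ℝ) ≤ N := Nat.cast_nonneg N
  have hL0 : (0 : ℝ) ≤ L := Nat.cast_nonneg L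
  have hn1 : 1 ≤ n := by
    have := i₀.2
    omega
  have hn1r : (1 : ℝ) ≤ n := by exact_mod_cast hn1
  set S : ℝ := 1 / D * b with hS
  have hW1 : 1 ≤ W0 L κ γ ε := by
    unfold W0
    have h1 : 0 ≤ (L : ℝ) / κ := by positivity
    have h2 : 0 ≤ ε * L := mul_nonneg hLF.ε_nonneg hL0
    have h3 : (0 : ℝ) ≤ γ := Nat.cast_nonneg γ
    have h4 : (0 : ℝ) ≤ κ := Nat.cast_nonneg κ
    linarith only [h1, h2]
  have hNe : 0 ≤ (N : ℝ) * (e₁ + 1) := by positivity
  have hsm' : (N : ℝ) * (e₁ + 1) + (e₁ + 1) + e₃ + W0 L κ γ ε ≤ S := by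
    have : ((N : ℝ) + 1) * (e₁ + 1) = N * (e₁ + 1) + (e₁ + 1) := by ring
    linarith only [hsm]
  have hS1 : 1 ≤ S := by linarith only [he₁0, he₃0, hsm, hW1, hNe]
  have hS0 : 0 < S := by linarith only [he₁0, he₃0, hsm, hW1, hNe]
  have hDS : D * S = b := by
    rw [hS]
    field_simp
  have hDS1 : 1 / c₁ * S + 20 * ((Kη + κ' + CR * (κI + 1)) * S) = b := by
    rw [← hDS, hD]
    ring
  have hc₁S : 0 ≤ 1 / c₁ * S := by positivity
  have hKS : (Kη + κ' + CR * (κI + 1)) * S ≤ b / 20 := by linarith only [hDS, hc₁S]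
  have hScb : S ≤ c₁ * b := by
    have h1 : 1 / c₁ * S ≤ b := by
      have : 0 ≤ (Kη + κ' + CR * (κI + 1)) * S := by positivity
      linarith only [hDS, this]
    have h2 : S = c₁ * (1 / c₁ * S) := by field_simp
    rw [h2]
    exact mul_le_mul_of_nonneg_left h1 hc₁.le
  have hp1 : 0 ≤ Kη * S := by positivity
  have hp2 : 0 ≤ κ' * S := by positivity
  have hp3 : 0 ≤ CR * (κI + 1) * S := by positivity
  have hsplit : (Kη + κ' + CR * (κI + 1)) * S = Kη * S + κ' * S + CR * (κI + 1) * S := by ring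
  have hb20 : (20 : ℝ) ≤ b := by
    have : 1 ≤ Kη * S := one_le_mul_of_one_le_of_one_le hKη1 hS1
    linarith only [hDS, hc₁S, hp2, hp3, this]
  have h2b : (0 : ℝ) < 2 ^ b := by positivity
  have hl2 : (0.69 : ℝ) ≤ Real.log 2 := by
    have := Real.log_two_gt_d9
    linarith only [this]
  have hl2' : Real.log 2 ≤ 0.7 := by
    have := Real.log_two_lt_d9
    linarith only [this]
  have hlogb : Real.log ((2 : ℝ) ^ b) = b * Real.log 2 := by
    rw [Real.log_pow]
  have hbl : 0.69 * (b : ℝ) ≤ b * Real.log 2 := by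
    have := mul_le_mul_of_nonneg_left hl2 hb0
    linarith only [this]
  have hbl' : (b : ℝ) * Real.log 2 ≤ 0.7 * b := by
    have := mul_le_mul_of_nonneg_left hl2' hb0
    linarith only [this]
  set E : W → Fin n → Fin n → ℤ := fun w => fr b fun j i => B (lam (f j w)) (some i) with hE
  obtain ⟨𝓡, _, r, i, Q, 𝒜, hcard, hi, h𝒜, hQd, hQb, hQ𝒜⟩ := hlab Ω Λ Ξ W p lam x T pos A B i₀ L κ
    γ b δ ε e₁ e₃ S ψ P q f hLF hTC hbL hPL hq hmarg hx (by
      have := mul_le_mul_of_nonneg_right hdet hb0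
      exact this) (by exact hinf) hS1 hScb (by linarith only [he₃0, hsm, hW1, hNe]) (by linarith only [he₁0, hsm, hW1, hNe]) (by linarith only [he₁0, he₃0, hsm, hNe])
  have hZ : 0 ≤ κ' * S := hp2
  set e : ℝ := Real.exp (κ' * S) with he
  have he1 : 1 ≤ e := Real.one_le_exp hZ
  set η : ℝ := Kη * e / 2 ^ b with hη
  have hη0 : 0 < η := by positivity
  have hKe : Kη * e ≤ Real.exp (b / 20) := by
    have h1 : Kη ≤ Real.exp (Kη * S) := by
      have g1 : Kη ≤ Kη * S := le_mul_of_one_le_right (by linarith only [hKη1]) hS1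
      linarith only [g1, Real.add_one_le_exp (Kη * S)]
    calc Kη * e ≤ Real.exp (Kη * S) * Real.exp (κ' * S) :=
          mul_le_mul_of_nonneg_right h1 (Real.exp_pos _).le
      _ = Real.exp (Kη * S + κ' * S) := (Real.exp_add _ _).symm
      _ ≤ _ := Real.exp_le_exp.2 (by linarith only [hDS, hc₁S, hp3])
  have hexpb : Real.exp (b / 20) ≤ 2 ^ b := by
    rw [← Real.exp_log h2b, hlogb]
    exact Real.exp_le_exp.2 (by linarith only [hb20, hbl])
  have hη1 : η ≤ 1 := by
    rw [hη, div_le_one h2b]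
    exact hKe.trans hexpb
  have hlogη : Real.log η = Real.log Kη + κ' * S - b * Real.log 2 := by
    rw [hη, Real.log_div (by positivity) h2b.ne', Real.log_mul (by linarith only [hKη1]) (by linarith only [he1]), he,
      Real.log_exp, hlogb]
  have hlogK : 0 ≤ Real.log Kη := Real.log_nonneg hKη1
  have hlogK' : Real.log Kη ≤ Kη * S := by
    have h1 := Real.log_le_sub_one_of_pos (show 0 < Kη by linarith only [hKη1])
    have g1 : Kη ≤ Kη * S := le_mul_of_one_le_right (by linarith only [hKη1]) hS1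
    linarith only [h1, g1]
  have hcast : (((2 ^ L : ℕ) : ℕ) : ℝ) = (2 : ℝ) ^ L := by push_cast; rfl
  -- the functions
  set F : (Fin n → Fin n → ℤ) × (𝓡 × ℕ) → Ξ → ℝ := fun a ξ => ψ ξ -
    MvPolynomial.eval (fun j => (pos ξ (some j) : ℝ) / 2 ^ L) (Q a.1 a.2.1 a.2.2) with hF
  set PF : (Fin n → Fin n → ℤ) × (𝓡 × ℕ) → Λ → Polynomial ℝ := fun a l => P l -
    rl (Q a.1 a.2.1 a.2.2) (fun j => A l (some j)) (fun j => B l (some j)) with hPF
  set lb : W → (Fin n → Fin n → ℤ) × (𝓡 × ℕ) := fun w => (E w, (r w, i w)) with hlb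
  set g : W → ℝ := fun w => if w ∈ 𝒜 then Real.log η else Real.log (1 + e) with hg
  set e₄ : ℝ := (1 - 1 / n) ^ N * (n * (L * Real.log 2) + e₃) +
    (n * e₁ + e₃ + CM * W0 L κ γ ε) with he₄
  have hr0 : 0 ≤ (1 - 1 / (n : ℝ)) ^ N ∧ (1 - 1 / (n : ℝ)) ^ N ≤ 1 := by
    have h1 : 0 ≤ 1 - 1 / (n : ℝ) := by
      rw [sub_nonneg, div_le_one (by linarith only [hn1r])]
      exact hn1r
    have h2 : 1 - 1 / (n : ℝ) ≤ 1 := by
      have : 0 ≤ 1 / (n : ℝ) := by positivity
      linarith only [this]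
    exact ⟨pow_nonneg h1 N, pow_le_one₀ h1 h2⟩
  have hlog20 : 0 < Real.log 2 := by linarith only [hl2]
  have he₄0 : 0 ≤ e₄ := by
    have h1 := hr0.1
    have h2 : 0 ≤ CM * W0 L κ γ ε := mul_nonneg hCM (by linarith only [hW1])
    have h3 : 0 ≤ (1 - 1 / (n : ℝ)) ^ N * (n * (L * Real.log 2) + e₃) :=
      mul_nonneg h1 (by positivity)
    have h4 : 0 ≤ (n : ℝ) * e₁ := by positivity
    linarith only [he₃0, h2, h3, h4]
  have hFb : ∀ a : (Fin n → Fin n → ℤ) × (𝓡 × ℕ), ∀ ω, 0 < p ω → |F a (x ω)| ≤ 1 + e := by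
    intro a ω hω
    have h1 := hPL.bound ω hω
    have h2 := hQb a.1 a.2.1 a.2.2 (fun j => (pos (x ω) (some j) : ℝ) / 2 ^ L) (by
      intro j
      have g1 := hLF.leaf.pos_lt ω (some j)
      have g2 : (pos (x ω) (some j) : ℝ) ≤ 2 ^ L := by exact_mod_cast g1.le
      rw [abs_of_nonneg (by positivity)]
      have : (pos (x ω) (some j) : ℝ) / 2 ^ L ≤ 1 := by
        rw [div_le_one (by positivity)]
        exact g2
      linarith only [this])
    simp only [hF]
    exact (abs_sub _ _).trans (add_le_add h1 h2)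
  have hbL2 : (2 : ℝ) ^ b ≤ 2 ^ L := pow_le_pow_right₀ (by norm_num) hbL
  have h2L : (0 : ℝ) < 2 ^ L := by positivity
  have hPFd : ∀ w l, (PF (lb w) l).natDegree ≤ n * d + 2 := by
    intro w l
    simp only [hPF]
    refine (Polynomial.natDegree_sub_le _ _).trans (max_le ((hPL.deg l).trans ?_)
      ((rl_deg _ _ _ (hQd _ _ _)).trans (by omega)))
    have := Nat.le_mul_of_pos_left d hn1
    omega
  have hlog1e : Real.log (1 + e) ≤ 1 + κ' * S := by
    have h1 : 1 + e ≤ 2 * e := by linarith only [he1]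
    have h2 := Real.log_le_log (show 0 < 1 + e by linarith only [he1]) h1
    rw [Real.log_mul (by norm_num) (by linarith only [he1]), he, Real.log_exp] at h2
    linarith only [hl2', h2]
  obtain ⟨w, -, hqw, hpr⟩ := hchr Ω Λ Ξ W ((Fin n → Fin n → ℤ) × (𝓡 × ℕ)) ((Fin n → ℕ) × ℤ) p lam x
    T (2 ^ L) N q (fun ξ => (bc L b pos ξ, dg b ψ ξ))
    (fun w => (bc L b pos (x (f i₀ w)), dg b ψ (x (f i₀ w)))) lb F PF g η e₁ e₄ Set.univ hp hq (by
      have : 1 ≤ L := by
        have : 1 ≤ b := by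
          have : (1 : ℝ) ≤ b := by linarith only [hb20]
          exact_mod_cast this
        omega
      calc 2 = 2 ^ 1 := by norm_num
        _ ≤ 2 ^ L := Nat.pow_le_pow_right (by norm_num) this) hLF.leaf.T_lt
    (fun z => (hmarg i₀).law (fun ω => (bc L b pos (x ω), dg b ψ (x ω))) z) hη0 hη1 hPFd (by
      -- the line polynomials
      intro w hw ω hω
      rw [hcast]
      simp only [hPF, hF]
      rw [Polynomial.eval_sub, rl_eval]
      set Q₀ := Q (lb w).1 (lb w).2.1 (lb w).2.2 with hQ₀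
      set y : Fin n → ℝ := fun j => (pos (x ω) (some j) : ℝ) / 2 ^ L with hy
      set y' : Fin n → ℝ := fun j => A (lam ω) (some j) +
        (T (x ω) : ℝ) / 2 ^ L * B (lam ω) (some j) with hy'
      have h1 := hPL.line ω hω
      have h3 := hlip Q₀ e (C₀ / 2 ^ L) 1 y y' (hQd _ _ _) one_pos (by
        intro z hz
        exact hQb _ _ _ z fun j => (hz j).trans (by norm_num)) (by positivity) (by
        rw [div_le_one h2L]
        have g1 : C₀ ≤ Kη := by
          have : 0 ≤ CP * C₀ := by positivity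
          linarith only [this]
        have g2 : Kη ≤ 2 ^ b := by
          have k1 : Kη ≤ Kη * e := le_mul_of_one_le_right (by linarith only [hKη1]) he1
          exact k1.trans (hKe.trans hexpb)
        linarith only [hbL2, g1, g2]) (by
        intro j
        have g1 := hLF.leaf.pos_lt ω (some j)
        have g2 : (pos (x ω) (some j) : ℝ) ≤ 2 ^ L := by exact_mod_cast g1.le
        simp only [hy]
        rw [abs_of_nonneg (by positivity), div_le_one h2L]
        exact g2) (by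
        intro j
        have g1 := hLF.leaf.near ω (some j)
        rw [hcast] at g1
        rw [mul_one, abs_sub_comm]
        exact g1)
      have h4 : ψ (x ω) - MvPolynomial.eval y Q₀ - ((P (lam ω)).eval ((T (x ω) : ℝ) / 2 ^ L) -
          MvPolynomial.eval y' Q₀) = (ψ (x ω) - (P (lam ω)).eval ((T (x ω) : ℝ) / 2 ^ L)) +
          (MvPolynomial.eval y' Q₀ - MvPolynomial.eval y Q₀) := by ring
      rw [h4]
      refine (abs_add_le _ _).trans ((add_le_add h1 h3).trans ?_)
      have h5 : CP * (C₀ / 2 ^ L * e) ≤ CP * C₀ * e / 2 ^ b := by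
        have k1 : C₀ / 2 ^ L ≤ C₀ / 2 ^ b := div_le_div_of_nonneg_left (by linarith only [hC₀]) h2b hbL2
        have k2 := mul_le_mul_of_nonneg_left (mul_le_mul_of_nonneg_right k1 (by linarith only [he1] : 0 ≤ e))
          hCP
        refine k2.trans (le_of_eq ?_)
        ring
      have h6 : C₀ / 2 ^ b ≤ C₀ * e / 2 ^ b :=
        div_le_div_of_nonneg_right (le_mul_of_one_le_right (by linarith only [hC₀]) he1) h2b.le
      have h7 : η = e / 2 ^ b + C₀ * e / 2 ^ b + CP * C₀ * e / 2 ^ b := by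
        rw [hη, hKη]
        ring
      have h8 : 0 ≤ e / 2 ^ b := by positivity
      linarith only [h5, h6, h7, h8]) (by
      intro w hw ω hω
      refine (hFb (lb w) ω hω).trans ?_
      rw [hcast]
      have h1 : ((2 : ℝ) ^ L) ^ 2 ≤ ((2 : ℝ) ^ L) ^ (n * d + 2) :=
        pow_le_pow_right₀ (one_le_pow₀ (by norm_num)) (by omega)
      have h2 : (2 : ℝ) ^ b * 2 ^ b ≤ ((2 : ℝ) ^ L) ^ 2 := by
        rw [sq]
        exact mul_le_mul hbL2 hbL2 h2b.le h2L.le
      have h3 : (2 : ℝ) ^ b * (Kη * e) ≤ ((2 : ℝ) ^ L) ^ (n * d + 2) * η := by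
        have k1 : (2 : ℝ) ^ b * (Kη * e) = (2 ^ b * 2 ^ b) * η := by
          rw [hη]
          field_simp
        rw [k1]
        exact mul_le_mul_of_nonneg_right (h2.trans h1) hη0.le
      refine le_trans ?_ h3
      have h4 : (2 : ℝ) ≤ 2 ^ b := by linarith only [hb20, hexpb, hexpb, Real.add_one_le_exp ((b : ℝ) / 20)]
      have h5 : e ≤ Kη * e := le_mul_of_one_le_left (by linarith only [he1]) hKη1
      have h6 : 2 * (Kη * e) ≤ 2 ^ b * (Kη * e) := mul_le_mul_of_nonneg_right h4 (by linarith only [hl2', he1, hlog20, h5])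
      linarith only [he1, h5, h6]) (by
      intro w hw ω hω hζ
      have hz1 : bc L b pos (x ω) = bc L b pos (x (f i₀ w)) := (Prod.ext_iff.mp hζ).1
      have hz2 : dg b ψ (x ω) = dg b ψ (x (f i₀ w)) := (Prod.ext_iff.mp hζ).2
      by_cases hA : w ∈ 𝒜
      · have h1 := hQ𝒜 w hA hw (x ω) hz1 hz2
        simp only [hg]
        rw [if_pos hA]
        have h2 : |F (lb w) (x ω)| ≤ η := by
          refine le_trans h1 ?_
          rw [hη]
          exact div_le_div_of_nonneg_right (le_mul_of_one_le_left (by linarith only [he1]) hKη1) h2b.le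
        rw [max_eq_right h2]
      · simp only [hg]
        rw [if_neg hA]
        refine Real.log_le_log (lt_max_of_lt_right hη0) (max_le (hFb _ ω hω) ?_)
        linarith only [hl2', he1, hη1, hlog20]) he₁0 (by
      rw [hcast, Real.log_pow]
      exact hLF.time) he₄0 (by
      intro V _ ρ o o' l y hch
      have h1 := hmix Ω Λ Ξ V p lam x T pos A B L κ γ N ρ o o' l y δ ε e₁ e₃ (fun _ => ε) hLF.leaf
        hch hLF.δ_pos (fun _ => hLF.ε_nonneg) (by
          rw [Ex_const hp.sum_one]) hLF.ncf hLF.det hLF.κ_pos hLF.time he₁0 he₃0 hLF.thin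
      exact h1) (by
      rw [Set.compl_univ, Pr_eq]
      simp)
  -- the conclusion
  have hEx : Ex q g - Real.log η ≤ b / 500 := by
    have h1 : Ex q g - Real.log η = Ex q (fun w => g w - Real.log η) := by
      rw [Ex_sub, Ex_const hq.sum_one]
    have h2 : Ex q (fun w => g w - Real.log η) ≤
        Ex q (fun w => 2 * b * (if w ∈ 𝒜ᶜ then (1 : ℝ) else 0)) := by
      refine Ex_mono hq0 fun w _ => ?_
      simp only [hg]
      by_cases hA : w ∈ 𝒜
      · simp [hA]
      · rw [if_neg hA, if_pos (show w ∈ 𝒜ᶜ from hA), mul_one, hlogη]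
        linarith only [hb20, hl2', hbl', hlogK, hlog20, hlog1e]
    rw [Ex_smul, ← Pr_eq_Ex] at h2
    have h3 : 2 * (b : ℝ) * Pr q 𝒜ᶜ ≤ 2 * b * (1 / 1000) :=
      mul_le_mul_of_nonneg_left h𝒜 (by linarith only [hb20])
    rw [h1]
    linarith only [h2, h3]
  have hI : H q lb - CH q lb (fun w => (bc L b pos (x (f i₀ w)), dg b ψ (x (f i₀ w)))) ≤
      κI * S := by
    have h1 := info_le hq E r i (fun w => bc L b pos (x (f i₀ w)))
      (fun w => dg b ψ (x (f i₀ w))) (κ' * S) hcard hi hZ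
    have h2 : CH q (fun w => dg b ψ (x (f i₀ w))) (fun w => bc L b pos (x (f i₀ w))) =
        CH p (fun ω => dg b ψ (x ω)) (fun ω => bc L b pos (x ω)) :=
      (hmarg i₀).CH (fun ω => dg b ψ (x ω)) (fun ω => bc L b pos (x ω))
    have h3 := (hcon Ω Λ Ξ p lam x T pos A B L κ γ b δ ε e₁ e₃ ψ P hLF hbL hPL).1
    have h4 : CN * (e₁ + e₃ + W0 L κ γ ε) ≤ CN * (3 * S) :=
      mul_le_mul_of_nonneg_left (by linarith only [he₁0, he₃0, hsm, hW1, hNe]) (by linarith only [hCN])
    have h5 : H q E - CH q E (fun w => bc L b pos (x (f i₀ w))) ≤ S := hinf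
    have h6 : κI * S = 2 * S + 2 * (κ' * S) + CN * (3 * S) := by
      rw [hκI]
      ring
    have h7 : H q lb - CH q lb (fun w => (bc L b pos (x (f i₀ w)), dg b ψ (x (f i₀ w)))) ≤
        (H q E - CH q E (fun w => bc L b pos (x (f i₀ w)))) +
        CH q (fun w => dg b ψ (x (f i₀ w))) (fun w => bc L b pos (x (f i₀ w))) +
        (2 * (κ' * S) + 1) := h1
    linarith only [he₁0, he₃0, hsm, hW1, hNe, hl2', hinf, hlog20, h1, h2, h3, h4]
  exact by
   refine ⟨Q (E w) (r w) (i w), hQd _ _ _, ?_, ?_⟩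
   · intro y hy
     refine (hQb _ _ _ y hy).trans ?_
     rw [he, Real.rpow_def_of_pos (by norm_num)]
     refine Real.exp_le_exp.2 ?_
     have : Real.log 2 * ((b : ℝ) / 8) = b * Real.log 2 / 8 := by ring
     rw [this]
     linarith only [hDS, hc₁S, hp1, hp3, hb20, hbl]
   · have hexp : Real.exp (-((2 * n + 4 + 2 * CM + CR) * ((1 - 1 / n) ^ N * L + e₁ + e₃ +
         W0 L κ γ ε))) ≤ Real.exp (-(2 * e₄ + CR)) := by
       refine Real.exp_le_exp.2 (neg_le_neg ?_)
       set ρ : ℝ := (1 - 1 / (n : ℝ)) ^ N with hρ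
       have h1 : ρ * (n * (L * Real.log 2) + e₃) ≤ n * (ρ * L) + e₃ := by
         have k1 : ρ * (n * (L * Real.log 2)) ≤ n * (ρ * L) := by
           have : L * Real.log 2 ≤ (L : ℝ) * 1 := mul_le_mul_of_nonneg_left (by linarith only [hl2']) hL0
           have k2 := mul_le_mul_of_nonneg_left (mul_le_mul_of_nonneg_left this hn0) hr0.1
           refine k2.trans (le_of_eq ?_)
           ring
         have k3 : ρ * e₃ ≤ 1 * e₃ := mul_le_mul_of_nonneg_right hr0.2 he₃0
         rw [mul_add]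
         linarith only [k1, k3]
       have hρL : 0 ≤ ρ * L := mul_nonneg hr0.1 hL0
       have hW : 0 ≤ W0 L κ γ ε := by linarith only [hW1]
       have h2 : CR ≤ CR * W0 L κ γ ε := le_mul_of_one_le_right (by linarith only [hCR]) hW1
       have m1 : 0 ≤ (n : ℝ) * e₁ := by positivity
       have m2 : 0 ≤ (n : ℝ) * e₃ := by positivity
       have m3 : 0 ≤ (n : ℝ) * W0 L κ γ ε := by positivity
       have m4 : 0 ≤ CM * (ρ * L) := by positivity
       have m5 : 0 ≤ CM * e₁ := by positivity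
       have m6 : 0 ≤ CM * e₃ := by positivity
       have m7 : 0 ≤ CR * (ρ * L) := by positivity
       have m8 : 0 ≤ CR * e₁ := by positivity
       have m9 : 0 ≤ CR * e₃ := by positivity
       have e1 : (2 * n + 4 + 2 * CM + CR) * (ρ * L + e₁ + e₃ + W0 L κ γ ε) =
           2 * (n * (ρ * L)) + 2 * (n * e₁) + 2 * (n * e₃) + 2 * (n * W0 L κ γ ε) +
           4 * (ρ * L) + 4 * e₁ + 4 * e₃ + 4 * W0 L κ γ ε + 2 * (CM * (ρ * L)) + 2 * (CM * e₁) +
           2 * (CM * e₃) + 2 * (CM * W0 L κ γ ε) + CR * (ρ * L) + CR * e₁ + CR * e₃ +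
           CR * W0 L κ γ ε := by ring
       rw [he₄, e1]
       linarith only [he₁0, hW1, h1, hρL, h2, m2, m3, m4, m5, m6, m7, m8, m9]
     exact by
      refine hexp.trans (hpr.trans (Pr_mono hp fun ω _ hω => ?_))
      have hω' : |F (lb w) (x ω)| ≤ η * Real.exp (4 * (Ex q g - Real.log η) +
        CR * ((H q lb - CH q lb (fun w => (bc L b pos (x (f i₀ w)), dg b ψ (x (f i₀ w))))) +
          N * (e₁ + 1))) := hω
      have h1 : η * Real.exp (4 * (Ex q g - Real.log η) +
          CR * ((H q lb - CH q lb (fun w => (bc L b pos (x (f i₀ w)), dg b ψ (x (f i₀ w))))) +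
          N * (e₁ + 1))) ≤ (2 : ℝ) ^ (-(3 * (b : ℝ) / 4)) := by
        rw [Real.rpow_def_of_pos (by norm_num)]
        rw [← Real.exp_log hη0, ← Real.exp_add]
        refine Real.exp_le_exp.2 ?_
        rw [Real.exp_log hη0, hlogη]
        have k1 : CR * ((H q lb - CH q lb (fun w => (bc L b pos (x (f i₀ w)),
            dg b ψ (x (f i₀ w))))) + N * (e₁ + 1)) ≤ CR * (κI + 1) * S := by
          rw [mul_assoc]
          refine mul_le_mul_of_nonneg_left ?_ (by linarith only [hCR])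
          linarith only [he₁0, he₃0, hsm, hW1, hI, add_mul κI 1 S]
        have k2 : Real.log 2 * -(3 * (b : ℝ) / 4) = -(3 / 4) * (b * Real.log 2) := by ring
        rw [k2]
        rw [hlogη] at hEx
        linarith only [hDS, hc₁S, hb20, hl2', hbl, hlogK', hlog20, hEx, k1]
      exact by
       show |ψ (x ω) - MvPolynomial.eval (fun i => rp (2 ^ L) pos (x ω) (some i))
         (Q (E w) (r w) (i w))| ≤ _
       have h2 : (fun j => rp (2 ^ L) pos (x ω) (some j)) =
           fun j => (pos (x ω) (some j) : ℝ) / 2 ^ L := by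
         funext j
         unfold rp
         rw [hcast]
       rw [h2]
       exact hω'.trans h1

end Pool.KBX
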