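import Pool.Agent.H84.KBOX.Blk
import Pool.Agent.H84.KBOX.BlkU

/-!
# The block lemma, uniform form
-/

set_option autoImplicit false

namespace Pool.KBX

theorem labu_thm : LABUStmt := labu_of con_all sup_thm (lda_thm con_all) rnk_thm bxl_thm

/-- **The block lemma**, the constants do not depend on `δ`. -/
theorem blku_thm : BLKUStmt := blku_of labu_thm Pool.Agent.H81.KBX.chr_thm con_all

end Pool.KBX
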