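import Pool.Agent.H84.KBOX.Reg
import Pool.Agent.H84.KBOX.BlkUT
import Pool.Agent.H40.KBX.CEL
import Pool.Agent.H39.KBX.GSC
import Pool.Agent.H36.KBX.LPC
import Pool.Agent.H3.KBX.TSC
import Pool.Agent.H63.KBX.TUP
import Pool.Agent.H67.KBX.STBP
import Pool.Agent.H60.KBX.SLI

/-!
# Regularity of a leaf: the theorem
-/

set_option autoImplicit false

namespace Pool.KBX

/-- **Regularity of a leaf.** -/
theorem reg_thm : REGStmt :=
  reg_of (fun n d C₀ hd hC₀ => cstep blku_thm Pool.Agent.H40.KBX.cel_thm Pool.Agent.H36.KBX.lpc_thm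
      Pool.Agent.H3.KBX.tsc_thm Pool.Agent.H63.KBX.tup_thm n d C₀ hd hC₀)
    Pool.Agent.H39.KBX.gsc_thm Pool.Agent.H67.KBX.stbp_thm Pool.Agent.H60.KBX.sli_thm

end Pool.KBX
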