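import Pool.Agent.H84.KBOX.BlkD
import Pool.Agent.H84.KBOX.BlkE
import Pool.Agent.H67.KBX.CRO
import Pool.Agent.H87.KBX.Conti
import Pool.Agent.H87.KBX.Sup
import Pool.Agent.H20.KBX.LDA
import Pool.Agent.H43.KBX.RNK
import Pool.Agent.H4.KBX.BXL
import Pool.Agent.H22.KBX.FRB
import Pool.Agent.H81.KBX.CHR

/-!
# The block lemma
-/

set_option autoImplicit false

namespace Pool.KBX

theorem con_all : CONStmt := con_thm Pool.Agent.H67.KBX.cro_thm

theorem lab_thm : LABStmt := lab_of con_all sup_thm (lda_thm con_all) rnk_thm bxl_thm frb_thm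

/-- **The block lemma.** -/
theorem blk_thm : BLKStmt := blk_of lab_thm Pool.Agent.H81.KBX.chr_thm con_all

end Pool.KBX
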