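import Pool.Agent.H84.KBOX.BlkA
import Pool.Agent.H55.KS3.SML

/-!
# The block lemma: polynomials on lines, change of coordinates, ranks
-/

set_option autoImplicit false

namespace Pool.KBX

open Finset Real MeasureTheory
open Pool.Agent.H49.Ent Pool.Agent.H32.Dense Pool.STK Pool.KAF Pool.KAL Pool.KS3

section Line

/-- The polynomial with the given rounded coefficients. -/
noncomputable def PR (d b : ℕ) (c : Fin (d + 1) → ℤ) : Polynomial ℝ :=
  ∑ i, Polynomial.C ((c i : ℝ) / 2 ^ b) * Polynomial.X ^ (i : ℕ)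

theorem PR_deg (d b : ℕ) (c : Fin (d + 1) → ℤ) : (PR d b c).natDegree ≤ d := by
  unfold PR
  refine Polynomial.natDegree_sum_le_of_forall_le _ _ fun i _ => ?_
  refine (Polynomial.natDegree_C_mul_X_pow_le _ _).trans ?_
  have := i.2
  omega

theorem PR_eval (d b : ℕ) (c : Fin (d + 1) → ℤ) (t : ℝ) :
    (PR d b c).eval t = ∑ i, (c i : ℝ) / 2 ^ b * t ^ (i : ℕ) := by
  unfold PR
  rw [Polynomial.eval_finsetSum]
  exact Finset.sum_congr rfl fun i _ => by simp

theorem pow_sub_le (M t s : ℝ) (hM : 1 ≤ M) (ht : |t| ≤ M) (hs : |s| ≤ M) (i : ℕ) :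
    |t ^ i - s ^ i| ≤ i * M ^ i * |t - s| := by
  induction i with
  | zero => simp
  | succ i ih =>
    have e : t ^ (i + 1) - s ^ (i + 1) = t * (t ^ i - s ^ i) + (t - s) * s ^ i := by ring
    have h1 : |t * (t ^ i - s ^ i)| ≤ M * (i * M ^ i * |t - s|) := by
      rw [abs_mul]
      exact mul_le_mul ht ih (abs_nonneg _) (by linarith)
    have h2 : |(t - s) * s ^ i| ≤ |t - s| * M ^ (i + 1) := by
      rw [abs_mul, abs_pow]
      refine mul_le_mul_of_nonneg_left ?_ (abs_nonneg _)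
      exact (pow_le_pow_left₀ (abs_nonneg _) hs i).trans (pow_le_pow_right₀ hM (by omega))
    rw [e]
    refine (abs_add_le _ _).trans ((add_le_add h1 h2).trans (le_of_eq ?_))
    push_cast
    ring

/-- The true polynomial and the rounded one at two close points. -/
theorem PR_close (d b : ℕ) (K : ℝ) (P : Polynomial ℝ) (hP : P.natDegree ≤ d)
    (hK : ∀ i, |P.coeff i| ≤ K) (t s : ℝ) (ht : |t| ≤ 2) (hs : |s| ≤ 2) :
    |P.eval t - (PR d b (rc d b K P)).eval s| ≤
      (d + 1) * 2 ^ d * (d * K * |t - s| + 1 / 2 ^ b) := by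
  have hK0 : 0 ≤ K := (abs_nonneg _).trans (hK 0)
  have h1 : rc d b K P = fun i : Fin (d + 1) => ⌊(2 : ℝ) ^ b * P.coeff (i : ℕ)⌋ := by
    unfold rc
    rw [if_pos hK]
  have e1 : P.eval t = ∑ i : Fin (d + 1), P.coeff i * t ^ (i : ℕ) := by
    rw [Polynomial.eval_eq_sum_range' (Nat.lt_succ_of_le hP), Finset.sum_range]
  rw [e1, PR_eval, ← Finset.sum_sub_distrib]
  refine (Finset.abs_sum_le_sum_abs _ _).trans ?_
  have key : ∀ i : Fin (d + 1), |P.coeff i * t ^ (i : ℕ) -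
      ((rc d b K P i : ℤ) : ℝ) / 2 ^ b * s ^ (i : ℕ)| ≤ 2 ^ d * (d * K * |t - s| + 1 / 2 ^ b) := by
    intro i
    have hi : (i : ℕ) ≤ d := Nat.lt_succ_iff.1 i.2
    have hb : (0 : ℝ) < 2 ^ b := by positivity
    have e2 : P.coeff i * t ^ (i : ℕ) - ((rc d b K P i : ℤ) : ℝ) / 2 ^ b * s ^ (i : ℕ) =
        P.coeff i * (t ^ (i : ℕ) - s ^ (i : ℕ)) +
        (P.coeff i - ((rc d b K P i : ℤ) : ℝ) / 2 ^ b) * s ^ (i : ℕ) := by ring
    have h2 : |P.coeff i * (t ^ (i : ℕ) - s ^ (i : ℕ))| ≤ K * (d * 2 ^ d * |t - s|) := by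
      rw [abs_mul]
      refine mul_le_mul (hK i) ((pow_sub_le 2 t s (by norm_num) ht hs i).trans ?_)
        (abs_nonneg _) hK0
      refine mul_le_mul_of_nonneg_right ?_ (abs_nonneg _)
      exact mul_le_mul (by exact_mod_cast hi) (pow_le_pow_right₀ (by norm_num) hi)
        (by positivity) (Nat.cast_nonneg d)
    have h3 : |P.coeff i - ((rc d b K P i : ℤ) : ℝ) / 2 ^ b| ≤ 1 / 2 ^ b := by
      rw [h1]
      have g1 := Int.floor_le ((2 : ℝ) ^ b * P.coeff i)
      have g2 := Int.lt_floor_add_one ((2 : ℝ) ^ b * P.coeff i)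
      have g3 : P.coeff i - ((⌊(2 : ℝ) ^ b * P.coeff i⌋ : ℤ) : ℝ) / 2 ^ b =
          ((2 : ℝ) ^ b * P.coeff i - ((⌊(2 : ℝ) ^ b * P.coeff i⌋ : ℤ) : ℝ)) / 2 ^ b := by
        field_simp
      show |P.coeff i - ((⌊(2 : ℝ) ^ b * P.coeff i⌋ : ℤ) : ℝ) / 2 ^ b| ≤ 1 / 2 ^ b
      rw [g3, abs_div, abs_of_pos hb]
      refine div_le_div_of_nonneg_right ?_ hb.le
      rw [abs_le]
      constructor <;> linarith
    have h4 : |(P.coeff i - ((rc d b K P i : ℤ) : ℝ) / 2 ^ b) * s ^ (i : ℕ)| ≤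
        1 / 2 ^ b * 2 ^ d := by
      rw [abs_mul, abs_pow]
      refine mul_le_mul h3 ?_ (by positivity) (by positivity)
      exact (pow_le_pow_left₀ (abs_nonneg _) hs i).trans (pow_le_pow_right₀ (by norm_num) hi)
    rw [e2]
    refine (abs_add_le _ _).trans ((add_le_add h2 h4).trans (le_of_eq ?_))
    ring
  refine (Finset.sum_le_sum fun i _ => key i).trans (le_of_eq ?_)
  rw [Finset.sum_const, Finset.card_univ, Fintype.card_fin, nsmul_eq_mul]
  push_cast
  ring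

/-- The polynomial on a line of the grid. -/
noncomputable def gp (d b : ℕ) (c : Fin (d + 1) → ℤ) (a : ℝ) : Polynomial ℝ :=
  (PR d b c).comp (Polynomial.C a + Polynomial.C (1 / 2 ^ b) * Polynomial.X)

theorem gp_deg (d b : ℕ) (c : Fin (d + 1) → ℤ) (a : ℝ) : (gp d b c a).natDegree ≤ d := by
  unfold gp
  refine Polynomial.natDegree_comp_le.trans ?_
  have h1 : (Polynomial.C a + Polynomial.C ((1 : ℝ) / 2 ^ b) * Polynomial.X).natDegree ≤ 1 := by
    refine (Polynomial.natDegree_add_le _ _).trans (max_le (by simp) ?_)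
    exact (Polynomial.natDegree_C_mul_le _ _).trans Polynomial.natDegree_X_le
  calc (PR d b c).natDegree * _ ≤ d * 1 := Nat.mul_le_mul (PR_deg d b c) h1
    _ = d := mul_one d

theorem gp_eval (d b : ℕ) (c : Fin (d + 1) → ℤ) (a y : ℝ) :
    (gp d b c a).eval y = (PR d b c).eval (a + y / 2 ^ b) := by
  unfold gp
  rw [Polynomial.eval_comp]
  congr 1
  simp
  ring

end Line

section Sub

variable {n : ℕ}

/-- The affine coordinates of the grid. -/
noncomputable def af (b R : ℕ) (V : Fin n → Fin n → ℝ) (j : Fin n) : MvPolynomial (Fin n) ℝ :=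
  MvPolynomial.C ((2 : ℝ) ^ b * R) + ∑ i, MvPolynomial.C ((2 : ℝ) ^ b * V j i) * MvPolynomial.X i

theorem af_eval (b R : ℕ) (V : Fin n → Fin n → ℝ) (j : Fin n) (y : Fin n → ℝ) :
    MvPolynomial.eval y (af b R V j) = 2 ^ b * (∑ i, V j i * y i + R) := by
  unfold af
  simp only [map_add, map_sum, map_mul, MvPolynomial.eval_C, MvPolynomial.eval_X]
  rw [mul_add, Finset.mul_sum, add_comm]
  congr 1
  exact Finset.sum_congr rfl fun i _ => by ring

theorem af_deg (b R : ℕ) (V : Fin n → Fin n → ℝ) (j : Fin n) :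
    (af b R V j).totalDegree ≤ 1 := by
  unfold af
  refine (MvPolynomial.totalDegree_add _ _).trans (max_le ?_ ?_)
  · rw [MvPolynomial.totalDegree_C]
    omega
  refine (MvPolynomial.totalDegree_finsetSum _ _).trans (Finset.sup_le fun i _ => ?_)
  refine (MvPolynomial.totalDegree_mul _ _).trans ?_
  rw [MvPolynomial.totalDegree_C, zero_add, MvPolynomial.totalDegree_X]

/-- The polynomial in the original coordinates. -/
noncomputable def qt (b R : ℕ) (V : Fin n → Fin n → ℝ) (Q : MvPolynomial (Fin n) ℝ) :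
    MvPolynomial (Fin n) ℝ := MvPolynomial.bind₁ (af b R V) Q

theorem qt_eval (b R : ℕ) (V : Fin n → Fin n → ℝ) (Q : MvPolynomial (Fin n) ℝ) (y : Fin n → ℝ) :
    MvPolynomial.eval y (qt b R V Q) =
      MvPolynomial.eval (fun j => 2 ^ b * (∑ i, V j i * y i + R)) Q := by
  unfold qt
  rw [MvPolynomial.eval, MvPolynomial.eval₂Hom_bind₁]
  congr 1
  congr 1
  funext j
  exact af_eval b R V j y

theorem totalDegree_le_of_degreeOf (Q : MvPolynomial (Fin n) ℝ) (k : ℕ)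
    (h : ∀ j, Q.degreeOf j ≤ k) : Q.totalDegree ≤ n * k := by
  unfold MvPolynomial.totalDegree
  refine Finset.sup_le fun α hα => ?_
  have h1 : ∀ j, α j ≤ k := fun j => (MvPolynomial.monomial_le_degreeOf j hα).trans (h j)
  rw [Finsupp.sum_fintype _ _ (fun _ => rfl)]
  refine (Finset.sum_le_sum fun j _ => h1 j).trans (le_of_eq ?_)
  rw [Finset.sum_const, Finset.card_univ, Fintype.card_fin, smul_eq_mul]

theorem qt_deg (b R : ℕ) (V : Fin n → Fin n → ℝ) (Q : MvPolynomial (Fin n) ℝ) (k : ℕ)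
    (h : ∀ j, Q.degreeOf j ≤ k) : (qt b R V Q).totalDegree ≤ n * k := by
  have h1 := Pool.KS3.SML.totalDegree_bind_le (af b R V) 1 (fun i => af_deg b R V i) Q
  have h2 := totalDegree_le_of_degreeOf Q k h
  unfold qt
  omega

end Sub

section Rank

/-- Ranks with a bound for the probability of a large rank. -/
theorem rank_event (hRNK : RNKStmt) {W S T : Type} [Fintype W] {q : W → ℝ} (hq : IsLaw q)
    (X : W → S) (Z : W → T) {η β : ℝ} (hη : 0 ≤ η) (hβ : 0 < β) (h : CH q X Z ≤ η) (R₁ : ℕ)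
    (hR : (η + 1) / β ≤ Real.log R₁) :
    ∃ rk : T → S → ℕ,
      (∀ ω ω', 0 < q ω → 0 < q ω' → Z ω = Z ω' → rk (Z ω) (X ω) = rk (Z ω') (X ω') →
        X ω = X ω') ∧
      Pr q {w | R₁ ≤ rk (Z w) (X w)} ≤ β := by
  obtain ⟨rk, h1, h2⟩ := hRNK W S T q X Z hq
  refine ⟨rk, h1, ?_⟩
  have h3 := markov hq (fun ω => Real.log ((rk (Z ω) (X ω) : ℝ) + 1))
    (fun ω _ => Real.log_nonneg (by
      have : (0 : ℝ) ≤ rk (Z ω) (X ω) := Nat.cast_nonneg _
      linarith)) ((η + 1) / β)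
  have h4 : Pr q {w | R₁ ≤ rk (Z w) (X w)} ≤
      Pr q {ω | (η + 1) / β ≤ Real.log ((rk (Z ω) (X ω) : ℝ) + 1)} := by
    refine Pr_mono hq fun ω _ hω => ?_
    have h5 : (R₁ : ℝ) ≤ rk (Z ω) (X ω) := by exact_mod_cast hω
    show (η + 1) / β ≤ Real.log ((rk (Z ω) (X ω) : ℝ) + 1)
    refine hR.trans ?_
    rcases Nat.eq_zero_or_pos R₁ with h0 | h0
    · rw [h0, Nat.cast_zero, Real.log_zero]
      exact Real.log_nonneg (by
        have : (0 : ℝ) ≤ rk (Z ω) (X ω) := Nat.cast_nonneg _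
        linarith)
    · exact Real.log_le_log (by exact_mod_cast h0) (by linarith)
  refine h4.trans ?_
  have h5 := (h3.trans h2).trans h
  have h6 : 0 < (η + 1) / β := by positivity
  have h7 := Pr_nonneg hq {ω | (η + 1) / β ≤ Real.log ((rk (Z ω) (X ω) : ℝ) + 1)}
  rw [div_mul_eq_mul_div, div_le_iff₀ hβ] at h5
  nlinarith

end Rank

end Pool.KBX
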