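import Pool.Agent.H84.KBOX.BlkB

/-!
# The block lemma: labels

Every point is, with large probability, in the class of a polynomial.
-/

set_option autoImplicit false

namespace Pool.KBX

open Finset Real MeasureTheory
open Pool.Agent.H49.Ent Pool.Agent.H32.Dense Pool.STK Pool.KAF Pool.KAL Pool.KS3

/-- The labels: `E w` is the rounded frame, `r w` and `i w` the class. -/
def LABStmt : Prop :=
  ∀ (n d : ℕ) (C₀ δ β : ℝ), 1 ≤ C₀ → 0 < δ → 0 < β → β ≤ 1 →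
    ∃ (κ' c : ℝ) (b₀ : ℕ), 1 ≤ κ' ∧ 0 < c ∧
    ∀ (Ω Λ Ξ W : Type) [Fintype Ω] [Fintype W] (p : Ω → ℝ) (lam : Ω → Λ) (x : Ω → Ξ)
      (T : Ξ → ℕ) (pos : Ξ → Option (Fin n) → ℕ) (A B : Λ → Option (Fin n) → ℝ) (i₀ : Fin n)
      (L κ γ b : ℕ) (ε e₁ e₃ S : ℝ) (ψ : Ξ → ℝ) (P : Λ → Polynomial ℝ) (q : W → ℝ)
      (f : Fin n → W → Ω),
      LF L κ γ C₀ δ ε e₁ e₃ p lam x T pos A B → TC i₀ lam x T pos A B → b₀ ≤ b → b ≤ L →
      PL L d b C₀ p lam x T ψ P → IsLaw q → (∀ j, Marg q p (f j)) →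
      (∀ w, 0 < q w → ∀ j, x (f j w) = x (f i₀ w)) →
      Pr q {w | |Matrix.det (Matrix.of fun j i => B (lam (f j w)) (some i))| < δ ^ n} * b ≤ S →
      H q (fun w => fr b fun j i => B (lam (f j w)) (some i)) -
        CH q (fun w => fr b fun j i => B (lam (f j w)) (some i))
          (fun w => bc L b pos (x (f i₀ w))) ≤ S →
      1 ≤ S → S ≤ c * b → e₁ + 1 ≤ S → e₃ ≤ S → W0 L κ γ ε ≤ S →
      ∃ (𝓡 : Type) (_ : Fintype 𝓡) (r : W → 𝓡) (i : W → ℕ)
        (Q : (Fin n → Fin n → ℤ) → 𝓡 → ℕ → MvPolynomial (Fin n) ℝ)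
        (𝒜 : Set W), Real.log (Fintype.card 𝓡 + 1) ≤ κ' * S ∧
        (∀ w, (i w : ℝ) ≤ Real.exp (κ' * S)) ∧ Pr q 𝒜ᶜ ≤ β ∧
        (∀ a r' i', (Q a r' i').totalDegree ≤ n * d) ∧
        (∀ a r' i', ∀ y : Fin n → ℝ, (∀ j, |y j| ≤ 2) →
          |MvPolynomial.eval y (Q a r' i')| ≤ Real.exp (κ' * S)) ∧
        ∀ w ∈ 𝒜, 0 < q w → ∀ ξ : Ξ, bc L b pos ξ = bc L b pos (x (f i₀ w)) →
          dg b ψ ξ = dg b ψ (x (f i₀ w)) →
          |ψ ξ - MvPolynomial.eval (fun j => (pos ξ (some j) : ℝ) / 2 ^ L)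
            (Q (fr b fun j i => B (lam (f j w)) (some i)) (r w) (i w))| ≤
            Real.exp (κ' * S) / 2 ^ b

theorem LF.mono {n : ℕ} {Ω Λ Ξ : Type} [Fintype Ω] {L κ γ k₀ : ℕ} {C₀ C₁ δ ε e₁ e₃ : ℝ}
    {p : Ω → ℝ} {lam : Ω → Λ} {x : Ω → Ξ} {T : Ξ → ℕ} {pos : Ξ → Option (Fin n) → ℕ}
    {A B : Λ → Option (Fin n) → ℝ} (h : LF L κ γ C₀ δ ε e₁ e₃ p lam x T pos A B) (h0 : 0 < C₀)
    (h1 : C₀ ≤ C₁) (hk : (C₁ / C₀) ^ n ≤ 2 ^ k₀) :
    LF L κ (γ + k₀) C₁ δ ε e₁ e₃ p lam x T pos A B where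
  leaf := ⟨h.leaf.isLaw, h.leaf.T_lt, h.leaf.pos_lt, fun ω i => (h.leaf.near ω i).trans
    (div_le_div_of_nonneg_right h1 (Nat.cast_nonneg _)), fun ω i => (h.leaf.A_le ω i).trans h1,
    fun ω i => (h.leaf.B_le ω i).trans h1⟩
  δ_pos := h.δ_pos
  ε_nonneg := h.ε_nonneg
  ncf := h.ncf
  det := by
    have h2 := h.det
    have e : (n.factorial : ℝ) * C₁ ^ n = (n.factorial * C₀ ^ n) * (C₁ / C₀) ^ n := by
      rw [mul_assoc, ← mul_pow, mul_div_cancel₀ _ h0.ne']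
    rw [e, pow_add, ← mul_assoc]
    have h3 : 0 ≤ C₁ := h0.le.trans h1
    exact mul_le_mul h2 hk (by positivity) (by
      have := h.δ_pos
      positivity)
  κ_pos := h.κ_pos
  e₁_nonneg := h.e₁_nonneg
  e₃_nonneg := h.e₃_nonneg
  time := h.time
  thin := h.thin

theorem PL.mono {Ω Λ Ξ : Type} {L d b : ℕ} {C₀ C₁ : ℝ} {p : Ω → ℝ} {lam : Ω → Λ} {x : Ω → Ξ}
    {T : Ξ → ℕ} {ψ : Ξ → ℝ} {P : Λ → Polynomial ℝ} (h : PL L d b C₀ p lam x T ψ P)
    (h1 : C₀ ≤ C₁) : PL L d b C₁ p lam x T ψ P :=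
  ⟨h.bound, h.deg, fun ω hω => (h.line ω hω).trans
    (div_le_div_of_nonneg_right h1 (by positivity))⟩

/-- Positions given the frame and the skew coordinates. -/
theorem CH_bc_le {n : ℕ} {W T : Type} [Fintype W] {q : W → ℝ} (hq : IsLaw q)
    (X : W → Fin n → ℕ) (Z : W → T) (J : W → Bool) (C M : ℝ) (hC : 0 ≤ C) (hM : 0 ≤ M)
    (hX : ∀ w i, (X w i : ℝ) ≤ M)
    (h : ∀ w w', J w = true → J w' = true → Z w = Z w' → ∀ i,
      |(X w i : ℝ) - (X w' i : ℝ)| ≤ C) :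
    CH q X Z ≤ n * (Real.log (2 * C + 1) + Pr q {w | J w = false} * Real.log (2 * M + 1)) +
      Real.log 2 := by
  classical
  have hq0 := hq.nonneg
  have h1 : CH q X Z ≤ CH q J Z + CH q X (fun w => (J w, Z w)) := CH_le_add hq0 X J Z
  have h2 : CH q J Z ≤ Real.log 2 := by
    have b1 := CH_le_card hq0 hq.sum_one J Z (fun _ => Finset.univ)
      (fun ω _ => Finset.mem_univ _)
    rw [Ex_const hq.sum_one, Finset.card_univ, Fintype.card_bool] at b1
    exact_mod_cast b1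
  set X' : W → Fin n → ℤ := fun w i => (X w i : ℤ) with hX'
  have h3 : CH q X (fun w => (J w, Z w)) ≤ CH q X' (fun w => (J w, Z w)) := by
    refine CH_mono_left hq0 ?_
    intro w w' _ _ e
    have e1 : X' w = X' w' := (Prod.ext_iff.mp e).1
    funext i
    have e2 : (X w i : ℤ) = (X w' i : ℤ) := congrFun e1 i
    exact_mod_cast e2
  set L : W → ℝ := fun w => if J w = true then C else M with hL
  have h4 := CH_le_vec hq0 hq.sum_one X' (fun w => (J w, Z w)) L (by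
      intro w w' _ _ e k
      have e1 : J w = J w' := (Prod.ext_iff.mp e).1
      have e2 : Z w = Z w' := (Prod.ext_iff.mp e).2
      have e3 : (((X' w k - X' w' k : ℤ)) : ℝ) = (X w k : ℝ) - (X w' k : ℝ) := by
        simp only [hX']
        push_cast
        ring
      rw [e3]
      simp only [hL]
      by_cases hw : J w = true
      · rw [if_pos hw]
        exact h w w' hw (by rw [← e1]; exact hw) e2 k
      · rw [if_neg hw, abs_le]
        have a1 := hX w k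
        have a2 := hX w' k
        have a3 : (0 : ℝ) ≤ X w k := Nat.cast_nonneg _
        have a4 : (0 : ℝ) ≤ X w' k := Nat.cast_nonneg _
        constructor <;> linarith)
  have h5 : Ex q (fun w => Real.log (2 * L w + 1)) ≤
      Real.log (2 * C + 1) + Pr q {w | J w = false} * Real.log (2 * M + 1) := by
    have g1 : ∀ w, Real.log (2 * L w + 1) ≤
        Real.log (2 * C + 1) +
          Real.log (2 * M + 1) * (if w ∈ {w | J w = false} then (1 : ℝ) else 0) := by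
      intro w
      have l1 : 0 ≤ Real.log (2 * C + 1) := Real.log_nonneg (by linarith)
      by_cases hw : J w = true
      · simp [hL, hw]
      · have hw' : J w = false := by simpa using hw
        simp [hL, hw', l1]
    have g2 := Ex_mono hq0 (fun w _ => g1 w)
    rw [Ex_add, Ex_const hq.sum_one, Ex_smul, ← Pr_eq_Ex] at g2
    linarith [g2, mul_comm (Real.log (2 * M + 1)) (Pr q {w | J w = false})]
  have h6 : (n : ℝ) * Ex q (fun w => Real.log (2 * L w + 1)) ≤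
      n * (Real.log (2 * C + 1) + Pr q {w | J w = false} * Real.log (2 * M + 1)) :=
    mul_le_mul_of_nonneg_left h5 (Nat.cast_nonneg n)
  linarith

end Pool.KBX
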