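import Pool.Agent.H84.KBOX.BlkC

/-!
# The block lemma: construction of the labels
-/

set_option autoImplicit false

namespace Pool.KBX

open Finset Real MeasureTheory
open Pool.Agent.H49.Ent Pool.Agent.H32.Dense Pool.STK Pool.KAF Pool.KAL Pool.KS3

/-- Truncated rank. -/
def cr (R : ℕ) (hR : 0 < R) (k : ℕ) : Fin R := if h : k < R then ⟨k, h⟩ else ⟨0, hR⟩

theorem cr_inj {R : ℕ} (hR : 0 < R) {k k' : ℕ} (hk : k < R) (hk' : k' < R)
    (h : cr R hR k = cr R hR k') : k = k' := by
  unfold cr at h
  rw [dif_pos hk, dif_pos hk'] at h
  exact congrArg Fin.val h

theorem log_le_self' {x : ℝ} (hx : 0 < x) : Real.log x ≤ x := by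
  have := Real.log_le_sub_one_of_pos hx
  linarith only [this]

theorem bc_lt {n : ℕ} {Ω Λ Ξ : Type} [Fintype Ω] {L b : ℕ} {C₀ : ℝ} {p : Ω → ℝ} {lam : Ω → Λ}
    {x : Ω → Ξ} {T : Ξ → ℕ} {pos : Ξ → Option (Fin n) → ℕ} {A B : Λ → Option (Fin n) → ℝ}
    (h : Leaf n (2 ^ L) C₀ p lam x T pos A B) (hb : b ≤ L) (ω : Ω) (i : Fin n) :
    bc L b pos (x ω) i < 2 ^ b := by
  unfold bc sce
  rw [Nat.div_lt_iff_lt_mul (by positivity), ← pow_add]
  have h1 := h.pos_lt ω (some i)
  have h2 : b + (L - b) = L := by omega
  rwa [h2]

theorem dg_close {Ξ : Type} (b : ℕ) (ψ : Ξ → ℝ) (ξ : Ξ) :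
    |ψ ξ - (dg b ψ ξ : ℝ) / 2 ^ b| ≤ 1 / 2 ^ b := by
  have hb : (0 : ℝ) < 2 ^ b := by positivity
  have e : ψ ξ - (dg b ψ ξ : ℝ) / 2 ^ b = (2 ^ b * ψ ξ - dg b ψ ξ) / 2 ^ b := by
    field_simp
  rw [e, abs_div, abs_of_pos hb]
  refine div_le_div_of_nonneg_right ?_ hb.le
  have h1 := Int.floor_le ((2 : ℝ) ^ b * ψ ξ)
  have h2 := Int.lt_floor_add_one ((2 : ℝ) ^ b * ψ ξ)
  unfold dg
  rw [abs_le]
  constructor <;> linarith

theorem lab_of (hCON : CONStmt) (hSUP : SUPStmt) (hLDA : LDAStmt) (hRNK : RNKStmt)
    (hBXL : BXLStmt) (hFRB : FRBStmt) : LABStmt := by
  classical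
  intro n d C₀ δ β hC₀ hδ hβ hβ1
  obtain ⟨R, b₁, CF, hR, hCF, hfrb⟩ := hFRB n C₀ δ hC₀ hδ
  have hC₀0 : 0 < C₀ := by linarith only [hC₀]
  set C₁ : ℝ := C₀ + CF with hC₁
  have hC₁1 : 1 ≤ C₁ := by linarith only [hC₀, hCF]
  have hC₀₁ : C₀ ≤ C₁ := by linarith
  have hCF₁ : CF ≤ C₁ := by linarith
  obtain ⟨CL, hCL, hlda⟩ := hLDA n d C₁ hC₁1
  obtain ⟨CN, hCN, hcon⟩ := hCON n d C₀ hC₀
  obtain ⟨CS, hCS, hsup⟩ := hSUP d C₀ hC₀
  obtain ⟨CB, hCB, hbxl⟩ := hBXL n d
  obtain ⟨CP, hCP, hlip⟩ := lip_le n (n * d)
  obtain ⟨k₀, hk₀'⟩ := pow_unbounded_of_one_lt ((C₁ / C₀) ^ n) (one_lt_two (α := ℝ))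
  have hk₀ : (C₁ / C₀) ^ n ≤ 2 ^ k₀ := hk₀'.le
  have hn0 : (0 : ℝ) ≤ n := Nat.cast_nonneg n
  have hd0 : (0 : ℝ) ≤ d := Nat.cast_nonneg d
  have hR1 : (1 : ℝ) ≤ R := by exact_mod_cast hR
  have hk₀0 : (0 : ℝ) ≤ k₀ := Nat.cast_nonneg k₀
  set βB : ℝ := β / CB with hβB
  have hβB0 : 0 < βB := by positivity
  have hβB1 : βB ≤ 1 := by
    rw [hβB, div_le_one (by linarith only [hCB])]
    linarith only [hβ1, hCB]
  set β₁ : ℝ := βB / (8 * (n + 1)) with hβ₁
  have hβ₁0 : 0 < β₁ := by positivity
  have hβ₁1 : β₁ ≤ 1 := by
    rw [hβ₁, div_le_one (by positivity)]
    linarith only [hβB1]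
  -- constants
  set κ1 : ℝ := CS / β₁ with hκ1
  set κL : ℝ := CL * (3 + k₀) with hκL
  set κv : ℝ := 6 * CN + (n * (2 * CF + 1) + 1) with hκv
  set κr : ℝ := κv + κL with hκr
  set κc : ℝ := 1 + (n + 1) * ((κr + 1) / β₁ + 1) with hκc
  set κh : ℝ := 2 * n * R + (2 * CN + 1) + n * (2 * CF + 1) + 3 * n + 1 with hκh
  set κB : ℝ := CB * ((κh + 1) / βB ^ 2 + κc) with hκB
  set κE : ℝ := 1 + C₀ + (d + 1) * 2 ^ d * (d * CF + 1) with hκE
  set κη : ℝ := 1 + κE + CP * CF * (1 + κE) with hκη
  have hκ1_0 : 0 < κ1 := by positivity
  have hκL_0 : 0 ≤ κL := by positivity
  have hκv_0 : 0 ≤ κv := by positivity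
  have hκr_0 : 0 ≤ κr := by positivity
  have hκc_0 : 0 ≤ κc := by positivity
  have hκh_0 : 0 ≤ κh := by positivity
  have hκB_0 : 0 ≤ κB := by positivity
  have hκE_1 : 1 ≤ κE := by
    have : 0 ≤ ((d : ℝ) + 1) * 2 ^ d * (d * CF + 1) := by positivity
    linarith only [hC₀, this]
  have hκη_1 : 1 ≤ κη := by
    have : 0 ≤ CP * CF * (1 + κE) := by positivity
    linarith only [hκE_1, this]
  set D : ℝ := 2 * (κ1 + κB + CF + C₀ + 1 / β₁ + 2) with hD
  have hβi : 0 < 1 / β₁ := by positivity
  have hD0 : 0 < D := by positivity
  refine ⟨κη + κ1 + κB + κc, 1 / D, b₁, by linarith only [hκ1_0, hκc_0, hκB_0, hκη_1], by positivity, ?_⟩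
  intro Ω Λ Ξ W _ _ p lam x T pos A B i₀ L κ γ b ε e₁ e₃ S ψ P q f hLF hTC hb hbL hPL hq hmarg
    hx hdet hinf hS1 hSb he₁ he₃ hW0
  have hp := hLF.leaf.isLaw
  have hp0 := hp.nonneg
  have hq0 := hq.nonneg
  have he₁0 := hLF.e₁_nonneg
  have he₃0 := hLF.e₃_nonneg
  have hS0 : 0 < S := by linarith only [hS1]
  have hb0 : (0 : ℝ) ≤ b := Nat.cast_nonneg b
  have hDb : D * S ≤ b := by
    have h1 : D * S ≤ D * (1 / D * b) := mul_le_mul_of_nonneg_left hSb hD0.le
    have h2 : D * (1 / D * b) = b := by field_simp
    linarith only [h1, h2]
  exact by
   have hDle : D ≤ b := le_trans (le_mul_of_one_le_right hD0.le hS1) hDb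
   have hb1r : (1 : ℝ) ≤ b := by
     have : (4 : ℝ) ≤ D := by
       have : 0 < CF + C₀ := by positivity
       linarith only [hC₀, hCF, hκ1_0, hκB_0, hβi]
     linarith only [hC₀, hCF, hκ1_0, hκB_0, hβi, hDle]
   exact by
    have hb1 : 1 ≤ b := by exact_mod_cast hb1r
    have hκS : κ1 * S ≤ b / 2 ∧ κB * S ≤ b / 2 := by
      have h1 : (2 * (κ1 + κB)) * S ≤ D * S := by
        refine mul_le_mul_of_nonneg_right ?_ hS0.le
        have : 0 < CF + C₀ := by positivity
        linarith only [hC₀, hCF, hβi]
      have h2 : (2 * (κ1 + κB)) * S = 2 * (κ1 * S) + 2 * (κB * S) := by ring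
      have h3 : 0 ≤ κ1 * S := mul_nonneg hκ1_0.le hS0.le
      have h4 : 0 ≤ κB * S := mul_nonneg hκB_0 hS0.le
      constructor <;> linarith
    exact by
     have hl2 : (1 / 2 : ℝ) ≤ Real.log 2 := by
       have := Real.log_two_gt_d9
       linarith only [this]
     have hl2' : Real.log 2 ≤ 1 := by
       have := Real.log_two_lt_d9
       linarith only [this]
     have h2b : (0 : ℝ) < 2 ^ b := by positivity
     have hexpb : Real.exp (b / 2) ≤ 2 ^ b := by
       rw [← Real.exp_log h2b, Real.log_pow]
       refine Real.exp_le_exp.2 ?_
       have := mul_le_mul_of_nonneg_left hl2 hb0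
       linarith only [this]
     have hb2 : (b : ℝ) ≤ 2 ^ b := by
       have : b < 2 ^ b := Nat.lt_two_pow_self
       exact_mod_cast this.le
     have hCF2 : CF ≤ 2 ^ b := by
       have : 0 < 1 / β₁ + C₀ + κ1 + κB := by positivity
       linarith only [hC₀, hCF, hκ1_0, hκB_0, hβi, hDle, hb2]
     exact by
      have hLb : (b : ℝ) ≤ L := by exact_mod_cast hbL
      -- the set of nondegenerate frames
      set E : W → Fin n → Fin n → ℤ := fun w => fr b fun j i => B (lam (f j w)) (some i) with hE
      set 𝒲 : Set W := {w | 0 < q w ∧
        δ ^ n ≤ |Matrix.det (Matrix.of fun j i => B (lam (f j w)) (some i))|} with h𝒲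
      have h𝒲c : Pr q 𝒲ᶜ ≤
          Pr q {w | |Matrix.det (Matrix.of fun j i => B (lam (f j w)) (some i))| < δ ^ n} := by
        refine Pr_mono hq fun w hw hwc => ?_
        by_contra hcon'
        exact hwc ⟨hw, not_lt.1 hcon'⟩
      have h𝒲b : Pr q 𝒲ᶜ * b ≤ S := le_trans (mul_le_mul_of_nonneg_right h𝒲c hb0) hdet
      have h𝒲β : Pr q 𝒲ᶜ ≤ β₁ / 2 := by
        have h1 : Pr q 𝒲ᶜ * (D * S) ≤ S :=
          le_trans (mul_le_mul_of_nonneg_left hDb (Pr_nonneg hq _)) h𝒲b
        have h2 : Pr q 𝒲ᶜ * D ≤ 1 := by
          have h3 : (Pr q 𝒲ᶜ * D) * S ≤ 1 * S := by linarith only [h1]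
          exact by
           exact le_of_mul_le_mul_right h3 hS0
        exact by
         have h3 : Pr q 𝒲ᶜ * (2 * (1 / β₁)) ≤ 1 := by
           refine le_trans (mul_le_mul_of_nonneg_left ?_ (Pr_nonneg hq _)) h2
           have : 0 < CF + C₀ + κ1 := by positivity
           linarith only [hC₀, hCF, hκ1_0, hκB_0]
         have h4 : Pr q 𝒲ᶜ = (Pr q 𝒲ᶜ * (2 * (1 / β₁))) * (β₁ / 2) := by
           field_simp
         rw [h4]
         have h5 : 0 < β₁ / 2 := by positivity
         exact mul_le_of_le_one_left h5.le h3
      exact by
       have h𝒲h : 1 / 2 ≤ Pr q 𝒲 := by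
         have := Pr_compl hq 𝒲
         linarith only [hβ₁1, h𝒲β, this]
       have h𝒲0 : 0 < Pr q 𝒲 := by linarith only [h𝒲h]
       have hξ : ∀ w, 0 < q w → ∀ j, 0 < p (f j w) := fun w hw j => (hmarg j).pos hq0 hw
       -- the skew grid
       obtain ⟨Iv, hIv, hfrb2⟩ := hfrb b L hb hbL
       obtain ⟨s, hs1, hs2, hs3, hs4⟩ := hfrb2 Ω Λ Ξ W p lam x T pos A B i₀ f 𝒲 E hLF.leaf hTC
         (fun w => rfl) (fun w hw j => hx w hw.1 j) (fun w hw => hw.2)
       set v : W → ℤ := fun w => dg b ψ (x (f i₀ w)) with hv
       set K : ℝ := Real.exp (CS * (e₁ + 1) / β₁) with hK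
       have hK1 : 1 ≤ K := by
         rw [hK]
         exact Real.one_le_exp (by positivity)
       have hKe : CS * (e₁ + 1) / β₁ ≤ κ1 * S := by
         rw [hκ1, div_mul_eq_mul_div]
         refine div_le_div_of_nonneg_right ?_ hβ₁0.le
         exact mul_le_mul_of_nonneg_left he₁ (by linarith only [hCS])
       have hKS : K ≤ Real.exp (κ1 * S) := Real.exp_le_exp.2 hKe
       have hK2 : K ≤ 2 ^ b := hKS.trans ((Real.exp_le_exp.2 hκS.1).trans hexpb)
       -- the restricted law
       set q' : W → ℝ := rs q 𝒲 with hq'
       have hq'l : IsLaw q' := rs_isLaw hq h𝒲0
       have hq'0 := hq'l.nonneg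
       have hq'pos : ∀ w, 0 < q' w → w ∈ 𝒲 := fun w hw => ((rs_pos hq).1 hw).2
       set G : Fin n → W → (Fin n → Fin n → ℤ) × (Fin n → ℕ) := fun j w =>
         (E w, fun i => if i = j then 0 else (s w i : ℕ)) with hG
       have hGE : ∀ j w w', G j w = G j w' → E w = E w' := fun j w w' h => (Prod.ext_iff.mp h).1
       have hGs : ∀ j w w', G j w = G j w' → ∀ i, i ≠ j → s w i = s w' i := by
         intro j w w' h i hij
         have h1 := congrFun (Prod.ext_iff.mp h).2 i
         simp only [hG] at h1
         rw [if_neg hij, if_neg hij] at h1
         exact Fin.ext h1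
       -- entropy of the line data
       have hline : ∀ j, CH q' (fun w => rc d b K (P (lam (f j w)))) (G j) ≤ κL * S := by
         intro j
         have h1 := hlda Ω Λ Ξ W ((Fin n → Fin n → ℤ) × (Fin n → ℕ)) p lam x T pos A B L κ (γ + k₀) b δ
           ε e₁ e₃ K ψ P q' (f j) (G j) (hLF.mono hC₀0 hC₀₁ hk₀) hbL hb1 (hPL.mono hC₀₁) hq'l (by
             intro ω
             have h2 := law_rs_le hq h𝒲h (f j) ω
             have h3 : law q (f j) ω = p ω := by
               unfold law
               exact hmarg j ω
             rw [h3] at h2
             exact h2) hK1 hK2 (by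
             intro w w' hw hw' hg ω ω' hω hω' hl hl' ht i
             exact (hs4 j w (hq'pos w hw) w' (hq'pos w' hw') (hGE j w w' hg) (hGs j w w' hg) ω ω' hl hl'
               ht i).trans hCF₁)
         refine h1.trans ?_
         have h2 : W0 L κ (γ + k₀) ε = W0 L κ γ ε + k₀ := by
           unfold W0
           push_cast
           ring
         rw [h2, hκL, mul_assoc]
         refine mul_le_mul_of_nonneg_left ?_ (by linarith only [hCL])
         have h3 : (k₀ : ℝ) * 1 ≤ k₀ * S := mul_le_mul_of_nonneg_left hS1 hk₀0
         have h4 : (3 + (k₀ : ℝ)) * S = 3 * S + k₀ * S := by ring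
         linarith only [he₁, he₃, hW0, h3]
       -- entropy of the digits
       obtain ⟨hcon1, hcon2⟩ := hcon Ω Λ Ξ p lam x T pos A B L κ γ b δ ε e₁ e₃ ψ P hLF hbL hPL
       have hvbc : CH q v (fun w => bc L b pos (x (f i₀ w))) ≤ CN * (3 * S) := by
         have h1 := (hmarg i₀).CH (fun ω => dg b ψ (x ω)) (fun ω => bc L b pos (x ω))
         have h2 : CH q v (fun w => bc L b pos (x (f i₀ w))) =
             CH p (fun ω => dg b ψ (x ω)) (fun ω => bc L b pos (x ω)) := h1
         rw [h2]
         refine hcon1.trans (mul_le_mul_of_nonneg_left (by linarith only [he₁, he₃, hW0]) (by linarith only [hCN]))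
       have hbcM : ∀ w i, (bc L b pos (x (f i₀ w)) i : ℝ) ≤ 2 ^ b := by
         intro w i
         have := bc_lt hLF.leaf hbL (f i₀ w) i
         exact_mod_cast this.le
       set J : W → Bool := fun w => decide (w ∈ 𝒲) with hJ
       have hJt : ∀ w, J w = true → w ∈ 𝒲 := fun w h => by simpa [hJ] using h
       have hJf : ∀ w, J w = false → w ∈ 𝒲ᶜ := fun w h => by simpa [hJ] using h
       have hbcJ : ∀ w w', J w = true → J w' = true → (E w, s w) = (E w', s w') → ∀ i,
           |(bc L b pos (x (f i₀ w)) i : ℝ) - (bc L b pos (x (f i₀ w')) i : ℝ)| ≤ CF :=
         fun w w' h h' e i => hs1 w (hJt w h) w' (hJt w' h') (Prod.ext_iff.mp e).1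
           (Prod.ext_iff.mp e).2 i
       have hCF0 : 0 ≤ CF := by linarith only [hCF]
       have hlogCF : Real.log (2 * CF + 1) ≤ 2 * CF + 1 := log_le_self' (by linarith only [hCF])
       have hvq' : CH q' v (fun w => (E w, s w)) ≤ κv * S := by
         have h1 : CH q' v (fun w => (E w, s w)) ≤ CH q' (fun w => bc L b pos (x (f i₀ w)))
             (fun w => (E w, s w)) + CH q' v (fun w => (bc L b pos (x (f i₀ w)), (E w, s w))) :=
           CH_le_add hq'0 v (fun w => bc L b pos (x (f i₀ w))) (fun w => (E w, s w))
         have h2 : CH q' v (fun w => (bc L b pos (x (f i₀ w)), (E w, s w))) ≤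
             CH q' v (fun w => bc L b pos (x (f i₀ w))) :=
           CH_mono_cond hq'0 fun _ _ _ _ h => (Prod.ext_iff.mp h).1
         have h3 := CH_rs_le hq h𝒲h v (fun w => bc L b pos (x (f i₀ w)))
         have h4 := CH_bc_le hq'l (fun w => bc L b pos (x (f i₀ w))) (fun w => (E w, s w)) J CF
           (2 ^ b) hCF0 h2b.le hbcM hbcJ
         have h5 : Pr q' {w | J w = false} = 0 := by
           refine le_antisymm ?_ (Pr_nonneg hq'l _)
           have : Pr q' {w | J w = false} ≤ Pr q' (∅ : Set W) :=
             Pr_mono hq'l fun w hw hJw => (hJf w hJw) (hq'pos w hw)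
           refine this.trans (le_of_eq ?_)
           rw [Pr_eq]
           simp
         rw [h5, zero_mul, add_zero] at h4
         have h6 : (n : ℝ) * Real.log (2 * CF + 1) ≤ n * (2 * CF + 1) :=
           mul_le_mul_of_nonneg_left hlogCF hn0
         have h7 : (n : ℝ) * (2 * CF + 1) + 1 ≤ (n * (2 * CF + 1) + 1) * S := by
           have : 0 ≤ (n : ℝ) * (2 * CF + 1) + 1 := by positivity
           exact le_mul_of_one_le_right this hS1
         rw [hκv, add_mul]
         linarith only [hl2', hvbc, h1, h2, h3, h4, h6, h7]
       -- ranks
       set R₁ : ℕ := ⌈Real.exp ((κr * S + 1) / β₁)⌉₊ with hR₁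
       have hR₁e : Real.exp ((κr * S + 1) / β₁) ≤ R₁ := Nat.le_ceil _
       have hR₁0 : 0 < R₁ := Nat.ceil_pos.2 (Real.exp_pos _)
       have hR₁r : (0 : ℝ) < R₁ := by exact_mod_cast hR₁0
       have hR₁1 : (1 : ℝ) ≤ R₁ := by exact_mod_cast hR₁0
       have hlogR : (κr * S + 1) / β₁ ≤ Real.log R₁ := by
         rw [Real.le_log_iff_exp_le hR₁r]
         exact hR₁e
       have hκrS : 0 ≤ κr * S := mul_nonneg hκr_0 hS0.le
       have hlogR' : Real.log R₁ ≤ (κr * S + 1) / β₁ + 1 := by
         have h1 : (R₁ : ℝ) ≤ Real.exp ((κr * S + 1) / β₁) + 1 := (Nat.ceil_lt_add_one (Real.exp_pos _).le).le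
         have h2 : (1 : ℝ) ≤ Real.exp ((κr * S + 1) / β₁) := Real.one_le_exp (by positivity)
         have h3 : (R₁ : ℝ) ≤ 2 * Real.exp ((κr * S + 1) / β₁) := by linarith only [h1, h2]
         have h4 := Real.log_le_log hR₁r h3
         rw [Real.log_mul (by norm_num) (Real.exp_pos _).ne', Real.log_exp] at h4
         linarith only [hl2', h4]
       exact by
        have hκLr : κL * S ≤ κr * S := mul_le_mul_of_nonneg_right (by rw [hκr]; linarith only [hκv_0]) hS0.le
        have hκvr : κv * S ≤ κr * S := mul_le_mul_of_nonneg_right (by rw [hκr]; linarith only [hκL_0]) hS0.le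
        obtain ⟨rk, hrk1, hrk2⟩ := rank_event hRNK hq'l v (fun w => (E w, s w)) hκrS hβ₁0
          (hvq'.trans hκvr) R₁ hlogR
        have hrl : ∀ j, ∃ rl : ((Fin n → Fin n → ℤ) × (Fin n → ℕ)) → (Fin (d + 1) → ℤ) → ℕ,
            (∀ ω ω', 0 < q' ω → 0 < q' ω' → G j ω = G j ω' →
              rl (G j ω) (rc d b K (P (lam (f j ω)))) = rl (G j ω') (rc d b K (P (lam (f j ω')))) →
              rc d b K (P (lam (f j ω))) = rc d b K (P (lam (f j ω')))) ∧
            Pr q' {w | R₁ ≤ rl (G j w) (rc d b K (P (lam (f j w))))} ≤ β₁ := fun j =>
          rank_event hRNK hq'l (fun w => rc d b K (P (lam (f j w)))) (G j) hκrS hβ₁0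
            ((hline j).trans hκLr) R₁ hlogR
        choose rl hrl1 hrl2 using hrl
        -- the good set
        set 𝒜 : Set W := {w | w ∈ 𝒲 ∧ rk (E w, s w) (v w) < R₁ ∧
          (∀ j, rl j (G j w) (rc d b K (P (lam (f j w)))) < R₁) ∧
          ∀ j, ∀ i, |(P (lam (f j w))).coeff i| ≤ K} with h𝒜
        have hsupP : ∀ j, Pr q {w | ∃ i, K < |(P (lam (f j w))).coeff i|} ≤ β₁ := by
          intro j
          have h1 := hsup Ω Λ p lam (fun ω => T (x ω)) L e₁ β₁ (fun ω => ψ (x ω)) P hp hLF.leaf.T_lt
            he₁0 hLF.time hPL.deg hPL.bound (by
              intro ω hω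
              refine (hPL.line ω hω).trans ?_
              exact div_le_self hC₀0.le (one_le_pow₀ (by norm_num))) hβ₁0 hβ₁1 (by linarith only [hC₀, hCF, hκ1_0, hκB_0, hβi, hDle, hκS, hLb, hKe, hκS.1])
          exact by
           have h2 := Pr_marg (hmarg j) {ω | ∃ i, Real.exp (CS * (e₁ + 1) / β₁) <
             |(P (lam ω)).coeff i|}
           rw [← h2] at h1
           exact h1
        exact by
         have h𝒜c : Pr q 𝒜ᶜ ≤ βB := by
           have h1 : Pr q 𝒜ᶜ ≤ Pr q (𝒲ᶜ ∪ ((𝒲 ∩ {w | R₁ ≤ rk (E w, s w) (v w)}) ∪
               ({w | ∃ j, w ∈ 𝒲 ∩ {w | R₁ ≤ rl j (G j w) (rc d b K (P (lam (f j w))))}} ∪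
               {w | ∃ j, w ∈ {w | ∃ i, K < |(P (lam (f j w))).coeff i|}}))) := by
             refine Pr_mono hq fun w hw hwA => ?_
             by_cases hW : w ∈ 𝒲
             · right
               by_cases g1 : rk (E w, s w) (v w) < R₁
               · right
                 by_cases g2 : ∀ j, rl j (G j w) (rc d b K (P (lam (f j w)))) < R₁
                 · right
                   by_contra g3
                   refine hwA ⟨hW, g1, g2, fun j i => ?_⟩
                   by_contra g4
                   exact g3 ⟨j, ⟨i, not_le.1 g4⟩⟩
                 · left
                   push Not at g2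
                   obtain ⟨j, hj⟩ := g2
                   exact ⟨j, hW, hj⟩
               · left
                 exact ⟨hW, not_lt.1 g1⟩
             · left
               exact hW
           have h2 := Pr_union hq 𝒲ᶜ ((𝒲 ∩ {w | R₁ ≤ rk (E w, s w) (v w)}) ∪
               ({w | ∃ j, w ∈ 𝒲 ∩ {w | R₁ ≤ rl j (G j w) (rc d b K (P (lam (f j w))))}} ∪
               {w | ∃ j, w ∈ {w | ∃ i, K < |(P (lam (f j w))).coeff i|}}))
           have h3 := Pr_union hq (𝒲 ∩ {w | R₁ ≤ rk (E w, s w) (v w)})
               ({w | ∃ j, w ∈ 𝒲 ∩ {w | R₁ ≤ rl j (G j w) (rc d b K (P (lam (f j w))))}} ∪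
               {w | ∃ j, w ∈ {w | ∃ i, K < |(P (lam (f j w))).coeff i|}})
           have h4 := Pr_union hq
               {w | ∃ j, w ∈ 𝒲 ∩ {w | R₁ ≤ rl j (G j w) (rc d b K (P (lam (f j w))))}}
               {w | ∃ j, w ∈ {w | ∃ i, K < |(P (lam (f j w))).coeff i|}}
           have h5 : Pr q (𝒲 ∩ {w | R₁ ≤ rk (E w, s w) (v w)}) ≤ β₁ :=
             (Pr_inter_le hq h𝒲0).trans hrk2
           have h6 := Pr_iUnion_le hq
             (fun j => 𝒲 ∩ {w | R₁ ≤ rl j (G j w) (rc d b K (P (lam (f j w))))}) β₁
             (fun j => (Pr_inter_le hq h𝒲0).trans (hrl2 j))
           have h7 := Pr_iUnion_le hq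
             (fun j => {w | ∃ i, K < |(P (lam (f j w))).coeff i|}) β₁ hsupP
           have h8 : β₁ / 2 + (β₁ + (n * β₁ + n * β₁)) ≤ βB := by
             have e1 : βB = 8 * (n + 1) * β₁ := by
               rw [hβ₁]
               field_simp
             rw [e1]
             have : 0 ≤ (n : ℝ) * β₁ := mul_nonneg hn0 hβ₁0.le
             linarith only [hβ₁0, this]
           linarith only [h𝒲β, h1, h2, h3, h4, h5, h6, h7, h8]
         exact by
          set 𝒜₀ : Set W := 𝒜 with h𝒜₀
          -- the data for the box lemma
          set r : W → Fin R₁ × (Fin n → Fin R₁) := fun w => (cr R₁ hR₁0 (rk (E w, s w) (v w)),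
            fun j => cr R₁ hR₁0 (rl j (G j w) (rc d b K (P (lam (f j w)))))) with hr
          set al : Fin n → W → ℝ := fun j w =>
            ((∑ i, if i = j then (0 : ℝ) else ((s w i : ℕ) : ℝ)) - n * R * 2 ^ b) / 2 ^ b with hal
          set Pg : Fin n → W → Polynomial ℝ := fun j w =>
            gp d b (rc d b K (P (lam (f j w)))) (al j w) with hPg
          set E₁ : ℝ := κE * K / 2 ^ b with hE₁
          have hE₁0 : 0 ≤ E₁ := by positivity
          have h𝒜q : ∀ w ∈ 𝒜, 0 < q' w := fun w hw => (rs_pos hq).2 ⟨hw.1.1, hw.1⟩
          have hψv : ∀ ξ : Ξ, |ψ ξ - (dg b ψ ξ : ℝ) / 2 ^ b| ≤ 1 / 2 ^ b := fun ξ => dg_close b ψ ξ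
          have hinvb : (1 : ℝ) / 2 ^ b ≤ 1 := by
            rw [div_le_one h2b]
            exact one_le_pow₀ (by norm_num)
          have hA1 : ∀ w ∈ 𝒜, |(v w : ℝ) / 2 ^ b| ≤ 2 := by
            intro w hw
            have h1 := hPL.bound (f i₀ w) (hξ w hw.1.1 i₀)
            have h2 := hψv (x (f i₀ w))
            have h3 : |(v w : ℝ) / 2 ^ b| ≤ |ψ (x (f i₀ w))| + |ψ (x (f i₀ w)) - (v w : ℝ) / 2 ^ b| := by
              have := abs_sub_abs_le_abs_sub ((v w : ℝ) / 2 ^ b) (ψ (x (f i₀ w)))
              rw [abs_sub_comm] at this
              linarith only [this]
            linarith only [hinvb, h1, h2, h3]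
          have hA2 : ∀ w ∈ 𝒜, ∀ w' ∈ 𝒜, E w = E w' → r w = r w' → s w = s w' →
              (v w : ℝ) / 2 ^ b = (v w' : ℝ) / 2 ^ b := by
            intro w hw w' hw' hEE hrr hss
            have h1 := cr_inj hR₁0 hw.2.1 hw'.2.1 (Prod.ext_iff.mp hrr).1
            have h2 := hrk1 w w' (h𝒜q w hw) (h𝒜q w' hw') (Prod.ext hEE hss) h1
            rw [h2]
          have hA3 : ∀ j, ∀ w ∈ 𝒜, ∀ w' ∈ 𝒜, E w = E w' → r w = r w' → (∀ i, i ≠ j → s w i = s w' i) →
              Pg j w = Pg j w' := by
            intro j w hw w' hw' hEE hrr hss
            have h1 := cr_inj hR₁0 (hw.2.2.1 j) (hw'.2.2.1 j) (congrFun (Prod.ext_iff.mp hrr).2 j)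
            have hGG : G j w = G j w' := by
              refine Prod.ext hEE ?_
              funext i
              show (if i = j then 0 else (s w i : ℕ)) = if i = j then 0 else (s w' i : ℕ)
              by_cases hij : i = j
              · rw [if_pos hij, if_pos hij]
              · rw [if_neg hij, if_neg hij, hss i hij]
            have h2 := hrl1 j w w' (h𝒜q w hw) (h𝒜q w' hw') hGG h1
            have h3 : al j w = al j w' := by
              simp only [hal]
              congr 2
              refine Finset.sum_congr rfl fun i _ => ?_
              by_cases hij : i = j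
              · rw [if_pos hij, if_pos hij]
              · rw [if_neg hij, if_neg hij, hss i hij]
            simp only [hPg]
            rw [h2, h3]
          have hA4 : ∀ j, ∀ w ∈ 𝒜, (Pg j w).natDegree ≤ d ∧
              |(v w : ℝ) / 2 ^ b - (Pg j w).eval (((s w j : ℕ) : ℝ))| ≤ E₁ := by
            intro j w hw
            refine ⟨gp_deg _ _ _ _, ?_⟩
            simp only [hPg]
            rw [gp_eval]
            set t : ℝ := (T (x (f i₀ w)) : ℝ) / 2 ^ L with ht
            have hL2 : (0 : ℝ) < 2 ^ L := by positivity
            have ht0 : 0 ≤ t := by positivity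
            have ht1 : t ≤ 1 := by
              rw [ht, div_le_one hL2]
              have := hLF.leaf.T_lt (f i₀ w)
              exact_mod_cast this.le
            have e1 : al j w + ((s w j : ℕ) : ℝ) / 2 ^ b =
                ((∑ i, ((s w i : ℕ) : ℝ)) - n * R * 2 ^ b) / 2 ^ b := by
              simp only [hal]
              rw [← add_div]
              congr 1
              have : (∑ i, ((s w i : ℕ) : ℝ)) = (∑ i, if i = j then (0 : ℝ) else ((s w i : ℕ) : ℝ)) +
                  ((s w j : ℕ) : ℝ) := by
                have g1 : (∑ i, ((s w i : ℕ) : ℝ)) = ∑ i, ((if i = j then (0 : ℝ) else ((s w i : ℕ) : ℝ)) +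
                    if i = j then ((s w j : ℕ) : ℝ) else 0) := by
                  refine Finset.sum_congr rfl fun i _ => ?_
                  by_cases hij : i = j
                  · rw [if_pos hij, if_pos hij, hij, zero_add]
                  · rw [if_neg hij, if_neg hij, add_zero]
                rw [g1, Finset.sum_add_distrib, Finset.sum_ite_eq' Finset.univ j]
                simp
              rw [this]
              ring
            rw [e1]
            set t' : ℝ := ((∑ i, ((s w i : ℕ) : ℝ)) - n * R * 2 ^ b) / 2 ^ b with ht'
            have htt : |t - t'| ≤ CF / 2 ^ b := by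
              have h1 := hs3 w hw.1
              have e2 : t - t' = (2 ^ b * t - ((∑ i, ((s w i : ℕ) : ℝ)) - n * R * 2 ^ b)) / 2 ^ b := by
                rw [ht']
                field_simp
              rw [e2, abs_div, abs_of_pos h2b]
              exact div_le_div_of_nonneg_right h1 h2b.le
            have htt1 : |t - t'| ≤ 1 := htt.trans (by rw [div_le_one h2b]; exact hCF2)
            have htabs : |t| ≤ 1 := by rw [abs_of_nonneg ht0]; exact ht1
            have ht'2 : |t'| ≤ 2 := by
              have := abs_sub_abs_le_abs_sub t' t
              rw [abs_sub_comm] at this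
              linarith only [htt1, htabs, this]
            have h1 := PR_close d b K (P (lam (f j w))) (hPL.deg _) (hw.2.2.2 j) t t' (by linarith only [htabs]) ht'2
            have h2 := hPL.line (f j w) (hξ w hw.1.1 j)
            rw [hx w hw.1.1 j] at h2
            have h3 := hψv (x (f i₀ w))
            have h4 : (v w : ℝ) / 2 ^ b - (PR d b (rc d b K (P (lam (f j w))))).eval t' =
                -(ψ (x (f i₀ w)) - (v w : ℝ) / 2 ^ b) + (ψ (x (f i₀ w)) - (P (lam (f j w))).eval t) +
                ((P (lam (f j w))).eval t - (PR d b (rc d b K (P (lam (f j w))))).eval t') := by ring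
            have h5 : ((d : ℝ) + 1) * 2 ^ d * (d * K * |t - t'| + 1 / 2 ^ b) ≤
                (d + 1) * 2 ^ d * (d * CF + 1) * K / 2 ^ b := by
              have g1 : (d : ℝ) * K * |t - t'| ≤ d * K * (CF / 2 ^ b) :=
                mul_le_mul_of_nonneg_left htt (by positivity)
              have g2 : (1 : ℝ) / 2 ^ b ≤ K / 2 ^ b := div_le_div_of_nonneg_right hK1 h2b.le
              have g3 : (d : ℝ) * K * |t - t'| + 1 / 2 ^ b ≤ (d * CF + 1) * K / 2 ^ b := by
                have : (d : ℝ) * K * (CF / 2 ^ b) + K / 2 ^ b = (d * CF + 1) * K / 2 ^ b := by ring
                linarith only [g1, g2, this]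
              exact by
               have g4 := mul_le_mul_of_nonneg_left g3 (show 0 ≤ ((d : ℝ) + 1) * 2 ^ d by positivity)
               refine g4.trans (le_of_eq ?_)
               ring
            exact by
             have h6 : 1 / 2 ^ b + C₀ / 2 ^ b + (d + 1) * 2 ^ d * (d * CF + 1) * K / 2 ^ b ≤ E₁ := by
               have g2 : (1 : ℝ) / 2 ^ b ≤ K / 2 ^ b := div_le_div_of_nonneg_right hK1 h2b.le
               have g3 : C₀ / 2 ^ b ≤ C₀ * K / 2 ^ b :=
                 div_le_div_of_nonneg_right (le_mul_of_one_le_right hC₀0.le hK1) h2b.le
               have g4 : K / 2 ^ b + C₀ * K / 2 ^ b + (d + 1) * 2 ^ d * (d * CF + 1) * K / 2 ^ b = E₁ := by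
                 rw [hE₁, hκE]
                 ring
               exact by
                linarith only [g2, g3, g4]
             exact by
              rw [h4]
              have h7 := abs_add_three (-(ψ (x (f i₀ w)) - (v w : ℝ) / 2 ^ b))
                (ψ (x (f i₀ w)) - (P (lam (f j w))).eval t)
                ((P (lam (f j w))).eval t - (PR d b (rc d b K (P (lam (f j w))))).eval t')
              rw [abs_neg] at h7
              linarith only [h1, h2, h3, h5, h6, h7]
          -- the entropy of the skew position
          exact by
           have hNg : (0 : ℝ) < ((2 * R * 2 ^ b : ℕ) : ℝ) := by positivity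
           have hNgb : (2 : ℝ) ^ b ≤ ((2 * R * 2 ^ b : ℕ) : ℝ) := by
             push_cast
             exact by
              exact le_mul_of_one_le_left h2b.le (by linarith only [hR1])
           exact by
            have hlogNg : Real.log ((2 * R * 2 ^ b : ℕ) : ℝ) = Real.log (2 * R) + b * Real.log 2 := by
              exact by
               push_cast
               exact by
                rw [Real.log_mul (by positivity) h2b.ne', Real.log_pow]
            exact by
             have hEs : n * Real.log ((2 * R * 2 ^ b : ℕ) : ℝ) - CH q s E ≤ κh * S := by
               exact by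
                have h1 : CH q (fun w => bc L b pos (x (f i₀ w))) E ≤ CH q s E +
                    CH q (fun w => bc L b pos (x (f i₀ w))) (fun w => (s w, E w)) :=
                  CH_le_add hq0 (fun w => bc L b pos (x (f i₀ w))) s E
                exact by
                 have h2 := CH_bc_le hq (fun w => bc L b pos (x (f i₀ w))) (fun w => (s w, E w)) J CF
                   (2 ^ b) hCF0 h2b.le hbcM (fun w w' h h' e i => hs1 w (hJt w h) w' (hJt w' h')
                     (Prod.ext_iff.mp e).2 (Prod.ext_iff.mp e).1 i)
                 have h3 : Pr q {w | J w = false} ≤ Pr q 𝒲ᶜ := Pr_mono hq fun w _ hw => hJf w hw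
                 exact by
                  have h4 : Real.log (2 * 2 ^ b + 1) ≤ b + 2 := by
                    have g1 : (2 : ℝ) * 2 ^ b + 1 ≤ 2 ^ (b + 2) := by
                      exact by
                       rw [pow_add]
                       exact by
                        have : (1 : ℝ) ≤ 2 ^ b := one_le_pow₀ (by norm_num)
                        linarith only [hC₀, hCF, hκ1_0, hκB_0, hβi, hDle, hb2]
                    exact by
                     have g2 := Real.log_le_log (by positivity) g1
                     rw [Real.log_pow] at g2
                     push_cast at g2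
                     have g3 : ((b : ℝ) + 2) * Real.log 2 ≤ (b + 2) * 1 :=
                       mul_le_mul_of_nonneg_left hl2' (by positivity)
                     linarith only [g2, g3]
                  exact by
                   have h5 : Pr q {w | J w = false} * Real.log (2 * 2 ^ b + 1) ≤ S + 2 := by
                     have g0 : 0 ≤ Real.log (2 * 2 ^ b + 1) := Real.log_nonneg (by linarith only [hC₀, hCF, hκ1_0, hκB_0, hβi, hDle, hb2])
                     exact by
                      have g1 : Pr q {w | J w = false} * Real.log (2 * 2 ^ b + 1) ≤ Pr q 𝒲ᶜ * (b + 2) :=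
                        mul_le_mul h3 h4 g0 (Pr_nonneg hq _)
                      have g2 : Pr q 𝒲ᶜ * (b + 2) = Pr q 𝒲ᶜ * b + Pr q 𝒲ᶜ * 2 := by ring
                      have g3 : Pr q 𝒲ᶜ ≤ 1 := Pr_le_one hq _
                      linarith only [hβ₁1, h𝒲b, h𝒲β, g1]
                   exact by
                    have h6 : (n : ℝ) * (Real.log (2 * CF + 1) + Pr q {w | J w = false} *
                        Real.log (2 * 2 ^ b + 1)) ≤ n * ((2 * CF + 1) + (S + 2)) :=
                      mul_le_mul_of_nonneg_left (add_le_add hlogCF h5) hn0
                    exact by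
                     have h7 : H q (fun w => bc L b pos (x (f i₀ w))) = H p (fun ω => bc L b pos (x ω)) :=
                       (hmarg i₀).H (fun ω => bc L b pos (x ω))
                     have h8 : CH q (fun w => bc L b pos (x (f i₀ w))) E =
                         H q (fun w => bc L b pos (x (f i₀ w))) - (H q E -
                           CH q E (fun w => bc L b pos (x (f i₀ w)))) := by
                       have g1 : H q (fun w => (bc L b pos (x (f i₀ w)), E w)) =
                           H q (fun w => (E w, bc L b pos (x (f i₀ w)))) := by
                         refine H_congr hq0 ?_ ?_ <;>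
                         · intro w w' _ _ e
                           exact by
                            simp only [Prod.mk.injEq] at e ⊢
                            tauto
                       exact by
                        unfold CH
                        exact by
                         rw [g1]
                         exact by
                          ring
                     exact by
                      have h9 : CN * (e₁ + W0 L κ γ ε) ≤ CN * (2 * S) :=
                        mul_le_mul_of_nonneg_left (by linarith only [he₁, hW0]) (by linarith only [hCN])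
                      exact by
                       have h10 : (n : ℝ) * Real.log (2 * R) ≤ n * (2 * R) :=
                         mul_le_mul_of_nonneg_left (log_le_self' (by positivity)) hn0
                       exact by
                        have h11 : κh * S = (2 * n * R) * S + (2 * CN + 1) * S + (n * (2 * CF + 1)) * S +
                            3 * n * S + S := by
                          exact by
                           rw [hκh]
                           exact by
                            ring
                        exact by
                         have h12 : 2 * (n : ℝ) * R ≤ (2 * n * R) * S :=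
                           le_mul_of_one_le_right (by positivity) hS1
                         have h13 : (n : ℝ) * (2 * CF + 1) ≤ (n * (2 * CF + 1)) * S :=
                           le_mul_of_one_le_right (by positivity) hS1
                         exact by
                          have h14 : (n : ℝ) * 1 ≤ n * S := mul_le_mul_of_nonneg_left hS1 hn0
                          rw [hlogNg]
                          have h15 : (n : ℝ) * (Real.log (2 * R) + b * Real.log 2) = n * Real.log (2 * R) +
                              n * (b * Real.log 2) := by ring
                          have h16 : (n : ℝ) * ((2 * CF + 1) + (S + 2)) = n * (2 * CF + 1) + n * S + 2 * (n * 1) := by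
                            exact by
                             ring
                          exact by
                           have h17 : 3 * (n : ℝ) * S = 3 * (n * S) := by ring
                           exact by
                            have h18 : (2 * CN + 1) * S = CN * (2 * S) + S := by ring
                            exact by
                             have hinf' : H q E - CH q E (fun w => bc L b pos (x (f i₀ w))) ≤ S := hinf
                             exact by
                              linarith only [hS1, hl2', hinf, hcon2, h1, h2, h6, h7, h8, h9, h10, h12, h13, h14]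
             -- the number of ranks
             exact by
              have hcard : Real.log ((Fintype.card (Fin R₁ × (Fin n → Fin R₁)) : ℝ) + 1) ≤ κc * S := by
                exact by
                 have h1 : (Fintype.card (Fin R₁ × (Fin n → Fin R₁)) : ℝ) = (R₁ : ℝ) ^ (n + 1) := by
                   exact by
                    rw [Fintype.card_prod, Fintype.card_fun, Fintype.card_fin, Fintype.card_fin]
                    exact by
                     push_cast
                     exact by
                      ring
                 exact by
                  have h2 : (1 : ℝ) ≤ (R₁ : ℝ) ^ (n + 1) := one_le_pow₀ hR₁1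
                  exact by
                   have h3 : Real.log ((R₁ : ℝ) ^ (n + 1) + 1) ≤ Real.log (2 * (R₁ : ℝ) ^ (n + 1)) :=
                     Real.log_le_log (by positivity) (by linarith only [h2])
                   exact by
                    rw [Real.log_mul (by norm_num) (by positivity), Real.log_pow] at h3
                    rw [h1]
                    have h4 : ((n + 1 : ℕ) : ℝ) * Real.log R₁ ≤ (n + 1) * ((κr * S + 1) / β₁ + 1) := by
                      push_cast
                      exact mul_le_mul_of_nonneg_left hlogR' (by positivity)
                    have h5 : (κr * S + 1) / β₁ + 1 ≤ ((κr + 1) / β₁ + 1) * S := by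
                      have g1 : (κr * S + 1) / β₁ ≤ (κr + 1) / β₁ * S := by
                        rw [div_mul_eq_mul_div]
                        refine div_le_div_of_nonneg_right ?_ hβ₁0.le
                        linarith only [hS1, add_mul κr 1 S]
                      linarith only [hS1, g1, add_mul ((κr + 1) / β₁) 1 S]
                    exact by
                     have h6 := mul_le_mul_of_nonneg_left h5 (show (0 : ℝ) ≤ (n : ℝ) + 1 by positivity)
                     have h7 : κc * S = S + (n + 1) * (((κr + 1) / β₁ + 1) * S) := by
                       rw [hκc]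
                       ring
                     linarith only [hS1, hl2', h3, h4, h6]
              exact by
               set Z : ℝ := CB * ((κh * S + 1) / βB ^ 2 +
                 Real.log ((Fintype.card (Fin R₁ × (Fin n → Fin R₁)) : ℝ) + 1)) with hZ
               have hZB : Z ≤ κB * S := by
                 rw [hZ, hκB, mul_assoc]
                 refine mul_le_mul_of_nonneg_left ?_ (by linarith only [hCB])
                 have h1 : (κh * S + 1) / βB ^ 2 ≤ (κh + 1) / βB ^ 2 * S := by
                   rw [div_mul_eq_mul_div]
                   refine div_le_div_of_nonneg_right ?_ (by positivity)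
                   linarith only [hS1, add_mul κh 1 S]
                 exact by
                  linarith only [hcard, h1, add_mul ((κh + 1) / βB ^ 2) κc S]
               exact by
                have hZ0 : 0 ≤ Z := by
                  have h1 : 0 ≤ Real.log ((Fintype.card (Fin R₁ × (Fin n → Fin R₁)) : ℝ) + 1) :=
                    Real.log_nonneg (by
                      have : (0 : ℝ) ≤ (Fintype.card (Fin R₁ × (Fin n → Fin R₁)) : ℝ) := Nat.cast_nonneg _
                      linarith only)
                  have h2 : 0 ≤ κh * S := mul_nonneg hκh_0 hS0.le
                  rw [hZ]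
                  positivity
                exact by
                 have hZlog : Z ≤ Real.log ((2 * R * 2 ^ b : ℕ) : ℝ) := by
                   rw [hlogNg]
                   have h1 : 0 ≤ Real.log (2 * (R : ℝ)) := Real.log_nonneg (by linarith only [hR1])
                   exact by
                    have h2 := mul_le_mul_of_nonneg_left hl2 hb0
                    linarith only [hκS, hZB, h1, h2, hκS.2]
                 exact by
                  obtain ⟨i', Q, 𝒜', hA'sub, hA'pr, hi', hQdeg, hQbd, hQA⟩ := hbxl W (Fin n → Fin n → ℤ)
                    (Fin R₁ × (Fin n → Fin R₁)) q (2 * R * 2 ^ b) s E r (fun w => (v w : ℝ) / 2 ^ b) Pg (κh * S)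
                    βB E₁ 𝒜 hq (by
                      have : 0 < 2 * R * 2 ^ b := by positivity
                      omega) hβB0 hβB1 hE₁0 (mul_nonneg hκh_0 hS0.le) h𝒜c hA1 hA2 hA3 hA4 hEs hZlog
                  exact by
                   have hE₁K : 1 + E₁ ≤ (1 + κE) * K := by
                     exact by
                      have h1 : E₁ ≤ κE * K := div_le_self (by positivity) (one_le_pow₀ (by norm_num))
                      linarith only [hK1, h1, add_mul 1 κE K]
                   exact by
                    have hKZ : K * Real.exp Z ≤ Real.exp ((κ1 + κB) * S) := by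
                      rw [add_mul, Real.exp_add]
                      exact mul_le_mul hKS (Real.exp_le_exp.2 hZB) (Real.exp_pos _).le (Real.exp_pos _).le
                    have hκηe : κη * Real.exp ((κ1 + κB) * S) ≤ Real.exp ((κη + κ1 + κB + κc) * S) := by
                      have h1 : κη ≤ Real.exp (κη * S) := by
                        have g1 : κη ≤ κη * S := le_mul_of_one_le_right (by linarith only [hκη_1]) hS1
                        exact by
                         linarith only [g1, Real.add_one_le_exp (κη * S)]
                      exact by
                       have h2 : (κη + κ1 + κB + κc) * S = κη * S + (κ1 + κB) * S + κc * S := by ring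
                       exact by
                        rw [h2, Real.exp_add, Real.exp_add]
                        have h3 : 1 ≤ Real.exp (κc * S) := Real.one_le_exp (mul_nonneg hκc_0 hS0.le)
                        have h4 : κη * Real.exp ((κ1 + κB) * S) ≤ Real.exp (κη * S) * Real.exp ((κ1 + κB) * S) :=
                          mul_le_mul_of_nonneg_right h1 (Real.exp_pos _).le
                        exact h4.trans (le_mul_of_one_le_right (by positivity) h3)
                    exact by
                     have hCPF : 0 ≤ CP * CF * (1 + κE) := by positivity
                     exact by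
                      refine ⟨Fin R₁ × (Fin n → Fin R₁), inferInstance, r, i',
                        fun a r' k => qt b R (Iv a) (Q a r' k), 𝒜', ?_, ?_, ?_, ?_, ?_, ?_⟩
                      · refine hcard.trans (mul_le_mul_of_nonneg_right ?_ hS0.le)
                        linarith only [hκ1_0, hκB_0, hκE_1, hCPF]
                      · intro w
                        exact by
                         refine (hi' w).trans (Real.exp_le_exp.2 ?_)
                         refine hZB.trans (mul_le_mul_of_nonneg_right ?_ hS0.le)
                         linarith only [hκ1_0, hκc_0, hκE_1, hCPF]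
                      · refine hA'pr.trans (le_of_eq ?_)
                        exact by
                         rw [hβB]
                         field_simp
                      · intro a r' k
                        exact by
                         exact qt_deg b R (Iv a) (Q a r' k) d (hQdeg a r' k)
                      · intro a r' k y hy
                        exact by
                         rw [qt_eval]
                         exact by
                          have hbd : ∀ j, |(2 : ℝ) ^ b * (∑ i, Iv a j i * y i + R)| ≤
                              4 * ((2 * R * 2 ^ b : ℕ) : ℝ) := by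
                            exact by
                             intro j
                             exact by
                              have g1 : |∑ i, Iv a j i * y i| ≤ R * 2 := by
                                exact by
                                 refine (Finset.abs_sum_le_sum_abs _ _).trans ?_
                                 exact by
                                  have g2 : ∀ i ∈ Finset.univ, |Iv a j i * y i| ≤ |Iv a j i| * 2 := by
                                    exact by
                                     intro i _
                                     exact by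
                                      rw [abs_mul]
                                      exact by
                                       exact mul_le_mul_of_nonneg_left (hy i) (abs_nonneg _)
                                  exact by
                                   refine (Finset.sum_le_sum g2).trans ?_
                                   exact by
                                    rw [← Finset.sum_mul]
                                    exact by
                                     exact mul_le_mul_of_nonneg_right (hIv a j) (by norm_num)
                              exact by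
                               rw [abs_mul, abs_of_pos h2b]
                               exact by
                                have g3 : |∑ i, Iv a j i * y i + (R : ℝ)| ≤ 3 * R := by
                                  exact by
                                   refine (abs_add_le _ _).trans ?_
                                   exact by
                                    rw [abs_of_nonneg (show (0 : ℝ) ≤ R by linarith only [hR1])]
                                    exact by
                                     linarith only [g1]
                                exact by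
                                 have g4 := mul_le_mul_of_nonneg_left g3 h2b.le
                                 exact by
                                  refine g4.trans ?_
                                  exact by
                                   have g5 : 0 ≤ (2 : ℝ) ^ b * R := by positivity
                                   exact by
                                    have g6 : ((2 * R * 2 ^ b : ℕ) : ℝ) = 2 * (2 ^ b * R) := by
                                      exact by
                                       push_cast
                                       exact by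
                                        ring
                                    exact by
                                     rw [g6]
                                     exact by
                                      linarith only [hC₀, hCF, hκ1_0, hκB_0, hβi, hDle, hb2, hNgb, g6, mul_comm ((2 : ℝ) ^ b) (3 * (R : ℝ)), mul_comm ((2 : ℝ) ^ b) (R : ℝ)]
                          exact by
                           have h1 := hQbd a r' k (fun j => 2 ^ b * (∑ i, Iv a j i * y i + R)) hbd
                           exact by
                            refine h1.trans ?_
                            have h2 : (1 + E₁) * Real.exp Z ≤ (1 + κE) * (K * Real.exp Z) := by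
                              exact by
                               rw [← mul_assoc]
                               exact by
                                exact mul_le_mul_of_nonneg_right hE₁K (Real.exp_pos _).le
                            exact by
                             refine h2.trans (le_trans ?_ hκηe)
                             exact by
                              refine mul_le_mul ?_ hKZ (by positivity) (by linarith only [hκE_1, hCPF])
                              exact by
                               linarith only [hCPF]
                      · intro w hw hqw ξ hbcξ hdgξ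
                        exact by
                         rw [qt_eval]
                         have hwA := hA'sub hw
                         have h1 := hQA w hw
                         have h2 := hs2 w hwA.1 ξ hbcξ
                         have h3 := hψv ξ
                         rw [hdgξ] at h3
                         set Q₀ := Q (E w) (r w) (i' w) with hQ₀
                         exact by
                          set y' : Fin n → ℝ := fun j => 2 ^ b * (∑ i, Iv (E w) j i * ((pos ξ (some i) : ℝ) / 2 ^ L) + R)
                            with hy'
                          exact by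
                           set y₀ : Fin n → ℝ := fun j => ((s w j : ℕ) : ℝ) with hy₀
                           exact by
                            have hQ₀d : Q₀.totalDegree ≤ n * d := totalDegree_le_of_degreeOf _ _ (hQdeg _ _ _)
                            have h4 := hlip Q₀ ((1 + E₁) * Real.exp Z) (CF / ((2 * R * 2 ^ b : ℕ) : ℝ))
                              ((2 * R * 2 ^ b : ℕ) : ℝ) y₀ y' hQ₀d hNg (by
                                intro z hz
                                refine hQbd _ _ _ z fun j => (hz j).trans ?_
                                linarith only [hC₀, hCF, hκ1_0, hκB_0, hβi, hDle, hb2, hNgb]) (by positivity) (by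
                                rw [div_le_one hNg]
                                linarith only [hC₀, hCF, hκ1_0, hκB_0, hβi, hDle, hb2, hNgb]) (by
                                intro j
                                have g1 : ((s w j : ℕ) : ℝ) ≤ ((2 * R * 2 ^ b : ℕ) : ℝ) :=
                                  Nat.cast_le.2 (s w j).2.le
                                show |((s w j : ℕ) : ℝ)| ≤ _
                                rw [abs_of_nonneg (Nat.cast_nonneg _)]
                                exact by
                                 exact g1) (by
                                 intro j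
                                 rw [div_mul_cancel₀ _ hNg.ne', abs_sub_comm]
                                 exact h2 j)
                            exact by
                             have h5 : CF / ((2 * R * 2 ^ b : ℕ) : ℝ) ≤ CF / 2 ^ b :=
                               div_le_div_of_nonneg_left hCF0 h2b hNgb
                             have h6 : CP * (CF / ((2 * R * 2 ^ b : ℕ) : ℝ) * ((1 + E₁) * Real.exp Z)) ≤
                                 CP * CF * (1 + κE) * (K * Real.exp Z) / 2 ^ b := by
                               have g1 : (1 + E₁) * Real.exp Z ≤ (1 + κE) * (K * Real.exp Z) := by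
                                 rw [← mul_assoc]
                                 exact mul_le_mul_of_nonneg_right hE₁K (Real.exp_pos _).le
                               have g2 := mul_le_mul h5 g1 (by positivity) (by positivity)
                               have g3 := mul_le_mul_of_nonneg_left g2 hCP
                               refine g3.trans (le_of_eq ?_)
                               ring
                             exact by
                              have h7 : E₁ * Real.exp Z = κE * (K * Real.exp Z) / 2 ^ b := by
                                rw [hE₁]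
                                ring
                              have h8 : (1 : ℝ) / 2 ^ b ≤ (K * Real.exp Z) / 2 ^ b := by
                                refine div_le_div_of_nonneg_right ?_ h2b.le
                                have := Real.one_le_exp hZ0
                                exact one_le_mul_of_one_le_of_one_le hK1 this
                              have h9 : ψ ξ - MvPolynomial.eval y' Q₀ = (ψ ξ - (v w : ℝ) / 2 ^ b) +
                                  ((v w : ℝ) / 2 ^ b - MvPolynomial.eval y₀ Q₀) -
                                  (MvPolynomial.eval y' Q₀ - MvPolynomial.eval y₀ Q₀) := by ring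
                              have h10 : |ψ ξ - MvPolynomial.eval y' Q₀| ≤ 1 / 2 ^ b + E₁ * Real.exp Z +
                                  CP * (CF / ((2 * R * 2 ^ b : ℕ) : ℝ) * ((1 + E₁) * Real.exp Z)) := by
                                rw [h9]
                                refine (abs_sub _ _).trans (add_le_add ((abs_add_le _ _).trans (add_le_add h3 h1)) h4)
                              exact by
                               have h11 : (K * Real.exp Z) / 2 ^ b + κE * (K * Real.exp Z) / 2 ^ b +
                                   CP * CF * (1 + κE) * (K * Real.exp Z) / 2 ^ b = κη * (K * Real.exp Z) / 2 ^ b := by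
                                 rw [hκη]
                                 ring
                               exact by
                                have h12 : κη * (K * Real.exp Z) / 2 ^ b ≤
                                    Real.exp ((κη + κ1 + κB + κc) * S) / 2 ^ b := by
                                  refine div_le_div_of_nonneg_right ?_ h2b.le
                                  exact (mul_le_mul_of_nonneg_left hKZ (by linarith only [hκE_1, hCPF])).trans hκηe
                                exact by
                                 linarith only [h6, h7, h8, h10, h11, h12]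

end Pool.KBX
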