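import Pool.Agent.H84.KBOX.Reg5

/-!
# Regularity of a leaf
-/

set_option autoImplicit false

namespace Pool.KBX

open Finset Real MeasureTheory
open Pool.Agent.H49.Ent Pool.Agent.H32.Dense Pool.STK Pool.KAF Pool.KAL Pool.KS3

theorem reg_of (hcs : ∀ (n d : ℕ) (C₀ : ℝ), 3 ≤ d → 1 ≤ C₀ →
      ∃ (CB cB CE : ℝ) (c₁ c₂ : ℕ), 1 ≤ CB ∧ 0 < cB ∧ 1 ≤ CE ∧ CSt n d C₀ CB cB CE c₁ c₂)
    (hGSC : ∀ (n : ℕ) (C₀ : ℝ), 1 ≤ C₀ → ∃ CG : ℝ, 1 ≤ CG ∧ GSt n C₀ CG)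
    (hSTB : STBPStmt) (hSLI : SLIStmt) : REGStmt := by
  classical
  intro n d C₀ υ σ hd hC₀ hυ hdυ hσ hσ1
  rcases Nat.eq_zero_or_pos n with hn | hn
  · subst hn
    exact ⟨1, 0, one_pos, fun Ω Λ Ξ _ p lam x T pos A B μ i₀ => i₀.elim0⟩
  obtain ⟨CB, cB, CE, c₁, c₂, hCB, hcB, hCE, hst⟩ := hcs n d C₀ hd hC₀
  obtain ⟨CG, hCG, hgs⟩ := hGSC n C₀ hC₀
  have hnr : (1 : ℝ) ≤ n := by exact_mod_cast hn
  have hd0 : (0 : ℝ) < (d : ℝ) + 1 := by positivity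
  obtain ⟨B₀, hB₀⟩ : ∃ B₀ : ℕ, B₀ = ⌈CG * (2 * (d + 1) : ℕ) / (cB / 8)⌉₊ := ⟨_, rfl⟩
  have hB₀1 : CG * (2 * (d + 1) : ℕ) ≤ B₀ * (cB / 8) := by
    have h1 : CG * (2 * (d + 1) : ℕ) / (cB / 8) ≤ B₀ := by
      rw [hB₀]
      exact Nat.le_ceil _
    rwa [div_le_iff₀ (by positivity)] at h1
  obtain ⟨ρ, hρ⟩ : ∃ ρ : ℝ, ρ = σ / (4 * ((d + 1) * (10 + 2 * B₀))) := ⟨_, rfl⟩
  have hρ0 : 0 < ρ := by rw [hρ]; positivity
  have hρσ : 4 * ((d + 1) * ρ * (10 + 2 * B₀)) ≤ σ := by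
    rw [hρ]
    apply le_of_eq
    field_simp
  obtain ⟨I₀, hI₀⟩ : ∃ I₀ : ℕ, I₀ = ⌈1 / ρ⌉₊ := ⟨_, rfl⟩
  have hI₀1 : 1 / ρ ≤ I₀ := by rw [hI₀]; exact Nat.le_ceil _
  obtain ⟨M₀, hM₀⟩ : ∃ M₀ : ℕ, M₀ = (I₀ + 1) * (I₀ + 1) := ⟨_, rfl⟩
  obtain ⟨A₁, hA₁⟩ : ∃ A₁ : ℝ, A₁ = 2 * CB + 1 + 1 := ⟨_, rfl⟩
  have hA₁1 : 1 < A₁ := by linarith only [hσ, hσ1, hCB, hA₁]
  have hA₁0 : 0 < A₁ := by linarith only [hσ, hσ1, hCB, hA₁]
  obtain ⟨β, hβ⟩ : ∃ β : ℝ, β = cB * ((d + 1) * ρ) := ⟨_, rfl⟩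
  have hβ0 : 0 < β := by rw [hβ]; positivity
  obtain ⟨τ, hτ⟩ : ∃ τ : ℝ, τ = min β σ / 2 := ⟨_, rfl⟩
  have hτ0 : 0 < τ := by rw [hτ]; exact half_pos (lt_min hβ0 hσ)
  have hτβ : τ ≤ β := by
    have := min_le_left β σ
    linarith only [hβ0, hτ, this]
  have hτσ : τ ≤ σ := by
    have := min_le_right β σ
    linarith only [hσ, hτ, this]
  obtain ⟨N, κh, hκh0, hκh1, hκh2⟩ := chain_len hn hCB (show 0 < τ / A₁ ^ M₀ by positivity)
  have hN0 : (0 : ℝ) ≤ N := Nat.cast_nonneg N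
  have hpowA : 0 < A₁ ^ M₀ := by positivity
  have hκhA : (N + 1) * (κh * A₁ ^ M₀) ≤ τ := by
    rw [le_div_iff₀ hpowA] at hκh2
    linarith only [hκh2]
  obtain ⟨c, hc⟩ : ∃ c : ℝ, c = min (min (κh / (64 * CB)) (β / (N + 1))) (cB / (8 * n)) :=
    ⟨_, rfl⟩
  have hCB0 : 0 < CB := by linarith only [hσ, hσ1, hCB]
  have hc0 : 0 < c := by
    rw [hc]
    refine lt_min (lt_min (by positivity) (by positivity)) (by positivity)
  have hc1 : CB * c ≤ κh / 64 := by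
    have h1 : c ≤ κh / (64 * CB) := by
      rw [hc]
      exact (min_le_left _ _).trans (min_le_left _ _)
    rw [le_div_iff₀ (by positivity)] at h1
    linarith only [h1]
  have hc2 : (N + 1) * c ≤ β := by
    have h1 : c ≤ β / (N + 1) := by
      rw [hc]
      exact (min_le_left _ _).trans (min_le_right _ _)
    rw [le_div_iff₀ (by positivity)] at h1
    linarith only [h1]
  have hc3 : 8 * (n * c) ≤ cB := by
    have h1 : c ≤ cB / (8 * n) := by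
      rw [hc]
      exact min_le_right _ _
    rw [le_div_iff₀ (by positivity)] at h1
    linarith only [h1]
  obtain ⟨X, hX⟩ : ∃ X : ℝ, X = 2 * (c₂ + 2) / ρ + 4 * ((c₁ + c₂ + I₀ : ℕ) : ℝ) / σ +
    8 * (CB * CE + 1) / κh + (N + 1) * (CE + 1) / β + 1 := ⟨_, rfl⟩
  refine ⟨c, ⌈X⌉₊, hc0, ?_⟩
  intro Ω Λ Ξ _ p lam x T pos A B μ i₀ L κ γ u δ ε e₁ e₃ hSL hTC hκ hL hdet hsmall hu hu2
  have hLX : X ≤ L := (Nat.le_ceil X).trans (by exact_mod_cast hL)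
  have hx1 : 0 ≤ 2 * ((c₂ : ℝ) + 2) / ρ := by positivity
  have hx2 : 0 ≤ 4 * ((c₁ + c₂ + I₀ : ℕ) : ℝ) / σ := by positivity
  have hx3 : 0 ≤ 8 * (CB * CE + 1) / κh := by positivity
  have hx4 : 0 ≤ ((N : ℝ) + 1) * (CE + 1) / β := by positivity
  have hL1 : 2 * ((c₂ : ℝ) + 2) ≤ ρ * L := by
    have h1 : 2 * ((c₂ : ℝ) + 2) / ρ ≤ L := by linarith only [hσ, hσ1, hX, hLX, hx2, hx3, hx4]
    rw [div_le_iff₀ hρ0] at h1
    linarith only [h1]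
  have hL2 : 4 * ((c₁ + c₂ + I₀ : ℕ) : ℝ) ≤ σ * L := by
    have h1 : 4 * ((c₁ + c₂ + I₀ : ℕ) : ℝ) / σ ≤ L := by linarith only [hσ, hσ1, hX, hLX, hx1, hx3, hx4]
    rw [div_le_iff₀ hσ] at h1
    linarith only [h1]
  have hL3 : 8 * (CB * CE + 1) ≤ κh * L := by
    have h1 : 8 * (CB * CE + 1) / κh ≤ L := by linarith only [hσ, hσ1, hX, hLX, hx1, hx2, hx4]
    rw [div_le_iff₀ hκh0] at h1
    linarith only [h1]
  have hL4 : (N + 1) * (CE + 1) ≤ β * L := by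
    have h1 : (N + 1) * (CE + 1) / β ≤ L := by linarith only [hσ, hσ1, hX, hLX, hx1, hx2, hx3]
    rw [div_le_iff₀ hβ0] at h1
    linarith only [h1]
  have hLpos : (1 : ℝ) ≤ L := by linarith only [hX, hLX, hx1, hx2, hx3, hx4]
  have hL0 : (0 : ℝ) ≤ L := by linarith only [hσ, hσ1, hX, hLX, hx1, hx2, hx3, hx4]
  obtain ⟨h, e, I, Ks, s, n1, n2, n3, n4, n5, n6, n7, n8, n9, n10, n11, n12, n13, n14⟩ :=
    reg_num hd hρ0 hσ hσ1 hρσ hI₀1 hdυ hu hu2 hL1 hL2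
  have he₁0 := hSL.e₁_nonneg
  have he₃0 := hSL.e₃_nonneg
  have hε0 := hSL.ε_nonneg
  have hW : ε * L ≤ W0 L κ γ ε ∧ 0 ≤ W0 L κ γ ε := by
    have h1 : 0 ≤ (L : ℝ) / κ := by positivity
    have h2 : 0 ≤ ε * L := mul_nonneg hε0 hL0
    have h3 : (0 : ℝ) ≤ γ := Nat.cast_nonneg γ
    have h4 : (0 : ℝ) ≤ κ := Nat.cast_nonneg κ
    unfold W0
    constructor <;> linarith
  have hεc : ε ≤ c := by
    have h1 : ε * L ≤ c * L := by linarith only [hsmall, he₁0, he₃0, hW, hW.1]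
    exact le_of_mul_le_mul_right h1 (by linarith only [hσ, hσ1, hX, hLX, hx1, hx2, hx3, hx4])
  -- the freedoms
  obtain ⟨kap, hkap⟩ : ∃ kap : ℕ → ℝ, kap = fun m => κh * L * A₁ ^ m := ⟨_, rfl⟩
  have hkap0 : ∀ m, 0 ≤ kap m := fun m => by rw [hkap]; positivity
  have hsum : ∀ m, (∑ j ∈ range m, kap j) * (2 * CB + 1) ≤ kap m := by
    intro m
    have h1 := geo_sum hA₁1 m
    have h2 : ∑ j ∈ range m, kap j = κh * L * ∑ j ∈ range m, A₁ ^ j := by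
      rw [hkap, Finset.mul_sum]
    have h3 : kap m = κh * L * A₁ ^ m := by rw [hkap]
    rw [h2, h3, mul_assoc]
    refine mul_le_mul_of_nonneg_left ?_ (by positivity)
    have h4 : A₁ - 1 = 2 * CB + 1 := by linarith only [hA₁]
    rwa [h4] at h1
  have hsum0 : ∀ m, 0 ≤ ∑ j ∈ range m, kap j := fun m => Finset.sum_nonneg fun j _ => hkap0 j
  obtain ⟨a, ha⟩ : ∃ a : ℝ, a = kap M₀ := ⟨_, rfl⟩
  have ha' : a = κh * A₁ ^ M₀ * L := by rw [ha, hkap]; ring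
  have hNa : (N + 1) * a ≤ τ * L := by
    rw [ha']
    have := mul_le_mul_of_nonneg_right hκhA hL0
    linarith only [this]
  have ha0 : 0 ≤ a := by rw [ha]; exact hkap0 _
  have haτ : a ≤ τ * L := by
    have : 0 ≤ (N : ℝ) * a := by positivity
    linarith only [hNa, this]
  have hsa : ∑ m ∈ range M₀, kap m ≤ a := by
    have h1 := hsum M₀
    have h2 := hsum0 M₀
    have h3 : (∑ j ∈ range M₀, kap j) * 1 ≤ (∑ j ∈ range M₀, kap j) * (2 * CB + 1) :=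
      mul_le_mul_of_nonneg_left (by linarith only [hσ, hσ1, hCB]) h2
    rw [ha]
    linarith only [h1, h3]
  have hκm : ∀ m, κh * L ≤ kap m := by
    intro m
    rw [hkap]
    exact le_mul_of_one_le_right (by positivity) (one_le_pow₀ hA₁1.le)
  have hstab : ∀ m ≤ M₀, Real.exp (-kap m) ≤ 1 / 2 * Real.exp (-(CB * ((1 - 1 / n) ^ N * L +
      (e₁ + ∑ j ∈ range m, kap j + CE) + e₃ + W0 L κ γ ε))) := by
    intro m _
    have h1 : CB * ((1 - 1 / n) ^ N * L) ≤ κh * L / 8 := by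
      have := mul_le_mul_of_nonneg_right hκh1 hL0
      linarith only [this]
    have h2 : CB * (∑ j ∈ range m, kap j) ≤ kap m / 2 := by
      have g1 := hsum m
      have g2 := hsum0 m
      linarith only [g1, g2]
    have h3 : CB * (e₁ + e₃ + W0 L κ γ ε) ≤ κh * L / 64 := by
      have g1 := mul_le_mul_of_nonneg_left hsmall hCB0.le
      have g2 := mul_le_mul_of_nonneg_right hc1 hL0
      linarith only [g1, g2]
    have h4 : CB * CE + 1 ≤ κh * L / 8 := by linarith only [hL3]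
    have h5 := hκm m
    have h6 : 0 ≤ κh * L := by positivity
    have h7 : CB * ((1 - 1 / n) ^ N * L + (e₁ + ∑ j ∈ range m, kap j + CE) + e₃ + W0 L κ γ ε) + 1
        ≤ kap m := by
      have g1 : CB * ((1 - 1 / n) ^ N * L + (e₁ + ∑ j ∈ range m, kap j + CE) + e₃ + W0 L κ γ ε) =
          CB * ((1 - 1 / n) ^ N * L) + CB * (∑ j ∈ range m, kap j) +
            CB * (e₁ + e₃ + W0 L κ γ ε) + CB * CE := by ring
      rw [g1]
      linarith only [hL3, h1, h2, h3, h5, h6]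
    have h8 : Real.exp (-kap m) ≤ Real.exp (-1 + -(CB * ((1 - 1 / n) ^ N * L +
        (e₁ + ∑ j ∈ range m, kap j + CE) + e₃ + W0 L κ γ ε))) :=
      Real.exp_le_exp.2 (by linarith only [hL3, h1, h2, h3, h5, h6])
    rw [Real.exp_add] at h8
    refine h8.trans (mul_le_mul_of_nonneg_right ?_ (Real.exp_pos _).le)
    have h9 : (2 : ℝ) ≤ Real.exp 1 := by
      have := Real.add_one_le_exp (1 : ℝ)
      linarith only [this]
    rw [Real.exp_neg, one_div]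
    exact inv_anti₀ (by norm_num) h9
  have hsm : (N + 1) * (e₁ + a + CE + 1) + e₃ + W0 L κ γ ε ≤ cB * (8 * e : ℕ) := by
    have h1 : 4 * (β * L) ≤ cB * (8 * e : ℕ) := by
      push_cast
      have g1 := mul_le_mul_of_nonneg_left n9 (show 0 ≤ 8 * cB by positivity)
      rw [hβ]
      linarith only [g1]
    have h2 : (N + 1) * a ≤ β * L := hNa.trans (mul_le_mul_of_nonneg_right hτβ hL0)
    have h3 : (N + 1) * e₁ + e₃ + W0 L κ γ ε ≤ β * L := by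
      have g1 : (N + 1) * (e₁ + e₃ + W0 L κ γ ε) ≤ (N + 1) * (c * L) :=
        mul_le_mul_of_nonneg_left hsmall (by positivity)
      have g2 := mul_le_mul_of_nonneg_right hc2 hL0
      have g3 : 0 ≤ (N : ℝ) * (e₃ + W0 L κ γ ε) := mul_nonneg hN0 (by linarith only [he₃0, hW, hW.2])
      linarith only [g1, g2, g3]
    have h4 : (N + 1) * (e₁ + a + CE + 1) = (N + 1) * e₁ + (N + 1) * a + (N + 1) * (CE + 1) := by
      ring
    have h5 : 0 ≤ β * L := by positivity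
    linarith only [hL4, h1, h2, h3, h5]
  obtain ⟨S, k, k1, k2, k3, k4⟩ := reg_core hst hgs hSTB hSLI hd hcB hSL hTC hκ hdet I B₀ Ks h e N
    M₀ s kap a n1 n2 n3 n4 n5 n6 n7 (by rw [hM₀]; exact n8) hkap0 hsa (by
      have h1 : (n : ℝ) * ε ≤ n * c := mul_le_mul_of_nonneg_left hεc (by linarith only [hσ, hσ1, hnr])
      linarith only [hc3, h1]) hB₀1 hstab hsm
  have hk : k = Ks + 1 := by
    rcases k3 with k3 | k3
    · exact k3
    · exact n14 k k2 k3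
  rw [hk] at k4
  have huL : u ≤ L := by omega
  obtain ⟨G, g1, g2⟩ := k4.ext n10 huL
  have hp := hSL.leaf.isLaw
  refine ⟨S, 2 * e * (Ks + 1), s, G, ?_, n12, n13, n11, ⟨g1, ?_, ?_⟩, ?_⟩
  · refine le_trans (Real.exp_le_exp.2 (neg_le_neg ?_)) k1
    exact haτ.trans (mul_le_mul_of_nonneg_right hτσ hL0)
  · intro ω hω
    obtain ⟨w1, w2⟩ := (rs_pos hp).1 hω
    exact (g2 ω w1 w2).1.trans (div_le_div_of_nonneg_right hC₀ (by positivity))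
  · intro ω hω
    obtain ⟨w1, w2⟩ := (rs_pos hp).1 hω
    exact (g2 ω w1 w2).2.2
  · intro ω hω
    obtain ⟨w1, w2⟩ := (rs_pos hp).1 hω
    exact (g2 ω w1 w2).2.1

end Pool.KBX
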