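import Pool.Agent.H84.KBOX.StmtsU
import Pool.Agent.H40.KBX.CEL

/-!
# Regularity of a leaf: the state and one step

The state at the scale `a` with the precision `k`: on a set of points the leaf is the graph of
polynomials on the cells of side `2 ^ (-a)` up to `2 ^ (-k)`.
-/

set_option autoImplicit false

namespace Pool.KBX

open Finset Real MeasureTheory
open Pool.Agent.H49.Ent Pool.Agent.H32.Dense Pool.STK Pool.KAF Pool.KAL Pool.KS3

/-- The state. -/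
def Sta {n : ℕ} {Ω Ξ : Type} (L a k d : ℕ) (S₁ : ℝ) (p : Ω → ℝ) (x : Ω → Ξ)
    (pos : Ξ → Option (Fin n) → ℕ) (S : Set Ξ) : Prop :=
  ∃ G : (Option (Fin n) → ℕ) → MvPolynomial (Fin n) ℝ, (∀ c, (G c).totalDegree ≤ d) ∧
    ∀ ω, 0 < p ω → x ω ∈ S →
      |rp (2 ^ L) pos (x ω) none -
        MvPolynomial.eval (fun i => rp (2 ^ L) pos (x ω) (some i)) (Gc L a pos G (x ω))| ≤
        1 / 2 ^ k ∧
      D1 (Gc L a pos G (x ω)) (cc L a pos (x ω)) (1 / 2 ^ a) S₁ ∧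
      D2 (Gc L a pos G (x ω)) (cc L a pos (x ω)) (1 / 2 ^ a) S₁

section

variable {n : ℕ} {Ω Ξ : Type} {L a k d : ℕ} {S₁ : ℝ} {p : Ω → ℝ} {x : Ω → Ξ}
  {pos : Ξ → Option (Fin n) → ℕ}

theorem Sta.sub {S S' : Set Ξ} (h : Sta L a k d S₁ p x pos S) (hS : S' ⊆ S) :
    Sta L a k d S₁ p x pos S' := by
  obtain ⟨G, h1, h2⟩ := h
  exact ⟨G, h1, fun ω hω hx => h2 ω hω (hS hx)⟩

theorem Sta.mono {S : Set Ξ} {k' : ℕ} {S₂ : ℝ} (h : Sta L a k d S₁ p x pos S) (hS : S₁ ≤ S₂)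
    (hk : k' ≤ k) : Sta L a k' d S₂ p x pos S := by
  obtain ⟨G, h1, h2⟩ := h
  refine ⟨G, h1, fun ω hω hx => ?_⟩
  obtain ⟨g1, g2, g3⟩ := h2 ω hω hx
  refine ⟨g1.trans ?_, fun y hy i => (g2 y hy i).trans hS, fun y hy i j => (g3 y hy i j).trans hS⟩
  exact one_div_le_one_div_of_le (by positivity) (pow_le_pow_right₀ (by norm_num) hk)

theorem crn_eq {L a : ℕ} (ha : a ≤ L) (c : Option (Fin n) → ℕ) (i : Fin n) :
    crn (2 ^ L) (2 ^ (L - a)) c i = (c (some i) : ℝ) / 2 ^ a := by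
  unfold crn
  push_cast
  have h : (2 : ℝ) ^ L = 2 ^ a * 2 ^ (L - a) := by rw [← pow_add, Nat.add_sub_cancel' ha]
  rw [h, mul_div_mul_comm, div_self (by positivity), mul_one]

theorem cel_nest {L a a' : ℕ} (h : a ≤ a') (h' : a' ≤ L) (ξ : Ξ) :
    cel (2 ^ (L - a)) pos ξ = fun i => cel (2 ^ (L - a')) pos ξ i / 2 ^ (a' - a) := by
  funext i
  unfold cel
  rw [Nat.div_div_eq_div_mul, ← pow_add]
  congr 2
  omega

/-- The region of a subcell is in the region of the cell. -/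
theorem region {L a a' : ℕ} (h : a ≤ a') (h' : a' ≤ L) {c c' : Option (Fin n) → ℕ}
    (hc : ∀ i, c' i / 2 ^ (a' - a) = c i) {y : Fin n → ℝ}
    (hy : ∀ i, |y i - crn (2 ^ L) (2 ^ (L - a')) c' i| ≤ 2 * (1 / 2 ^ a')) (i : Fin n) :
    |y i - crn (2 ^ L) (2 ^ (L - a)) c i| ≤ 2 * (1 / 2 ^ a) := by
  have h1 := hy i
  rw [crn_eq h'] at h1
  rw [crn_eq (h.trans h')]
  have e1 : (2 : ℝ) ^ a' = 2 ^ a * 2 ^ (a' - a) := by rw [← pow_add, Nat.add_sub_cancel' h]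
  have h2 : c' (some i) % 2 ^ (a' - a) < 2 ^ (a' - a) := Nat.mod_lt _ (by positivity)
  have h3 : c' (some i) = 2 ^ (a' - a) * c (some i) + c' (some i) % 2 ^ (a' - a) := by
    rw [← hc (some i)]
    exact (Nat.div_add_mod _ _).symm
  have h4 : (c' (some i) : ℝ) / 2 ^ a' - (c (some i) : ℝ) / 2 ^ a =
      ((c' (some i) % 2 ^ (a' - a) : ℕ) : ℝ) / 2 ^ a' := by
    have g1 : (c' (some i) : ℝ) = 2 ^ (a' - a) * c (some i) +
        ((c' (some i) % 2 ^ (a' - a) : ℕ) : ℝ) := by exact_mod_cast h3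
    rw [g1, e1]
    field_simp
    ring
  have h5 : ((c' (some i) % 2 ^ (a' - a) : ℕ) : ℝ) ≤ 2 ^ (a' - a) - 1 := by
    have g1 : c' (some i) % 2 ^ (a' - a) + 1 ≤ 2 ^ (a' - a) := h2
    have g2 : ((c' (some i) % 2 ^ (a' - a) : ℕ) : ℝ) + 1 ≤ 2 ^ (a' - a) := by exact_mod_cast g1
    linarith
  have h6 : (0 : ℝ) < 2 ^ a' := by positivity
  have h7 : ((c' (some i) % 2 ^ (a' - a) : ℕ) : ℝ) / 2 ^ a' ≤ 1 / 2 ^ a - 1 / 2 ^ a' := by
    have g1 : (1 : ℝ) / 2 ^ a = 2 ^ (a' - a) / 2 ^ a' := by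
      rw [e1]
      field_simp
    rw [g1, ← sub_div]
    exact div_le_div_of_nonneg_right h5 h6.le
  have h8 : (1 : ℝ) / 2 ^ a' ≤ 1 / 2 ^ a :=
    one_div_le_one_div_of_le (by positivity) (pow_le_pow_right₀ (by norm_num) h)
  have h9 : 0 ≤ ((c' (some i) % 2 ^ (a' - a) : ℕ) : ℝ) / 2 ^ a' := by positivity
  rw [abs_le] at h1 ⊢
  constructor <;> linarith [h1.1, h1.2]

/-- Smaller cells. -/
theorem Sta.ext {S : Set Ξ} {a' : ℕ} (h : Sta L a k d S₁ p x pos S) (ha : a ≤ a') (ha' : a' ≤ L) :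
    Sta L a' k d S₁ p x pos S := by
  obtain ⟨G, h1, h2⟩ := h
  refine ⟨fun c' => G fun i => c' i / 2 ^ (a' - a), fun c' => h1 _, fun ω hω hx => ?_⟩
  have e : Gc L a' pos (fun c' => G fun i => c' i / 2 ^ (a' - a)) (x ω) = Gc L a pos G (x ω) := by
    unfold Gc
    rw [cel_nest ha ha']
  rw [e]
  obtain ⟨g1, g2, g3⟩ := h2 ω hω hx
  have hr : ∀ y : Fin n → ℝ, (∀ i, |y i - cc L a' pos (x ω) i| ≤ 2 * (1 / 2 ^ a')) →
      ∀ i, |y i - cc L a pos (x ω) i| ≤ 2 * (1 / 2 ^ a) := by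
    intro y hy i
    refine region ha ha' (c' := cel (2 ^ (L - a')) pos (x ω)) (fun i => ?_) hy i
    rw [cel_nest ha ha']
  exact ⟨g1, fun y hy => g2 y (hr y hy), fun y hy => g3 y (hr y hy)⟩

end

theorem tot {Ω T : Type} [Fintype Ω] {p : Ω → ℝ} (hp : ∀ ω, 0 ≤ p ω) (b : Ω → T) (E : Set Ω) :
    Ex p (fun ω => Pr (Pool.Agent.H49.Ent.cond p b (b ω)) E) = Pr p E := by
  classical
  unfold Ex
  simp only [Pr_eq]
  simp only [Pool.Agent.H49.Ent.cond]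
  simp only [Finset.mul_sum]
  rw [Finset.sum_comm]
  refine Finset.sum_congr rfl fun ω' _ => ?_
  by_cases hE : ω' ∈ E
  · simp only [if_pos hE]
    rcases (hp ω').eq_or_lt with h0 | h0
    · simp [← h0]
    · have hl : law p b (b ω') ≠ 0 := (law_pos hp b h0).ne'
      have h1 : ∀ ω, p ω * (if b ω' = b ω then p ω' / law p b (b ω) else 0) =
          (if b ω = b ω' then p ω else 0) * (p ω' / law p b (b ω')) := by
        intro ω
        by_cases h : b ω = b ω'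
        · rw [if_pos h.symm, if_pos h, h]
        · rw [if_neg (fun h' => h h'.symm), if_neg h, mul_zero, zero_mul]
      simp only [h1]
      rw [← Finset.sum_mul]
      have h2 : (∑ ω, if b ω = b ω' then p ω else 0) = law p b (b ω') := by
        unfold law
        exact Finset.sum_congr rfl fun ω _ => by split_ifs <;> rfl
      rw [h2]
      field_simp
  · simp only [if_neg hE, mul_zero, Finset.sum_const_zero]

/-- The coordinates in the cell. -/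
theorem cell_coord {n : ℕ} {Ξ : Type} {L a : ℕ} (ha : a ≤ L) (pos : Ξ → Option (Fin n) → ℕ) (ξ : Ξ)
    (i : Fin n) :
    rp (2 ^ (L - a)) (fun ξ i => pos ξ i % 2 ^ (L - a)) ξ (some i) =
      2 ^ a * (rp (2 ^ L) pos ξ (some i) - cc L a pos ξ i) := by
  unfold cc
  rw [crn_eq ha]
  unfold rp cel
  push_cast
  have h : (2 : ℝ) ^ L = 2 ^ a * 2 ^ (L - a) := by rw [← pow_add, Nat.add_sub_cancel' ha]
  have h3 := Nat.div_add_mod (pos ξ (some i)) (2 ^ (L - a))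
  have h4 : (pos ξ (some i) : ℝ) = 2 ^ (L - a) * ((pos ξ (some i) / 2 ^ (L - a) : ℕ) : ℝ) +
      ((pos ξ (some i) % 2 ^ (L - a) : ℕ) : ℝ) := by exact_mod_cast h3.symm
  rw [h]
  have e : (2 : ℝ) ^ a * ((pos ξ (some i) : ℝ) / (2 ^ a * 2 ^ (L - a)) -
      ((pos ξ (some i) / 2 ^ (L - a) : ℕ) : ℝ) / 2 ^ a) =
      ((pos ξ (some i) : ℝ) - 2 ^ (L - a) * ((pos ξ (some i) / 2 ^ (L - a) : ℕ) : ℝ)) /
        2 ^ (L - a) := by
    field_simp
  rw [e]
  congr 1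
  linarith

/-- The point is in its cell. -/
theorem in_cell {n : ℕ} {Ξ : Type} {L a : ℕ} (ha : a ≤ L) (pos : Ξ → Option (Fin n) → ℕ) (ξ : Ξ)
    (i : Fin n) : |rp (2 ^ L) pos ξ (some i) - cc L a pos ξ i| ≤ 1 / 2 ^ a := by
  have h1 := cell_coord ha pos ξ i
  have h2 : (0 : ℝ) < 2 ^ a := by positivity
  have h3 : rp (2 ^ L) pos ξ (some i) - cc L a pos ξ i =
      rp (2 ^ (L - a)) (fun ξ i => pos ξ i % 2 ^ (L - a)) ξ (some i) / 2 ^ a := by
    rw [h1]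
    field_simp
  rw [h3, abs_div, abs_of_pos h2]
  refine div_le_div_of_nonneg_right ?_ h2.le
  unfold rp
  push_cast
  have h4 : pos ξ (some i) % 2 ^ (L - a) < 2 ^ (L - a) := Nat.mod_lt _ (by positivity)
  have h5 : ((pos ξ (some i) % 2 ^ (L - a) : ℕ) : ℝ) ≤ 2 ^ (L - a) := by exact_mod_cast h4.le
  rw [abs_of_nonneg (by positivity), div_le_one (by positivity)]
  exact h5

end Pool.KBX
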