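import Pool.Agent.H84.KBOX.Reg1

/-!
# Regularity of a leaf: one step
-/

set_option autoImplicit false

namespace Pool.KBX

open Finset Real MeasureTheory
open Pool.Agent.H49.Ent Pool.Agent.H32.Dense Pool.STK Pool.KAF Pool.KAL Pool.KS3

theorem two_rpow_div (e : ℕ) : (2 : ℝ) ^ (((8 * e : ℕ) : ℝ) / 8) = 2 ^ e := by
  have h : (((8 * e : ℕ) : ℝ) / 8) = (e : ℝ) := by
    push_cast
    ring
  rw [h, Real.rpow_natCast]

theorem two_rpow_neg (e : ℕ) : (2 : ℝ) ^ (-(3 * ((8 * e : ℕ) : ℝ) / 4)) = 1 / 2 ^ (6 * e) := by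
  have h : (-(3 * ((8 * e : ℕ) : ℝ) / 4)) = -((6 * e : ℕ) : ℝ) := by
    push_cast
    ring
  rw [h, Real.rpow_neg (by norm_num), Real.rpow_natCast, one_div]

/-- The step at a good scale. -/
theorem cstep (hBLK : BLKUStmt) (hCEL : CELStmt) (hLPC : LPCStmt) (hTSC : TSCStmt)
    (hTUP : TUPStmt) (n d : ℕ) (C₀ : ℝ) (hd : 3 ≤ d) (hC₀ : 1 ≤ C₀) :
    ∃ (CB cB CE : ℝ) (c₁ c₂ : ℕ), 1 ≤ CB ∧ 0 < cB ∧ 1 ≤ CE ∧
    ∀ (Ω Λ Ξ W : Type) [Fintype Ω] [Fintype W] (p : Ω → ℝ) (lam : Ω → Λ) (x : Ω → Ξ)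
      (T : Ξ → ℕ) (pos : Ξ → Option (Fin n) → ℕ) (A B : Λ → Option (Fin n) → ℝ) (μ : Λ → ℝ)
      (i₀ : Fin n) (q : W → ℝ) (f : Fin n → W → Ω) (L κ γ a k h e s N : ℕ)
      (δ ε e₁ e₃ S₁ : ℝ),
      SL L C₀ δ ε e₁ e₃ p lam x T pos A B μ → TC i₀ lam x T pos A B → 1 ≤ κ →
      n.factorial * (3 * C₀) ^ n ≤ δ ^ n * 2 ^ γ → c₂ ≤ h → e = (d + 1) * h → a + 8 * e ≤ L →
      a + c₁ ≤ L → k + 8 * e + s + c₁ ≤ L → S₁ ≤ 2 ^ s → IsLaw q → (∀ j, Marg q p (f j)) →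
      (∀ w, 0 < q w → ∀ j, x (f j w) = x (f i₀ w)) →
      8 * Pr q {w | |Matrix.det (Matrix.of fun j i => B (lam (f j w)) (some i))| < δ ^ n} ≤ cB →
      8 * JJ L a (8 * e) lam x pos B i₀ q f ≤ cB * (8 * e : ℕ) →
      (N + 1) * (e₁ + CE + 1) + e₃ + W0 L κ γ ε ≤ cB * (8 * e : ℕ) →
      Sta L a k d S₁ p x pos Set.univ →
      ∃ S' : Set Ξ,
        1 / 2 * Real.exp (-(CB * ((1 - 1 / n) ^ N * L + (e₁ + CE) + e₃ + W0 L κ γ ε))) ≤
          Pr p {ω | x ω ∈ S'} ∧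
        Sta L (a + 4 * h) (k + 2 * e) d (S₁ + 2 ^ (2 * a + e + c₂) / 2 ^ k) p x pos S' := by
  classical
  obtain ⟨CB, cB, hCB, hcB, hblk⟩ := hBLK n d (3 * C₀) (by linarith)
  obtain ⟨CE, hCE, hcel⟩ := hCEL n C₀ hC₀
  obtain ⟨c₁, hlpc⟩ := hLPC n C₀ hC₀
  obtain ⟨c₂, htsc⟩ := hTSC n d hd
  refine ⟨CB, cB, CE, c₁, c₂, hCB, hcB, hCE, ?_⟩
  intro Ω Λ Ξ W _ _ p lam x T pos A B μ i₀ q f L κ γ a k h e s N δ ε e₁ e₃ S₁ hSL hTC hκ hdet hh he
    hae hac hkL hS₁ hq hmarg hx hPd hJ hsm hSta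
  have hp := hSL.leaf.isLaw
  have hp0 := hp.nonneg
  have haL : a ≤ L := by omega
  have hd1 : h ≤ e := by
    rw [he]
    exact Nat.le_mul_of_pos_left h (by omega)
  have hne : 4 * h ≤ 8 * e := by omega
  have hab : 8 * e ≤ L - a := by omega
  have hah : a + 4 * h ≤ L := by omega
  obtain ⟨G, hGd, hG⟩ := hSta
  set cl : Ω → Option (Fin n) → ℕ := fun ω => cel (2 ^ (L - a)) pos (x ω) with hcl
  set X : ℝ := CB * ((1 - 1 / n) ^ N * L + (e₁ + CE) + e₃ + W0 L κ γ ε) with hX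
  have hn1 : (1 : ℝ) ≤ n := by
    have := i₀.2
    have : 1 ≤ n := by omega
    exact_mod_cast this
  have hr0 : 0 ≤ (1 - 1 / (n : ℝ)) ^ N := by
    refine pow_nonneg ?_ N
    rw [sub_nonneg, div_le_one (by linarith)]
    exact hn1
  have hLa : ((L - a : ℕ) : ℝ) ≤ L := by exact_mod_cast Nat.sub_le L a
  have hWle : W0 (L - a) κ γ ε ≤ W0 L κ γ ε := by
    unfold W0
    have h1 : ((L - a : ℕ) : ℝ) / κ ≤ (L : ℝ) / κ :=
      div_le_div_of_nonneg_right hLa (Nat.cast_nonneg κ)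
    have h2 : ε * ((L - a : ℕ) : ℝ) ≤ ε * L := mul_le_mul_of_nonneg_left hLa hSL.ε_nonneg
    linarith
  have he_pos : (0 : ℝ) ≤ (8 * e : ℕ) := Nat.cast_nonneg _
  have hθ0 : 0 < cB * (8 * e : ℕ) := by
    have h1 : 0 ≤ e₁ := hSL.e₁_nonneg
    have h3 : 0 ≤ e₃ := hSL.e₃_nonneg
    have h4 : 1 ≤ W0 L κ γ ε := by
      unfold W0
      have h1 : 0 ≤ (L : ℝ) / κ := by positivity
      have h2 : 0 ≤ ε * L := mul_nonneg hSL.ε_nonneg (Nat.cast_nonneg L)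
      have h3 : (0 : ℝ) ≤ γ := Nat.cast_nonneg γ
      have h4 : (0 : ℝ) ≤ κ := Nat.cast_nonneg κ
      linarith
    have h5 : 0 ≤ ((N : ℝ) + 1) * (e₁ + CE + 1) := by positivity
    linarith
  -- good cells
  set Gd : (Option (Fin n) → ℕ) → Prop := fun c =>
    Cg L a κ γ (3 * C₀) δ ε (e₁ + CE) e₃ p lam x T pos A B c ∧
    Tc L a (8 * e) δ cB (cB * (8 * e : ℕ)) p lam x pos B i₀ c ∧ ∃ ω, 0 < p ω ∧ cl ω = c with hGdd
  obtain ⟨hcel1, hcel2⟩ := hcel Ω Λ Ξ p lam x T pos A B μ i₀ L κ γ a δ ε e₁ e₃ hSL hTC haL hκ hdet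
  have htup := hTUP n Ω Λ Ξ W p lam x pos B i₀ q f L a (8 * e) δ cB (cB * (8 * e : ℕ)) hp hq hmarg
    hx hae hcB hθ0 hPd hJ
  have hgood : 1 / 2 ≤ Pr p {ω | Gd (cl ω)} := by
    have h1 : Pr p {ω | Gd (cl ω)}ᶜ ≤
        Pr p ({ω | ¬ Cg L a κ γ (3 * C₀) δ ε (e₁ + CE) e₃ p lam x T pos A B (cl ω)} ∪
          {ω | ¬ Tc L a (8 * e) δ cB (cB * (8 * e : ℕ)) p lam x pos B i₀ (cl ω)}) := by
      refine Pr_mono hp fun ω hω hn => ?_
      by_contra hcon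
      have g1 : Cg L a κ γ (3 * C₀) δ ε (e₁ + CE) e₃ p lam x T pos A B (cl ω) := by
        by_contra hc
        exact hcon (Or.inl hc)
      have g2 : Tc L a (8 * e) δ cB (cB * (8 * e : ℕ)) p lam x pos B i₀ (cl ω) := by
        by_contra hc
        exact hcon (Or.inr hc)
      exact hn ⟨g1, g2, ω, hω, rfl⟩
    have h2 := Pr_union hp
      {ω | ¬ Cg L a κ γ (3 * C₀) δ ε (e₁ + CE) e₃ p lam x T pos A B (cl ω)}
      {ω | ¬ Tc L a (8 * e) δ cB (cB * (8 * e : ℕ)) p lam x pos B i₀ (cl ω)}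
    have h3 := Pr_compl hp {ω | Gd (cl ω)}
    linarith
  -- the polynomials
  have key : ∀ c, Gd c → ∃ Q : MvPolynomial (Fin n) ℝ, Q.totalDegree ≤ n * d ∧
      (∀ y : Fin n → ℝ, (∀ i, |y i| ≤ 2) → |MvPolynomial.eval y Q| ≤ 2 ^ e) ∧
      Real.exp (-X) ≤ Pr (pc L a p x pos c) {ω | |2 ^ k * (rp (2 ^ L) pos (x ω) none -
        MvPolynomial.eval (fun i => rp (2 ^ L) pos (x ω) (some i)) (G c)) -
        MvPolynomial.eval (fun i => 2 ^ a * (rp (2 ^ L) pos (x ω) (some i) -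
          cc L a pos (x ω) i)) Q| ≤ 1 / 2 ^ (6 * e)} := by
    intro c hc
    obtain ⟨hCg, ⟨W', _, q', f', hq', hmarg', hx', hdet', hinf'⟩, ω₀, hω₀, hc₀⟩ := hc
    have hGc : ∀ ω, 0 < p ω → cl ω = c →
        |rp (2 ^ L) pos (x ω) none -
          MvPolynomial.eval (fun i => rp (2 ^ L) pos (x ω) (some i)) (G c)| ≤ 1 / 2 ^ k ∧
        D1 (G c) (crn (2 ^ L) (2 ^ (L - a)) c) (1 / 2 ^ a) S₁ := by
      intro ω hω hcω
      obtain ⟨g1, g2, -⟩ := hG ω hω (Set.mem_univ _)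
      unfold Gc at g1 g2
      unfold cc at g2
      have hcω' : cel (2 ^ (L - a)) pos (x ω) = c := hcω
      rw [hcω'] at g1 g2
      exact ⟨g1, g2⟩
    obtain ⟨P, hP⟩ := hlpc Ω Λ Ξ p lam x T pos A B L a (8 * e) d k s (G c) c hSL.leaf (by omega)
      (hGd c) (fun y hy i => ((hGc ω₀ hω₀ hc₀).2 y hy i).trans hS₁) hkL hac
      (fun ω hω hcω => (hGc ω hω hcω).1)
    obtain ⟨Q, hQd, hQb, hQ⟩ := hblk (Oc L a p x pos c) (Λ × ℕ) Ξ W'
      (fun ω : Oc L a p x pos c => pc L a p x pos c ω.1) (lamc L a p lam x T pos c)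
      (fun ω => x ω.1) (fun ξ => T ξ % 2 ^ (L - a)) (fun ξ i => pos ξ i % 2 ^ (L - a)) (Ac a A B c)
      (fun l => B l.1) i₀ (L - a) κ γ (8 * e) N δ ε (e₁ + CE) e₃
      (fun ξ => 2 ^ k * (rp (2 ^ L) pos ξ none -
            MvPolynomial.eval (fun i => rp (2 ^ L) pos ξ (some i)) (G c))) P q' f' hCg (hcel2 c)
      hab hP hq' hmarg' hx' hdet' hinf' (by linarith)
    refine ⟨Q, hQd, ?_, ?_⟩
    · intro y hy
      have := hQb y hy
      rwa [two_rpow_div] at this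
    · refine le_trans ?_ (le_trans hQ (le_of_eq ?_))
      · refine Real.exp_le_exp.2 (neg_le_neg ?_)
        rw [hX]
        refine mul_le_mul_of_nonneg_left ?_ (by linarith)
        have := mul_le_mul_of_nonneg_left hLa hr0
        linarith
      · rw [two_rpow_neg]
        have h1 := Pool.Agent.H40.KBX.lawOc (L := L) (a := a) (p := p) (x := x) (pos := pos)
          (c := c) hp0 (fun ω => ω ∈ {ω : Ω | |2 ^ k * (rp (2 ^ L) pos (x ω) none -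
            MvPolynomial.eval (fun i => rp (2 ^ L) pos (x ω) (some i)) (G c)) -
            MvPolynomial.eval (fun i => 2 ^ a * (rp (2 ^ L) pos (x ω) (some i) -
              cc L a pos (x ω) i)) Q| ≤ 1 / 2 ^ (6 * e)}) True
        refine Eq.trans ?_ h1
        unfold Pr
        congr 1
        funext ω
        have h2 : (fun i => rp (2 ^ (L - a)) (fun ξ i => pos ξ i % 2 ^ (L - a)) (x ω.1) (some i)) =
            fun i => 2 ^ a * (rp (2 ^ L) pos (x ω.1) (some i) - cc L a pos (x ω.1) i) := by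
          funext i
          exact cell_coord haL pos (x ω.1) i
        simp only [Set.mem_ofPred_eq]
        rw [h2]
  choose! Q hQd hQb hQ using key
  have key2 : ∀ c', Gd (fun i => c' i / 2 ^ (4 * h)) → ∃ G' : MvPolynomial (Fin n) ℝ,
      G'.totalDegree ≤ d ∧
      D1 G' (crn (2 ^ L) (2 ^ (L - (a + 4 * h))) c') (1 / 2 ^ (a + 4 * h))
        (S₁ + 2 ^ (a + e + c₂) / 2 ^ k) ∧
      D2 G' (crn (2 ^ L) (2 ^ (L - (a + 4 * h))) c') (1 / 2 ^ (a + 4 * h))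
        (S₁ + 2 ^ (2 * a + e + c₂) / 2 ^ k) ∧
      ∀ (y : Fin n → ℝ) (N : ℝ),
        (∀ i, |y i - crn (2 ^ L) (2 ^ (L - (a + 4 * h))) c' i| ≤ 1 / 2 ^ (a + 4 * h)) →
        |2 ^ k * (N - MvPolynomial.eval y (G fun i => c' i / 2 ^ (4 * h))) - MvPolynomial.eval
          (fun i => 2 ^ a * (y i - crn (2 ^ L) (2 ^ (L - a)) (fun i => c' i / 2 ^ (4 * h)) i))
            (Q fun i => c' i / 2 ^ (4 * h))| ≤ 1 / 2 ^ (6 * e) →
        |N - MvPolynomial.eval y G'| ≤ 1 / 2 ^ (k + 2 * e) := by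
    intro c' hc'
    have hc'' := hc'
    obtain ⟨-, -, ω₀, hω₀, hc₀⟩ := hc''
    obtain ⟨-, g2, g3⟩ := hG ω₀ hω₀ (Set.mem_univ _)
    unfold Gc cc at g2 g3
    have hc₀' : cel (2 ^ (L - a)) pos (x ω₀) = fun i => c' i / 2 ^ (4 * h) := hc₀
    rw [hc₀'] at g2 g3
    exact htsc L a k h e (fun i => c' i / 2 ^ (4 * h)) c' (G fun i => c' i / 2 ^ (4 * h))
      (Q fun i => c' i / 2 ^ (4 * h)) S₁ S₁ hh he (hGd _) (hQd _ hc') (hQb _ hc') hah
      (fun i => rfl) g2 g3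
  choose! G' hG'd hG'1 hG'2 hG'3 using key2
  refine ⟨{ξ | Gd (cel (2 ^ (L - a)) pos ξ) ∧ |2 ^ k * (rp (2 ^ L) pos ξ none -
        MvPolynomial.eval (fun i => rp (2 ^ L) pos ξ (some i)) (G (cel (2 ^ (L - a)) pos ξ))) -
        MvPolynomial.eval (fun i => 2 ^ a * (rp (2 ^ L) pos ξ (some i) - cc L a pos ξ i))
          (Q (cel (2 ^ (L - a)) pos ξ))| ≤ 1 / 2 ^ (6 * e)}, ?_, ?_⟩
  · rw [← tot hp0 cl]
    have h1 : Ex p (fun ω => Real.exp (-X) * (if ω ∈ {ω | Gd (cl ω)} then (1 : ℝ) else 0)) ≤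
        Ex p (fun ω => Pr (Pool.Agent.H49.Ent.cond p cl (cl ω)) {ω | x ω ∈ {ξ |
        Gd (cel (2 ^ (L - a)) pos ξ) ∧ |2 ^ k * (rp (2 ^ L) pos ξ none -
        MvPolynomial.eval (fun i => rp (2 ^ L) pos ξ (some i)) (G (cel (2 ^ (L - a)) pos ξ))) -
        MvPolynomial.eval (fun i => 2 ^ a * (rp (2 ^ L) pos ξ (some i) - cc L a pos ξ i))
          (Q (cel (2 ^ (L - a)) pos ξ))| ≤ 1 / 2 ^ (6 * e)}}) := by
      refine Ex_mono hp0 fun ω hω => ?_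
      have hpcl : IsLaw (Pool.Agent.H49.Ent.cond p cl (cl ω)) :=
        ⟨fun ω' => cond_nonneg hp0 _ _ ω', sum_cond p cl (law_pos hp0 cl hω).ne'⟩
      by_cases hg : Gd (cl ω)
      · rw [if_pos (show ω ∈ {ω | Gd (cl ω)} from hg), mul_one]
        refine (hQ _ hg).trans ?_
        refine Pr_mono hpcl fun ω' hω' hmem => ?_
        have hcc : cl ω' = cl ω := ((cond_pos_iff hp0 _ _ _).1 hω').2
        have hcc' : cel (2 ^ (L - a)) pos (x ω') = cl ω := hcc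
        simp only [Set.mem_ofPred_eq] at hmem ⊢
        rw [hcc']
        exact ⟨hg, hmem⟩
      · rw [if_neg (show ω ∉ {ω | Gd (cl ω)} from hg), mul_zero]
        exact Pr_nonneg hpcl _
    refine le_trans ?_ h1
    rw [Ex_smul, ← Pr_eq_Ex]
    have := mul_le_mul_of_nonneg_left hgood (Real.exp_pos (-X)).le
    linarith
  · refine ⟨fun c' => if Gd (fun i => c' i / 2 ^ (4 * h)) then G' c' else 0, ?_, ?_⟩
    · intro c'
      show (if Gd (fun i => c' i / 2 ^ (4 * h)) then G' c' else 0).totalDegree ≤ d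
      split_ifs with hg
      · exact hG'd c' hg
      · simp
    · rintro ω hω ⟨hg, hm⟩
      have hnest : cel (2 ^ (L - a)) pos (x ω) =
          fun i => cel (2 ^ (L - (a + 4 * h))) pos (x ω) i / 2 ^ (4 * h) := by
        have := cel_nest (pos := pos) (show a ≤ a + 4 * h by omega) hah (x ω)
        rwa [show a + 4 * h - a = 4 * h by omega] at this
      set c' := cel (2 ^ (L - (a + 4 * h))) pos (x ω) with hc'
      have hg' : Gd (fun i => c' i / 2 ^ (4 * h)) := by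
        rw [← hnest]
        exact hg
      have e1 : Gc L (a + 4 * h) pos
          (fun c' => if Gd (fun i => c' i / 2 ^ (4 * h)) then G' c' else 0) (x ω) = G' c' := by
        unfold Gc
        rw [← hc']
        exact if_pos hg'
      rw [e1]
      have h2 : (2 : ℝ) ^ (a + e + c₂) / 2 ^ k ≤ 2 ^ (2 * a + e + c₂) / 2 ^ k :=
        div_le_div_of_nonneg_right (pow_le_pow_right₀ (by norm_num) (by omega)) (by positivity)
      refine ⟨?_, ?_, ?_⟩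
      · refine hG'3 c' hg' _ _ (fun i => in_cell hah pos (x ω) i) ?_
        have hm' := hm
        unfold cc at hm'
        rw [hnest] at hm'
        exact hm'
      · intro y hy i
        exact (hG'1 c' hg' y hy i).trans (by linarith)
      · exact hG'2 c' hg'

end Pool.KBX
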