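import Pool.Agent.H84.KBOX.Reg2

/-!
# Regularity of a leaf: the iteration
-/

set_option autoImplicit false

namespace Pool.KBX

open Finset Real MeasureTheory
open Pool.Agent.H49.Ent Pool.Agent.H32.Dense Pool.STK Pool.KAF Pool.KAL Pool.KS3

/-- The length of the chain. -/
theorem chain_len {n : ℕ} (hn : 1 ≤ n) {CB t : ℝ} (hCB : 1 ≤ CB) (ht : 0 < t) :
    ∃ (N : ℕ) (κ : ℝ), 0 < κ ∧ 8 * CB * (1 - 1 / n) ^ N ≤ κ ∧ (N + 1) * κ ≤ t := by
  obtain ⟨r, hr⟩ : ∃ r : ℝ, r = max (1 - 1 / (n : ℝ)) (1 / 2) := ⟨_, rfl⟩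
  have hn0 : (0 : ℝ) < n := by exact_mod_cast hn
  have hr0 : 0 < r := by rw [hr]; exact lt_max_of_lt_right (by norm_num)
  have hr1 : r < 1 := by
    rw [hr]
    refine max_lt ?_ (by norm_num)
    have : 0 < 1 / (n : ℝ) := by positivity
    linarith
  have hnr : 0 ≤ 1 - 1 / (n : ℝ) := by
    rw [sub_nonneg, div_le_one hn0]
    exact_mod_cast hn
  have h1 : Filter.Tendsto (fun N : ℕ => (N : ℝ) * r ^ N) Filter.atTop (nhds 0) :=
    tendsto_self_mul_const_pow_of_lt_one hr0.le hr1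
  have h2 : Filter.Tendsto (fun N : ℕ => r ^ N) Filter.atTop (nhds 0) :=
    tendsto_pow_atTop_nhds_zero_of_lt_one hr0.le hr1
  have h3 : Filter.Tendsto (fun N : ℕ => 8 * CB * ((N : ℝ) * r ^ N + r ^ N)) Filter.atTop
      (nhds (8 * CB * (0 + 0))) := (h1.add h2).const_mul _
  have h4 : (8 : ℝ) * CB * (0 + 0) < t := by
    rw [add_zero, mul_zero]
    exact ht
  obtain ⟨N, hN⟩ := (h3.eventually (gt_mem_nhds h4)).exists
  refine ⟨N, 8 * CB * r ^ N, by positivity, ?_, ?_⟩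
  · refine mul_le_mul_of_nonneg_left (pow_le_pow_left₀ hnr ?_ N) (by positivity)
    rw [hr]
    exact le_max_left _ _
  · have e : ((N : ℝ) + 1) * (8 * CB * r ^ N) = 8 * CB * ((N : ℝ) * r ^ N + r ^ N) := by ring
    rw [e]
    exact hN.le

open Classical in
/-- The abstract iteration. -/
theorem iterate (Q : ℕ → ℕ → Prop) (good : ℕ → Prop) (I B₀ Ks : ℕ) (h0 : Q 0 0)
    (h1 : ∀ i < I, ∀ k ≤ i, Q i k → Q (i + 1) k)
    (h2 : ∀ i < I, ∀ k ≤ i, k ≤ Ks → i ≤ k + B₀ → good i → Q i k → Q (i + 1) (k + 1))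
    (hbad' : ∀ s : Finset ℕ, (∀ i ∈ s, i < I ∧ ¬ good i) → s.card ≤ B₀) :
    ∃ k ≤ Ks + 1, Q I k ∧ (k = Ks + 1 ∨ I ≤ k + B₀) := by
  have hbad : ((range I).filter fun i => ¬ good i).card ≤ B₀ := by
    refine hbad' _ fun i hi => ?_
    rw [Finset.mem_filter, Finset.mem_range] at hi
    exact hi
  have key : ∀ i ≤ I, ∃ k ≤ i, k ≤ Ks + 1 ∧ Q i k ∧
      (k = Ks + 1 ∨ k = ((range i).filter good).card) := by
    intro i
    induction i with
    | zero => intro _; exact ⟨0, le_rfl, Nat.zero_le _, h0, Or.inr (by simp)⟩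
    | succ i ih =>
      intro hi
      obtain ⟨k, hk, hk', hQ, hor⟩ := ih (by omega)
      rcases hor with hor | hor
      · exact ⟨k, by omega, hk', h1 i (by omega) k hk hQ, Or.inl hor⟩
      · by_cases hg : good i
        · have hc : ((range (i + 1)).filter good).card = ((range i).filter good).card + 1 := by
            rw [Finset.range_add_one, Finset.filter_insert, if_pos hg,
              Finset.card_insert_of_notMem (by simp)]
          by_cases hkK : k ≤ Ks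
          · refine ⟨k + 1, by omega, by omega, h2 i (by omega) k hk hkK ?_ hg hQ, Or.inr ?_⟩
            · have g1 : ((range i).filter good).card +
                  ((range i).filter fun i => ¬ good i).card = i := by
                rw [Finset.card_filter_add_card_filter_not, Finset.card_range]
              have g2 : ((range i).filter fun i => ¬ good i).card ≤
                  ((range I).filter fun i => ¬ good i).card := by
                refine Finset.card_le_card fun j hj => ?_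
                rw [Finset.mem_filter, Finset.mem_range] at hj ⊢
                exact ⟨by omega, hj.2⟩
              omega
            · rw [hc, hor]
          · exact ⟨k, by omega, hk', h1 i (by omega) k hk hQ, Or.inl (by omega)⟩
        · have hc : ((range (i + 1)).filter good).card = ((range i).filter good).card := by
            rw [Finset.range_add_one, Finset.filter_insert, if_neg hg]
          exact ⟨k, by omega, hk', h1 i (by omega) k hk hQ, Or.inr (by rw [hc, hor])⟩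
  obtain ⟨k, hk, hk', hQ, hor⟩ := key I le_rfl
  refine ⟨k, hk', hQ, ?_⟩
  rcases hor with hor | hor
  · exact Or.inl hor
  · right
    have g1 : ((range I).filter good).card + ((range I).filter fun i => ¬ good i).card = I := by
      rw [Finset.card_filter_add_card_filter_not, Finset.card_range]
    omega

/-- The conclusion of `cstep`. -/
def CSt (n d : ℕ) (C₀ CB cB CE : ℝ) (c₁ c₂ : ℕ) : Prop :=
    ∀ (Ω Λ Ξ W : Type) [Fintype Ω] [Fintype W] (p : Ω → ℝ) (lam : Ω → Λ) (x : Ω → Ξ)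
      (T : Ξ → ℕ) (pos : Ξ → Option (Fin n) → ℕ) (A B : Λ → Option (Fin n) → ℝ) (μ : Λ → ℝ)
      (i₀ : Fin n) (q : W → ℝ) (f : Fin n → W → Ω) (L κ γ a k h e s N : ℕ)
      (δ ε e₁ e₃ S₁ : ℝ),
      SL L C₀ δ ε e₁ e₃ p lam x T pos A B μ → TC i₀ lam x T pos A B → 1 ≤ κ →
      n.factorial * (3 * C₀) ^ n ≤ δ ^ n * 2 ^ γ → c₂ ≤ h → e = (d + 1) * h → a + 8 * e ≤ L →
      a + c₁ ≤ L → k + 8 * e + s + c₁ ≤ L → S₁ ≤ 2 ^ s → IsLaw q → (∀ j, Marg q p (f j)) →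
      (∀ w, 0 < q w → ∀ j, x (f j w) = x (f i₀ w)) →
      8 * Pr q {w | |Matrix.det (Matrix.of fun j i => B (lam (f j w)) (some i))| < δ ^ n} ≤ cB →
      8 * JJ L a (8 * e) lam x pos B i₀ q f ≤ cB * (8 * e : ℕ) →
      (N + 1) * (e₁ + CE + 1) + e₃ + W0 L κ γ ε ≤ cB * (8 * e : ℕ) →
      Sta L a k d S₁ p x pos Set.univ →
      ∃ S' : Set Ξ,
        1 / 2 * Real.exp (-(CB * ((1 - 1 / n) ^ N * L + (e₁ + CE) + e₃ + W0 L κ γ ε))) ≤
          Pr p {ω | x ω ∈ S'} ∧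
        Sta L (a + 4 * h) (k + 2 * e) d (S₁ + 2 ^ (2 * a + e + c₂) / 2 ^ k) p x pos S'

/-- The conclusion of row GSC. -/
def GSt (n : ℕ) (C₀ CG : ℝ) : Prop :=
    ∀ (Ω Λ Ξ : Type) [Fintype Ω] (p : Ω → ℝ) (lam : Ω → Λ) (x : Ω → Ξ) (T : Ξ → ℕ)
      (pos : Ξ → Option (Fin n) → ℕ) (A B : Λ → Option (Fin n) → ℝ) (i₀ : Fin n) (L : ℕ)
      (δ ε : ℝ),
      Leaf n (2 ^ L) C₀ p lam x T pos A B → 0 < δ → 0 ≤ ε → NCF p lam x B δ (fun _ => ε) →
      ∃ (W : Type) (_ : Fintype W) (q : W → ℝ) (f : Fin n → W → Ω), IsLaw q ∧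
        (∀ j, Marg q p (f j)) ∧ (∀ w, 0 < q w → ∀ j, x (f j w) = x (f i₀ w)) ∧
        Pr q {w | |Matrix.det (Matrix.of fun j i => B (lam (f j w)) (some i))| < δ ^ n} ≤
          n * ε ∧
        ∀ (m K I b : ℕ) (θ : ℝ), 1 ≤ m → 1 ≤ K → b = K * m → (∀ i < I, m * i + b ≤ L) → 0 < θ →
          (((range I).filter fun i => θ * b < JJ L (m * i) b lam x pos B i₀ q f).card : ℝ) * θ ≤
            CG * K

/-- The probability of a set of points for the restricted law. -/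
theorem Pr_rs {Ω Ξ : Type} [Fintype Ω] {p : Ω → ℝ} (x : Ω → Ξ) {S S' : Set Ξ}
    (h : 0 < Pr p {ω | x ω ∈ S}) :
    Pr (rs p {ω | x ω ∈ S}) {ω | x ω ∈ S'} * Pr p {ω | x ω ∈ S} =
      Pr p {ω | x ω ∈ S' ∩ S} := by
  classical
  rw [Pr_eq (rs p {ω | x ω ∈ S}) {ω | x ω ∈ S'}, Pr_eq p {ω | x ω ∈ S' ∩ S}, Finset.sum_mul]
  refine Finset.sum_congr rfl fun ω _ => ?_
  by_cases h1 : x ω ∈ S'
  · rw [if_pos (show ω ∈ {ω | x ω ∈ S'} from h1), rs_eq]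
    by_cases h2 : x ω ∈ S
    · rw [if_pos (show ω ∈ {ω | x ω ∈ S} from h2), if_pos (show ω ∈ {ω | x ω ∈ S' ∩ S} from
        ⟨h1, h2⟩)]
      field_simp
    · rw [if_neg (show ω ∉ {ω | x ω ∈ S} from h2), if_neg (show ω ∉ {ω | x ω ∈ S' ∩ S} from
        fun h3 => h2 h3.2), zero_mul]
  · rw [if_neg (show ω ∉ {ω | x ω ∈ S'} from h1), zero_mul,
      if_neg (show ω ∉ {ω | x ω ∈ S' ∩ S} from fun h3 => h1 h3.1)]

/-- The step inside a set of points. -/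
theorem sstep {n d : ℕ} {C₀ CB cB CE : ℝ} {c₁ c₂ : ℕ} (hst : CSt n d C₀ CB cB CE c₁ c₂)
    {Ω Λ Ξ W : Type} [Fintype Ω] [Fintype W] {p : Ω → ℝ} {lam : Ω → Λ} {x : Ω → Ξ}
    {T : Ξ → ℕ} {pos : Ξ → Option (Fin n) → ℕ} {A B : Λ → Option (Fin n) → ℝ} {μ : Λ → ℝ}
    {i₀ : Fin n} {q : W → ℝ} {f : Fin n → W → Ω} {L κ γ a k h e s N : ℕ}
    {δ ε e₁ e₃ S₁ : ℝ} {S₀ : Set Ξ} (hp : IsLaw p) (hP : 0 < Pr p {ω | x ω ∈ S₀})
    (hSL : SL L C₀ δ ε e₁ e₃ (rs p {ω | x ω ∈ S₀}) lam x T pos A B μ)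
    (hTC : TC i₀ lam x T pos A B) (hκ : 1 ≤ κ)
    (hdet : n.factorial * (3 * C₀) ^ n ≤ δ ^ n * 2 ^ γ) (hh : c₂ ≤ h) (he : e = (d + 1) * h)
    (hae : a + 8 * e ≤ L) (hac : a + c₁ ≤ L) (hkL : k + 8 * e + s + c₁ ≤ L) (hS₁ : S₁ ≤ 2 ^ s)
    (hq : IsLaw q) (hmarg : ∀ j, Marg q (rs p {ω | x ω ∈ S₀}) (f j))
    (hx : ∀ w, 0 < q w → ∀ j, x (f j w) = x (f i₀ w))
    (hPd : 8 * Pr q {w | |Matrix.det (Matrix.of fun j i => B (lam (f j w)) (some i))| < δ ^ n} ≤ cB)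
    (hJ : 8 * JJ L a (8 * e) lam x pos B i₀ q f ≤ cB * (8 * e : ℕ))
    (hsm : (N + 1) * (e₁ + CE + 1) + e₃ + W0 L κ γ ε ≤ cB * (8 * e : ℕ))
    (hSta : Sta L a k d S₁ p x pos S₀) :
    ∃ S' ⊆ S₀,
      1 / 2 * Real.exp (-(CB * ((1 - 1 / n) ^ N * L + (e₁ + CE) + e₃ + W0 L κ γ ε))) *
        Pr p {ω | x ω ∈ S₀} ≤ Pr p {ω | x ω ∈ S'} ∧
      Sta L (a + 4 * h) (k + 2 * e) d (S₁ + 2 ^ (2 * a + e + c₂) / 2 ^ k) p x pos S' := by
  have h1 : Sta L a k d S₁ (rs p {ω | x ω ∈ S₀}) x pos Set.univ := by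
    obtain ⟨G, g1, g2⟩ := hSta
    refine ⟨G, g1, fun ω hω _ => ?_⟩
    obtain ⟨k1, k2⟩ := (rs_pos hp).1 hω
    exact g2 ω k1 k2
  obtain ⟨S', hS', hS'2⟩ := hst Ω Λ Ξ W (rs p {ω | x ω ∈ S₀}) lam x T pos A B μ i₀ q f L κ γ a k h
    e s N δ ε e₁ e₃ S₁ hSL hTC hκ hdet hh he hae hac hkL hS₁ hq hmarg hx hPd hJ hsm h1
  refine ⟨S' ∩ S₀, Set.inter_subset_right, ?_, ?_⟩
  · rw [← Pr_rs x hP]
    exact mul_le_mul_of_nonneg_right hS' hP.le
  · obtain ⟨G, g1, g2⟩ := hS'2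
    exact ⟨G, g1, fun ω hω hm => g2 ω ((rs_pos hp).2 ⟨hω, hm.2⟩) hm.1⟩

end Pool.KBX
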