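import Pool.Agent.H84.KBOX.Reg3

/-!
# Regularity of a leaf: the assembly for given parameters
-/

set_option autoImplicit false

namespace Pool.KBX

open Finset Real MeasureTheory
open Pool.Agent.H49.Ent Pool.Agent.H32.Dense Pool.STK Pool.KAF Pool.KAL Pool.KS3

/-- The increment of the derivatives is bounded. -/
theorem incr_pow {d h e i k B₀ c₂ : ℕ} (hd : 3 ≤ d) (he : e = (d + 1) * h) (hik : i ≤ k + B₀) :
    (2 : ℝ) ^ (2 * (4 * h * i) + e + c₂) / 2 ^ (2 * e * k) ≤ 2 ^ (e * (1 + 2 * B₀) + c₂) := by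
  rw [div_le_iff₀ (by positivity), ← pow_add]
  refine pow_le_pow_right₀ (by norm_num) ?_
  have h1 : 4 * h ≤ e := by
    rw [he]
    exact Nat.mul_le_mul_right h (by omega)
  have h2 : 4 * h * i ≤ e * (k + B₀) := Nat.mul_le_mul h1 hik
  have h3 : e * (1 + 2 * B₀) + 2 * e * k = e + 2 * (e * (k + B₀)) := by ring
  omega

/-- The assembly for given parameters. -/
theorem reg_core {n d : ℕ} {C₀ CB cB CE CG : ℝ} {c₁ c₂ : ℕ} (hst : CSt n d C₀ CB cB CE c₁ c₂)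
    (hgs : GSt n C₀ CG) (hSTB : STBPStmt) (hSLI : SLIStmt) (hd : 3 ≤ d) (hcB : 0 < cB)
    {Ω Λ Ξ : Type} [Fintype Ω] {p : Ω → ℝ} {lam : Ω → Λ} {x : Ω → Ξ} {T : Ξ → ℕ}
    {pos : Ξ → Option (Fin n) → ℕ} {A B : Λ → Option (Fin n) → ℝ} {μ : Λ → ℝ} {i₀ : Fin n}
    {L κ γ : ℕ} {δ ε e₁ e₃ : ℝ} (hSL : SL L C₀ δ ε e₁ e₃ p lam x T pos A B μ)
    (hTC : TC i₀ lam x T pos A B) (hκ : 1 ≤ κ)
    (hdet : n.factorial * (3 * C₀) ^ n ≤ δ ^ n * 2 ^ γ)
    (I B₀ Ks h e N M₀ s : ℕ) (kap : ℕ → ℝ) (a : ℝ) (hh : c₂ ≤ h) (hh1 : 1 ≤ h)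
    (he : e = (d + 1) * h) (hIL : 4 * h * I + 8 * e ≤ L) (hIc : 4 * h * I + c₁ ≤ L)
    (hK : 2 * e * Ks + 8 * e + s + c₁ ≤ L) (hs : e * (1 + 2 * B₀) + c₂ + I ≤ s)
    (hM : (I + 1) * (I + 1) ≤ M₀) (hkap0 : ∀ m, 0 ≤ kap m)
    (hkapa : ∑ m ∈ range M₀, kap m ≤ a) (hε : 8 * (n * ε) ≤ cB)
    (hB₀ : CG * (2 * (d + 1) : ℕ) ≤ B₀ * (cB / 8))
    (hstab : ∀ m ≤ M₀, Real.exp (-kap m) ≤ 1 / 2 * Real.exp (-(CB * ((1 - 1 / n) ^ N * L +
      (e₁ + ∑ j ∈ range m, kap j + CE) + e₃ + W0 L κ γ ε))))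
    (hsm : (N + 1) * (e₁ + a + CE + 1) + e₃ + W0 L κ γ ε ≤ cB * (8 * e : ℕ)) :
    ∃ (S : Set Ξ) (k : ℕ), Real.exp (-a) ≤ Pr p {ω | x ω ∈ S} ∧ k ≤ Ks + 1 ∧
      (k = Ks + 1 ∨ I ≤ k + B₀) ∧ Sta L (4 * h * I) (2 * e * k) d (2 ^ s) p x pos S := by
  classical
  have hp := hSL.leaf.isLaw
  set s₀ : ℕ := e * (1 + 2 * B₀) + c₂ with hs₀
  set Q : ℕ → ℕ → Set Ξ → Prop := fun i k S =>
    Sta L (4 * h * i) (2 * e * k) d ((i : ℝ) * 2 ^ s₀) p x pos S with hQ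
  obtain ⟨m, hm, S₀, hS₀, hQS⟩ := hSTB Ω Ξ p x ((I + 1) * (I + 1))
    (fun j S => Q ((j : ℕ) / (I + 1)) ((j : ℕ) % (I + 1)) S) kap hp
    (fun j S S' hS h => Sta.sub h hS)
  have hQS' : ∀ i ≤ I, ∀ k ≤ I, Q i k S₀ ∨ ∀ S' ⊆ S₀,
      Real.exp (-kap m) * Pr p {ω | x ω ∈ S₀} ≤ Pr p {ω | x ω ∈ S'} → ¬ Q i k S' := by
    intro i hi k hk
    have hlt : i * (I + 1) + k < (I + 1) * (I + 1) := by
      have : i * (I + 1) ≤ I * (I + 1) := Nat.mul_le_mul_right _ hi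
      have e1 : (I + 1) * (I + 1) = I * (I + 1) + (I + 1) := by ring
      omega
    have h1 := hQS ⟨i * (I + 1) + k, hlt⟩
    have e1 : (i * (I + 1) + k) / (I + 1) = i := by
      rw [Nat.add_comm, Nat.add_mul_div_right _ _ (Nat.succ_pos I), Nat.div_eq_of_lt (by omega),
        Nat.zero_add]
    have e2 : (i * (I + 1) + k) % (I + 1) = k := by
      rw [Nat.add_comm, Nat.add_mul_mod_self_right, Nat.mod_eq_of_lt (by omega)]
    simp only at h1
    rw [e1, e2] at h1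
    exact h1
  have hmM : m ≤ M₀ := hm.trans hM
  -- the law on the stable set
  set am : ℝ := ∑ j ∈ range m, kap j with ham
  have ham0 : 0 ≤ am := Finset.sum_nonneg fun j _ => hkap0 j
  have hama : am ≤ a := by
    refine le_trans ?_ hkapa
    refine Finset.sum_le_sum_of_subset_of_nonneg ?_ (fun j _ _ => hkap0 j)
    intro j hj
    rw [Finset.mem_range] at hj ⊢
    omega
  have hP0 : 0 < Pr p {ω | x ω ∈ S₀} := lt_of_lt_of_le (Real.exp_pos _) hS₀
  have hSL' := hSLI n Ω Λ Ξ p lam x T pos A B μ L C₀ δ ε e₁ e₃ am S₀ hSL ham0 hS₀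
  obtain ⟨W, _, q, f, hq, hmarg, hx, hPd, hbad⟩ := hgs Ω Λ Ξ (rs p {ω | x ω ∈ S₀}) lam x T pos A B
    i₀ L δ ε hSL'.leaf hSL'.δ_pos hSL'.ε_nonneg hSL'.ncf
  have hb := hbad (4 * h) (2 * (d + 1)) I (8 * e) (cB / 8) (by omega) (by omega)
    (by rw [he]; ring) (fun i hi => by
      have : 4 * h * i ≤ 4 * h * I := Nat.mul_le_mul_left _ hi.le
      omega) (by linarith)
  set good : ℕ → Prop := fun i =>
    ¬ (cB / 8 * (8 * e : ℕ) < JJ L (4 * h * i) (8 * e) lam x pos B i₀ q f) with hgood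
  have hbc : ∀ s : Finset ℕ, (∀ i ∈ s, i < I ∧ ¬ good i) → s.card ≤ B₀ := by
    intro s hs
    have h1 : s ⊆ (range I).filter fun i =>
        cB / 8 * (8 * e : ℕ) < JJ L (4 * h * i) (8 * e) lam x pos B i₀ q f := by
      intro i hi
      obtain ⟨g1, g2⟩ := hs i hi
      rw [Finset.mem_filter, Finset.mem_range]
      exact ⟨g1, not_not.1 g2⟩
    refine (Finset.card_le_card h1).trans ?_
    have h2 : (((range I).filter fun i =>
        cB / 8 * (8 * e : ℕ) < JJ L (4 * h * i) (8 * e) lam x pos B i₀ q f).card : ℝ) *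
        (cB / 8) ≤ B₀ * (cB / 8) := hb.trans hB₀
    have h3 := le_of_mul_le_mul_right h2 (show 0 < cB / 8 by linarith)
    exact_mod_cast h3
  obtain ⟨k, hk, hQk, hor⟩ := iterate (fun i k => Q i k S₀) good I B₀ Ks (by
      refine ⟨fun _ => 0, fun _ => by simp, fun ω hω _ => ⟨?_, ?_, ?_⟩⟩
      · show |rp (2 ^ L) pos (x ω) none - MvPolynomial.eval _ (0 : MvPolynomial (Fin n) ℝ)| ≤ _
        rw [map_zero, sub_zero, Nat.mul_zero, pow_zero, div_one]
        unfold rp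
        push_cast
        have h1 := hSL.leaf.pos_lt ω none
        have h2 : (pos (x ω) none : ℝ) ≤ 2 ^ L := by exact_mod_cast h1.le
        rw [abs_of_nonneg (by positivity), div_le_one (by positivity)]
        exact h2
      · intro y _ i
        show |MvPolynomial.eval y (MvPolynomial.pderiv i (0 : MvPolynomial (Fin n) ℝ))| ≤ _
        simp
      · intro y _ i j
        show |MvPolynomial.eval y (MvPolynomial.pderiv i
          (MvPolynomial.pderiv j (0 : MvPolynomial (Fin n) ℝ)))| ≤ _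
        simp) (by
      intro i hi k _ hQ'
      have h1 : 4 * h * (i + 1) ≤ 4 * h * I := Nat.mul_le_mul_left _ hi
      have h2 : 4 * h * i ≤ 4 * h * (i + 1) := Nat.mul_le_mul_left _ (Nat.le_succ i)
      refine (Sta.ext hQ' h2 (by omega)).mono ?_ le_rfl
      refine mul_le_mul_of_nonneg_right ?_ (by positivity)
      exact_mod_cast Nat.le_succ i) (by
      intro i hi k hki hkK hik hg hQ'
      have h1 : 4 * h * (i + 1) ≤ 4 * h * I := Nat.mul_le_mul_left _ hi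
      have h2 : 4 * h * (i + 1) = 4 * h * i + 4 * h := by ring
      have h3 : 2 * e * k ≤ 2 * e * Ks := Nat.mul_le_mul_left _ hkK
      have h4 : 2 * e * (k + 1) = 2 * e * k + 2 * e := by ring
      have hS₁ : (i : ℝ) * 2 ^ s₀ ≤ 2 ^ s := by
        have g1 : (i : ℝ) ≤ 2 ^ I := by
          have g2 : i < 2 ^ I := lt_trans hi Nat.lt_two_pow_self
          exact_mod_cast g2.le
        calc (i : ℝ) * 2 ^ s₀ ≤ 2 ^ I * 2 ^ s₀ := mul_le_mul_of_nonneg_right g1 (by positivity)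
          _ = 2 ^ (I + s₀) := (pow_add _ _ _).symm
          _ ≤ 2 ^ s := pow_le_pow_right₀ (by norm_num) (by omega)
      have hJ : 8 * JJ L (4 * h * i) (8 * e) lam x pos B i₀ q f ≤ cB * (8 * e : ℕ) := by
        have g1 := not_lt.1 hg
        linarith
      obtain ⟨S', hS'sub, hS'P, hS'Q⟩ := sstep hst hp hP0 hSL' hTC hκ hdet hh he (a := 4 * h * i)
        (k := 2 * e * k) (s := s) (N := N) (S₁ := (i : ℝ) * 2 ^ s₀) (by omega) (by omega)
        (by omega) hS₁ hq hmarg hx (by linarith) hJ (by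
          refine le_trans ?_ hsm
          have g1 : ((N : ℝ) + 1) * (e₁ + am + CE + 1) ≤ (N + 1) * (e₁ + a + CE + 1) :=
            mul_le_mul_of_nonneg_left (by linarith) (by positivity)
          linarith) hQ'
      rcases hQS' (i + 1) (by omega) (k + 1) (by omega) with hQQ | hQQ
      · exact hQQ
      · exfalso
        refine hQQ S' hS'sub (le_trans ?_ hS'P) ?_
        · exact mul_le_mul_of_nonneg_right (hstab m hmM) hP0.le
        · show Sta L (4 * h * (i + 1)) (2 * e * (k + 1)) d (((i + 1 : ℕ) : ℝ) * 2 ^ s₀) p x pos S'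
          rw [h2, h4]
          refine hS'Q.mono ?_ le_rfl
          have g1 := incr_pow (c₂ := c₂) hd he hik
          push_cast
          have g2 : ((i : ℝ) + 1) * 2 ^ s₀ = i * 2 ^ s₀ + 2 ^ s₀ := by ring
          rw [g2]
          linarith) hbc
  refine ⟨S₀, k, ?_, hk, hor, ?_⟩
  · exact (Real.exp_le_exp.2 (neg_le_neg hama)).trans hS₀
  · have hQk' : Sta L (4 * h * I) (2 * e * k) d ((I : ℝ) * 2 ^ s₀) p x pos S₀ := hQk
    refine hQk'.mono ?_ le_rfl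
    have g1 : (I : ℝ) ≤ 2 ^ I := by
      have g2 : I < 2 ^ I := Nat.lt_two_pow_self
      exact_mod_cast g2.le
    calc (I : ℝ) * 2 ^ s₀ ≤ 2 ^ I * 2 ^ s₀ := mul_le_mul_of_nonneg_right g1 (by positivity)
      _ = 2 ^ (I + s₀) := (pow_add _ _ _).symm
      _ ≤ 2 ^ s := pow_le_pow_right₀ (by norm_num) (by omega)

end Pool.KBX
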