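import Pool.Agent.H84.KBOX.Reg4

/-!
# Regularity of a leaf: choice of the parameters
-/

set_option autoImplicit false

namespace Pool.KBX

open Finset Real MeasureTheory
open Pool.Agent.H49.Ent Pool.Agent.H32.Dense Pool.STK Pool.KAF Pool.KAL Pool.KS3

/-- The integers. -/
theorem reg_num {d B₀ I₀ c₁ c₂ L u : ℕ} {ρ σ υ : ℝ} (hd : 3 ≤ d) (hρ : 0 < ρ)
    (hσ : 0 < σ) (hσ1 : σ ≤ 1 / 2) (hρσ : 4 * ((d + 1) * ρ * (10 + 2 * B₀)) ≤ σ)
    (hI₀ : 1 / ρ ≤ I₀) (hυ : 4 ≤ (d + 1) * υ) (hu : υ * L ≤ u) (hu2 : 2 * u ≤ L)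
    (hL1 : 2 * (c₂ + 2) ≤ ρ * L) (hL2 : 4 * ((c₁ + c₂ + I₀ : ℕ) : ℝ) ≤ σ * L) :
    ∃ h e I Ks s : ℕ, c₂ ≤ h ∧ 1 ≤ h ∧ e = (d + 1) * h ∧ 4 * h * I + 8 * e ≤ L ∧
      4 * h * I + c₁ ≤ L ∧ 2 * e * Ks + 8 * e + s + c₁ ≤ L ∧
      e * (1 + 2 * B₀) + c₂ + I ≤ s ∧ (I + 1) * (I + 1) ≤ (I₀ + 1) * (I₀ + 1) ∧
      (d + 1) * ρ * L / 2 ≤ e ∧ 4 * h * I ≤ u ∧ (s : ℝ) ≤ σ * L ∧
      2 * e * (Ks + 1) ≤ L ∧ (1 - σ) * L ≤ (2 * e * (Ks + 1) : ℕ) ∧
      ∀ k, k ≤ Ks + 1 → I ≤ k + B₀ → k = Ks + 1 := by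
  have hL0 : (0 : ℝ) ≤ L := Nat.cast_nonneg L
  have hc20 : (0 : ℝ) ≤ c₂ := Nat.cast_nonneg c₂
  have hLpos : (0 : ℝ) < L := by
    rcases hL0.eq_or_lt with h | h
    · rw [← h, mul_zero] at hL1
      linarith only [hσ, hσ1, hL1]
    · exact h
  obtain ⟨h, hh⟩ : ∃ h : ℕ, h = ⌊ρ * L⌋₊ := ⟨_, rfl⟩
  have hh1 : (h : ℝ) ≤ ρ * L := by
    rw [hh]
    exact Nat.floor_le (by positivity)
  have hh2 : ρ * L < h + 1 := by
    rw [hh]
    exact Nat.lt_floor_add_one _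
  have hh3 : ρ * L / 2 ≤ h := by linarith only [hσ, hσ1, hL1, hh2]
  have hh4 : (c₂ : ℝ) + 1 ≤ h := by linarith only [hσ, hσ1, hL1, hh2]
  have hh4' : c₂ + 1 ≤ h := by exact_mod_cast hh4
  have hh5 : (0 : ℝ) < h := by linarith only [hσ, hσ1, hL1, hh2]
  obtain ⟨e, he⟩ : ∃ e : ℕ, e = (d + 1) * h := ⟨_, rfl⟩
  have her : (e : ℝ) = (d + 1) * h := by rw [he]; push_cast; ring
  have hd0 : (0 : ℝ) < (d : ℝ) + 1 := by positivity
  have hB0 : (0 : ℝ) ≤ B₀ := Nat.cast_nonneg B₀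
  have he1 : 4 * ((e : ℝ) * (10 + 2 * B₀)) ≤ σ * L := by
    have h1 : (e : ℝ) * (10 + 2 * B₀) ≤ (d + 1) * (ρ * L) * (10 + 2 * B₀) := by
      rw [her]
      refine mul_le_mul_of_nonneg_right ?_ (by positivity)
      exact mul_le_mul_of_nonneg_left hh1 hd0.le
    have h2 : 4 * ((d + 1) * (ρ * L) * (10 + 2 * B₀)) ≤ σ * L := by
      have h3 := mul_le_mul_of_nonneg_right hρσ hL0
      linarith only [h3]
    linarith only [h1, h2]
  have he2 : ((d : ℝ) + 1) * ρ * L / 2 ≤ e := by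
    rw [her]
    have := mul_le_mul_of_nonneg_left hh3 hd0.le
    linarith only [this]
  have he0 : 1 ≤ e := by
    rw [he]
    exact Nat.mul_pos (Nat.succ_pos d) (by omega)
  have he0r : (1 : ℝ) ≤ e := by exact_mod_cast he0
  have heB : 0 ≤ (e : ℝ) * B₀ := by positivity
  have hσL : σ * L ≤ 1 / 2 * L := mul_le_mul_of_nonneg_right hσ1 hL0
  obtain ⟨I, hI⟩ : ∃ I : ℕ, I = u / (4 * h) := ⟨_, rfl⟩
  have h4h : 0 < 4 * h := by omega
  have hI1 : 4 * h * I ≤ u := by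
    rw [hI]
    exact Nat.mul_div_le u (4 * h)
  have hI2 : u < 4 * h * (I + 1) := by
    rw [hI]
    have := Nat.lt_mul_div_succ u h4h
    simpa using this
  have hu2r : 2 * (u : ℝ) ≤ L := by exact_mod_cast hu2
  have hII : I ≤ I₀ := by
    have h1 : 4 * (h : ℝ) * I ≤ u := by exact_mod_cast hI1
    have h2 : 4 * (ρ * L / 2) * I ≤ 4 * (h : ℝ) * I := by
      refine mul_le_mul_of_nonneg_right ?_ (Nat.cast_nonneg I)
      linarith only [hσ, hσ1, hL1, hh2]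
    have h3 : (ρ * I) * L ≤ 1 / 4 * L := by linarith only [hu2r, h1, h2]
    have h4 : ρ * I ≤ 1 / 4 := le_of_mul_le_mul_right h3 hLpos
    have h5 : (I : ℝ) ≤ 1 / ρ := by
      rw [le_div_iff₀ hρ]
      linarith only [hσ, hσ1, h4]
    exact_mod_cast h5.trans hI₀
  obtain ⟨s, hs⟩ : ∃ s : ℕ, s = e * (1 + 2 * B₀) + c₂ + I₀ := ⟨_, rfl⟩
  have hsr : (s : ℝ) = e * (1 + 2 * B₀) + c₂ + I₀ := by rw [hs]; push_cast; ring
  push_cast at hL2
  have hc10 : (0 : ℝ) ≤ c₁ := Nat.cast_nonneg c₁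
  have hI₀0 : (0 : ℝ) ≤ I₀ := Nat.cast_nonneg I₀
  have hs1 : (8 : ℝ) * e + s + c₁ ≤ σ * L / 2 := by
    rw [hsr]
    linarith only [hσ, hσ1, he1, he0r, hL2]
  have hs2 : (s : ℝ) ≤ σ * L := by
    have : 0 ≤ σ * L := by positivity
    linarith only [hσ, hσ1, he1, he0r, heB, hsr, hL2]
  have hs3 : 8 * e + s + c₁ ≤ L := by
    have : ((8 * e + s + c₁ : ℕ) : ℝ) ≤ L := by push_cast; linarith only [hσ, hσ1, he1, he0r, heB, hσL, hsr, hL2]
    exact_mod_cast this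
  obtain ⟨Ks, hKs⟩ : ∃ Ks : ℕ, Ks = (L - (8 * e + s + c₁)) / (2 * e) := ⟨_, rfl⟩
  have h2e : 0 < 2 * e := by omega
  have hK1 : 2 * e * Ks ≤ L - (8 * e + s + c₁) := by
    rw [hKs]
    exact Nat.mul_div_le _ (2 * e)
  have hK2 : L - (8 * e + s + c₁) < 2 * e * (Ks + 1) := by
    rw [hKs]
    have := Nat.lt_mul_div_succ (L - (8 * e + s + c₁)) h2e
    simpa using this
  have hK3 : 2 * e * (Ks + 1) = 2 * e * Ks + 2 * e := by ring
  have h8e : 8 * e ≤ L - u := by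
    have h1 : ((8 * e + u : ℕ) : ℝ) ≤ L := by
      push_cast
      linarith only [hσ, hσ1, he1, he0r, heB, hσL, hu2r]
    have h2 : 8 * e + u ≤ L := by exact_mod_cast h1
    omega
  have hc1 : c₁ ≤ L - u := by
    have h1 : ((c₁ + u : ℕ) : ℝ) ≤ L := by
      push_cast
      linarith only [hσ, hσ1, he1, he0r, heB, hσL, hu2r, hL2]
    have h2 : c₁ + u ≤ L := by exact_mod_cast h1
    omega
  refine ⟨h, e, I, Ks, s, by omega, by omega, he, by omega, by omega, by omega, by omega,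
    Nat.mul_le_mul (by omega) (by omega), he2, hI1, hs2, by omega, ?_, ?_⟩
  · have h1 : (L : ℝ) < (2 * e * (Ks + 1) : ℕ) + ((8 * e + s + c₁ : ℕ) : ℝ) := by
      have : L < 2 * e * (Ks + 1) + (8 * e + s + c₁) := by omega
      exact_mod_cast this
    have h2 : ((8 * e + s + c₁ : ℕ) : ℝ) ≤ σ * L / 2 := by push_cast; linarith only [hσ, hσ1, he1, he0r, hsr, hL2]
    have h3 : 0 ≤ σ * L := by positivity
    linarith only [hσ, hσ1, he1, he0r, heB, h1, h2]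
  · intro k hk hIk
    -- `2 e (I + 1) > 2 L`
    have h1 : (2 : ℝ) * L < 2 * e * (I + 1) := by
      have g1 : (u : ℝ) < 4 * h * (I + 1) := by exact_mod_cast hI2
      have g2 : 4 * (L : ℝ) ≤ (d + 1) * υ * L := mul_le_mul_of_nonneg_right hυ hL0
      have g3 : ((d : ℝ) + 1) * (υ * L) ≤ (d + 1) * u := mul_le_mul_of_nonneg_left hu hd0.le
      have g4 : ((d : ℝ) + 1) * u < (d + 1) * (4 * h * (I + 1)) := mul_lt_mul_of_pos_left g1 hd0
      have g5 : ((d : ℝ) + 1) * (4 * h * (I + 1)) = 2 * (2 * e * (I + 1)) := by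
        rw [her]
        ring
      linarith only [g2, g3, g4, g5]
    have h2 : (2 : ℝ) * e * (I + 1) ≤ 2 * e * (k + B₀ + 1) := by
      refine mul_le_mul_of_nonneg_left ?_ (by positivity)
      have : (I : ℝ) ≤ k + B₀ := by exact_mod_cast hIk
      linarith only [this]
    have h3 : (2 : ℝ) * e * (B₀ + 1) ≤ L := by linarith only [hσ, hσ1, he1, he0r, heB, hσL]
    have h4 : (L : ℝ) < 2 * e * k := by
      have : (2 : ℝ) * e * (k + B₀ + 1) = 2 * e * k + 2 * e * (B₀ + 1) := by ring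
      linarith only [hσ, hσ1, he1, he0r, heB, hσL, h1, h2]
    have h5 : L < 2 * e * k := by exact_mod_cast h4
    by_contra hne
    have h6 : k ≤ Ks := by omega
    have h7 : 2 * e * k ≤ 2 * e * Ks := Nat.mul_le_mul_left _ h6
    omega

/-- Geometric sums. -/
theorem geo_sum {A : ℝ} (hA : 1 < A) (m : ℕ) : (∑ j ∈ range m, A ^ j) * (A - 1) ≤ A ^ m := by
  have := geom_sum_mul A m
  linarith only [this]

end Pool.KBX
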